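import Pool.Agent.Helper621.DAP.Defs

set_option autoImplicit false

open Complex Metric Set Filter Topology Classical ZeroAtInfty

namespace Pool.Agent.Helper621.DAP

/-! ## bounded holomorphic functions -/

/-- the ambient space of bounded continuous functions on the open disc -/
abbrev AmbB := BoundedContinuousFunction (Metric.ball (0:ℂ) 1) ℂ

/-- the space of bounded holomorphic functions on the disc -/
def HI : Submodule ℂ AmbB where
  carrier := {f | ∃ g : ℂ → ℂ, DifferentiableOn ℂ g (Metric.ball (0:ℂ) 1) ∧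
    ∀ z : Metric.ball (0:ℂ) 1, f z = g (z : ℂ)}
  add_mem' := by
    rintro f₁ f₂ ⟨g₁, h₁, e₁⟩ ⟨g₂, h₂, e₂⟩
    exact ⟨fun z => g₁ z + g₂ z, h₁.add h₂, fun z => by simp [e₁, e₂]⟩
  zero_mem' := ⟨fun _ => 0, differentiableOn_const 0, fun z => by simp⟩
  smul_mem' := by
    rintro c f ⟨g, h, e⟩
    exact ⟨fun z => c * g z, h.const_mul c, fun z => by simp [e]⟩

/-- values of a bounded holomorphic function, zero off the disc -/
noncomputable def evH (F : HI) (z : ℂ) : ℂ :=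
  if h : z ∈ ball (0:ℂ) 1 then F.1 ⟨z, h⟩ else 0

theorem evH_eq (F : HI) (z : ℂ) (h : z ∈ ball (0:ℂ) 1) : evH F z = F.1 ⟨z, h⟩ := by
  simp only [evH, dif_pos h]

theorem evH_ext {F G : HI} (h : ∀ z ∈ ball (0:ℂ) 1, evH F z = evH G z) : F = G := by
  apply Subtype.ext
  ext z
  have := h z.1 z.2
  rw [evH_eq _ _ z.2, evH_eq _ _ z.2] at this
  exact this

theorem evH_add (F G : HI) (z : ℂ) : evH (F + G) z = evH F z + evH G z := by
  unfold evH; split <;> simp

theorem evH_sub (F G : HI) (z : ℂ) : evH (F - G) z = evH F z - evH G z := by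
  unfold evH; split <;> simp

theorem evH_smul (c : ℂ) (F : HI) (z : ℂ) : evH (c • F) z = c * evH F z := by
  unfold evH; split <;> simp

theorem evH_zero (z : ℂ) : evH (0 : HI) z = 0 := by
  unfold evH; split <;> simp

theorem evH_neg (F : HI) (z : ℂ) : evH (-F) z = - evH F z := by
  unfold evH; split <;> simp

theorem evH_diff (F : HI) : DifferentiableOn ℂ (evH F) (ball (0:ℂ) 1) := by
  obtain ⟨g, hg, he⟩ := F.2
  apply hg.congr
  intro z hz
  rw [evH_eq _ _ hz]; exact he ⟨z, hz⟩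

theorem norm_evH_le (F : HI) (z : ℂ) : ‖evH F z‖ ≤ ‖F‖ := by
  unfold evH; split
  · exact F.1.norm_coe_le_norm _
  · simp

theorem normH_le_of (F : HI) {M : ℝ} (hM : 0 ≤ M)
    (h : ∀ z ∈ ball (0:ℂ) 1, ‖evH F z‖ ≤ M) : ‖F‖ ≤ M := by
  change ‖F.1‖ ≤ M
  rw [BoundedContinuousFunction.norm_le hM]
  intro z
  have := h z.1 z.2
  rwa [evH_eq _ _ z.2] at this

/-- the element given by a bounded holomorphic function -/
noncomputable def mkH (f : ℂ → ℂ) (hf : DifferentiableOn ℂ f (ball (0:ℂ) 1)) (M : ℝ)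
    (hM : ∀ z ∈ ball (0:ℂ) 1, ‖f z‖ ≤ M) : HI :=
  ⟨BoundedContinuousFunction.ofNormedAddCommGroup (fun z : Metric.ball (0:ℂ) 1 => f z) (by
      have := hf.continuousOn
      rw [continuousOn_iff_continuous_domRestrict] at this
      exact this) M (fun z => hM z.1 z.2), ⟨f, hf, fun z => rfl⟩⟩

theorem evH_mkH (f : ℂ → ℂ) (hf : DifferentiableOn ℂ f (ball (0:ℂ) 1)) (M : ℝ)
    (hM : ∀ z ∈ ball (0:ℂ) 1, ‖f z‖ ≤ M) (z : ℂ) (h : z ∈ ball (0:ℂ) 1) :
    evH (mkH f hf M hM) z = f z := by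
  rw [evH_eq _ _ h]; rfl

/-- restriction of disc algebra functions to the open disc -/
noncomputable def rho : DA →L[ℂ] HI :=
  LinearMap.mkContinuous
    { toFun := fun g => mkH (ev g) (ev_isDA g).2 ‖g‖ (fun z _ => norm_ev_le g z)
      map_add' := by
        intro x y; apply evH_ext; intro z hz
        rw [evH_add, evH_mkH _ _ _ _ z hz, evH_mkH _ _ _ _ z hz, evH_mkH _ _ _ _ z hz, ev_add]
      map_smul' := by
        intro c x; apply evH_ext; intro z hz
        rw [RingHom.id_apply, evH_smul, evH_mkH _ _ _ _ z hz, evH_mkH _ _ _ _ z hz, ev_smul] }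
    1 (by
      intro x
      apply normH_le_of _ (by positivity)
      intro z hz
      simp only [LinearMap.coe_mk, AddHom.coe_mk]
      rw [evH_mkH _ _ _ _ z hz, one_mul]
      exact norm_ev_le _ _)

theorem evH_rho (g : DA) (z : ℂ) (hz : z ∈ ball (0:ℂ) 1) : evH (rho g) z = ev g z :=
  evH_mkH (ev g) (ev_isDA g).2 ‖g‖ (fun z _ => norm_ev_le g z) z hz

theorem norm_rho_le (g : DA) : ‖rho g‖ ≤ ‖g‖ := by
  apply normH_le_of _ (by positivity)
  intro z hz
  rw [evH_rho _ _ hz]; exact norm_ev_le _ _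

/-- the peak function `((1 + conj s * z)/2)^n` -/
noncomputable def pk (s : ℂ) (n : ℕ) : DA :=
  mk (fun z => ((1 + (starRingEnd ℂ) s * z) / 2) ^ n) ⟨by fun_prop, by fun_prop⟩

theorem ev_pk (s : ℂ) (n : ℕ) (z : ℂ) (hz : z ∈ closedBall (0:ℂ) 1) :
    ev (pk s n) z = ((1 + (starRingEnd ℂ) s * z) / 2) ^ n := ev_mk _ _ z hz

/-- the monomials -/
noncomputable def mon (k : ℕ) : DA := mk (fun z => z ^ k) ⟨by fun_prop, by fun_prop⟩

theorem ev_mon (k : ℕ) (z : ℂ) (hz : z ∈ closedBall (0:ℂ) 1) : ev (mon k) z = z ^ k :=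
  ev_mk _ _ z hz

/-- composition with `ψ` if this is an admissible inner map, zero otherwise -/
noncomputable def cmp (ψ : ℂ → ℂ) : DA →L[ℂ] DA := if h : Inner ψ then compL ψ h else 0

theorem ev_cmp {ψ : ℂ → ℂ} (h : Inner ψ) (g : DA) (z : ℂ) (hz : z ∈ closedBall (0:ℂ) 1) :
    ev (cmp ψ g) z = ev g (ψ z) := by
  unfold cmp; rw [dif_pos h]; exact ev_compL _ _ _ _ hz

theorem norm_cmp_le (ψ : ℂ → ℂ) (g : DA) : ‖cmp ψ g‖ ≤ ‖g‖ := by
  unfold cmp; split
  · exact norm_compL_le _ _ _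
  · simp

/-- the disc automorphism `s (z + a)/(1 + a z)` -/
noncomputable def mo (s : ℂ) (a : ℝ) (z : ℂ) : ℂ := s * (z + a) / (1 + a * z)

/-- its inverse -/
noncomputable def moI (s : ℂ) (a : ℝ) (w : ℂ) : ℂ :=
  ((starRingEnd ℂ) s * w - a) / (1 - a * ((starRingEnd ℂ) s * w))

/-- the point of the circle with angle `t` -/
noncomputable def ei (t : ℝ) : ℂ := exp (t * I)

/-- the Poisson kernel, normalized -/
noncomputable def PK (w : ℂ) (t : ℝ) : ℝ := (1 - ‖w‖ ^ 2) / ‖ei t - w‖ ^ 2 / (2 * Real.pi)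

/-- the function has mean value tending to zero on small intervals around `t0` -/
def LP (v : ℝ → ℝ) (t0 : ℝ) : Prop :=
  Tendsto (fun δ : ℝ => (∫ t in (t0 - δ)..(t0 + δ), v t) / δ) (𝓝[>] 0) (𝓝 0)

/-- local diagonalization of `S` at the boundary point `s` with scalar `D` -/
structure Loc (S : DA →L[ℂ] HI) (s D : ℂ) : Prop where
  diag : ∀ ε > 0, ∃ N : ℕ, ∀ n ≥ N, ∀ e : DA, ‖e‖ ≤ 1 → ∀ z ∈ ball (0:ℂ) 1,
    ∀ᶠ a : ℝ in 𝓝[<] 1,
      ‖evH (S (mulL (pk s n) (cmp (moI s a) e))) (mo s a z) - D * ev e z‖ ≤ ε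
  flat : ∀ f : DA, ∀ z ∈ ball (0:ℂ) 1,
    Tendsto (fun a : ℝ => evH (S f) (mo s a z) - evH (S f) (mo s a 0)) (𝓝[<] 1) (𝓝 0)

/-- boundary functionals `τ t` of the operator `S` along the radii `r k` -/
structure Bd (S : DA →L[ℂ] HI) (r : ℕ → ℝ) (τ : ℝ → DA →L[ℂ] ℂ) : Prop where
  r0 : ∀ k, 0 < r k
  r1 : ∀ k, r k < 1
  rl : Tendsto r atTop (𝓝 1)
  lim : ∀ᵐ t : ℝ, ∀ f : DA, Tendsto (fun k => evH (S f) (r k * ei t)) atTop (𝓝 (τ t f))
  bd : ∀ t f, ‖τ t f‖ ≤ ‖S‖ * ‖f‖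

/-- the set of angles where the functional is almost a multiple of a point evaluation -/
def KK (τ : ℝ → DA →L[ℂ] ℂ) (ε : ℝ) (N : ℕ) : Set ℝ :=
  {t | ∀ n ≥ N, ∀ g : DA, ‖g‖ ≤ 1 → ‖τ t (mulL (pk (ei t) n) (g - (ev g (ei t)) • one))‖ ≤ ε}

/-- bounded sequences -/
abbrev LB (E : Type) [NormedAddCommGroup E] : Type := BoundedContinuousFunction ℕ E

/-- the sequence with value `x` at `m` and zero elsewhere -/
noncomputable def sg {E : Type} [NormedAddCommGroup E] (m : ℕ) (x : E) : LB E :=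
  BoundedContinuousFunction.ofNormedAddCommGroupDiscrete (fun n => if n = m then x else 0) ‖x‖
    (by intro n; split
        · exact le_refl _
        · rw [norm_zero]; exact norm_nonneg _)

theorem sg_apply {E : Type} [NormedAddCommGroup E] (m : ℕ) (x : E) (n : ℕ) :
    sg m x n = if n = m then x else 0 := rfl


end Pool.Agent.Helper621.DAP
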