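import Pool.Agent.Helper621.HIP.Defs

set_option autoImplicit false

open Complex Metric Set Filter Topology Classical ZeroAtInfty

namespace Pool.Agent.Helper621.DAP


theorem meas_tau_mem (r : ℝ) (h0 : 0 < r) (h1 : r < 1) (t : ℝ) : (r : ℂ) * ei t ∈ ball (0:ℂ) 1 := by
  rw [mem_ball_zero_iff, norm_mul, ei, Complex.norm_exp_ofReal_mul_I, mul_one, Complex.norm_real,
    Real.norm_eq_abs, abs_of_pos h0]
  exact h1

theorem meas_tau {S : DA →L[ℂ] HI} {r : ℕ → ℝ} {τ : ℝ → DA →L[ℂ] ℂ} (h : Bd S r τ)
    {F : ℝ → DA} (hF : Continuous F) :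
    MeasureTheory.AEStronglyMeasurable (fun t => τ t (F t)) MeasureTheory.volume := by
  refine aestronglyMeasurable_of_tendsto_ae atTop
    (f := fun k t => evH (S (F t)) (r k * ei t)) (fun k => ?_) ?_
  · refine Continuous.aestronglyMeasurable ?_
    have hm := meas_tau_mem (r k) (h.r0 k) (h.r1 k)
    have he : (fun t => evH (S (F t)) (r k * ei t)) =
        fun t => (S (F t)).1 ⟨(r k : ℂ) * ei t, hm t⟩ := by
      funext t
      exact evH_eq _ _ (hm t)
    rw [he]
    have hw : Continuous (fun t : ℝ => (⟨(r k : ℂ) * ei t, hm t⟩ : Metric.ball (0:ℂ) 1)) := by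
      refine Continuous.subtype_mk ?_ _
      unfold ei
      fun_prop
    have hS : Continuous (fun t : ℝ => (S (F t)).1) :=
      continuous_subtype_val.comp (S.continuous.comp hF)
    exact hS.eval hw
  · filter_upwards [h.lim] with t ht
    exact ht (F t)

end Pool.Agent.Helper621.DAP
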