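import Pool.Agent.Helper621.HIP.Defs

set_option autoImplicit false

open Complex Metric Set Filter Topology Classical ZeroAtInfty

namespace Pool.Agent.Helper621.DAP


theorem norm_ei (t : ℝ) : ‖ei t‖ = 1 := by
  unfold ei
  exact Complex.norm_exp_ofReal_mul_I t

theorem ei_continuous : Continuous ei := by
  unfold ei
  fun_prop

theorem pow_sub_pow_le (a b : ℂ) (ha : ‖a‖ ≤ 1) (hb : ‖b‖ ≤ 1) (n : ℕ) :
    ‖a ^ n - b ^ n‖ ≤ n * ‖a - b‖ := by
  induction n with
  | zero => simp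
  | succ n ih =>
    have e : a ^ (n + 1) - b ^ (n + 1) = a * (a ^ n - b ^ n) + (a - b) * b ^ n := by ring
    rw [e]
    refine (norm_add_le _ _).trans ?_
    rw [norm_mul, norm_mul, norm_pow]
    have h1 : ‖a‖ * ‖a ^ n - b ^ n‖ ≤ 1 * (n * ‖a - b‖) :=
      mul_le_mul ha ih (norm_nonneg _) zero_le_one
    have h2 : ‖a - b‖ * ‖b‖ ^ n ≤ ‖a - b‖ * 1 :=
      mul_le_mul_of_nonneg_left (pow_le_one₀ (norm_nonneg _) hb) (norm_nonneg _)
    push_cast
    linarith

theorem base_norm (s z : ℂ) (hs : ‖s‖ ≤ 1) (hz : ‖z‖ ≤ 1) :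
    ‖(1 + (starRingEnd ℂ) s * z) / 2‖ ≤ 1 := by
  rw [norm_div, Complex.norm_ofNat, div_le_one (by norm_num)]
  refine (norm_add_le _ _).trans ?_
  rw [norm_one, norm_mul, Complex.norm_conj]
  have := mul_le_mul hs hz (norm_nonneg _) zero_le_one
  linarith

theorem pk_facts (n : ℕ) : Continuous (fun t : ℝ => pk (ei t) n) ∧
    (∀ t : ℝ, ‖pk (ei t) n‖ ≤ 1) ∧ (∀ t : ℝ, ev (pk (ei t) n) (ei t) = 1) := by
  refine ⟨?_, ?_, ?_⟩
  · rw [continuous_iff_continuousAt]
    intro u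
    have hb : ∀ t, ‖pk (ei t) n - pk (ei u) n‖ ≤ n * ‖ei t - ei u‖ := by
      intro t
      apply norm_le_of _ (by positivity)
      intro z hz
      have hz1 : ‖z‖ ≤ 1 := mem_closedBall_zero_iff.1 hz
      rw [ev_sub, ev_pk _ _ _ hz, ev_pk _ _ _ hz]
      refine (pow_sub_pow_le _ _ (base_norm _ _ (norm_ei t).le hz1) (base_norm _ _ (norm_ei u).le hz1) n).trans ?_
      apply mul_le_mul_of_nonneg_left _ (Nat.cast_nonneg n)
      have e : (1 + (starRingEnd ℂ) (ei t) * z) / 2 - (1 + (starRingEnd ℂ) (ei u) * z) / 2 =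
          (starRingEnd ℂ) (ei t - ei u) * z / 2 := by
        rw [map_sub]; ring
      rw [e, norm_div, norm_mul, Complex.norm_conj, Complex.norm_ofNat]
      have h1 : ‖ei t - ei u‖ * ‖z‖ ≤ ‖ei t - ei u‖ * 1 :=
        mul_le_mul_of_nonneg_left hz1 (norm_nonneg _)
      have h2 := norm_nonneg (ei t - ei u)
      linarith
    have hc : Tendsto (fun t => (n : ℝ) * ‖ei t - ei u‖) (𝓝 u) (𝓝 0) := by
      have h1 : Continuous (fun t => (n : ℝ) * ‖ei t - ei u‖) := by
        have := ei_continuous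
        fun_prop
      have h2 := h1.tendsto u
      simpa using h2
    rw [ContinuousAt, tendsto_iff_norm_sub_tendsto_zero]
    exact squeeze_zero (fun _ => norm_nonneg _) hb hc
  · intro t
    apply norm_le_of _ zero_le_one
    intro z hz
    have hz1 : ‖z‖ ≤ 1 := mem_closedBall_zero_iff.1 hz
    rw [ev_pk _ _ _ hz, norm_pow]
    exact pow_le_one₀ (norm_nonneg _) (base_norm _ _ (norm_ei t).le hz1)
  · intro t
    have hm : ei t ∈ closedBall (0:ℂ) 1 := mem_closedBall_zero_iff.2 (norm_ei t).le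
    rw [ev_pk _ _ _ hm, Complex.conj_mul', norm_ei]
    norm_num

end Pool.Agent.Helper621.DAP
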