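import Pool.Agent.Helper621.HIP.Defs

set_option autoImplicit false

open Complex Metric Set Filter Topology Classical ZeroAtInfty

namespace Pool.Agent.Helper621.DAP


theorem sepDA_amb : SecondCountableTopology Amb :=
  (ContinuousMap.isometryEquivBoundedOfCompact
    (Metric.closedBall (0:ℂ) 1) ℂ).symm.toHomeomorph.isEmbedding.secondCountableTopology

theorem sepDA : TopologicalSpace.SeparableSpace DA := by
  have := sepDA_amb
  infer_instance

end Pool.Agent.Helper621.DAP
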