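import Pool.Agent.Helper621.HIP.Defs
import Pool.Agent.Helper621.HIP.P_meas_tau
import Pool.Agent.Helper621.HIP.P_sepDA
import Pool.Agent.Helper621.HIP.P_pk_facts

set_option autoImplicit false

open Complex Metric Set Filter Topology Classical ZeroAtInfty

namespace Pool.Agent.Helper621.DAP


theorem norm_ei_aux (t : ℝ) : ‖ei t‖ = 1 := by
  unfold ei; exact Complex.norm_exp_ofReal_mul_I t

theorem ei_mem_aux (t : ℝ) : ei t ∈ closedBall (0:ℂ) 1 := by
  rw [mem_closedBall_zero_iff, norm_ei_aux]

theorem continuous_ei_aux : Continuous ei := by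
  unfold ei; fun_prop

/-- multiplication as a bilinear map -/
noncomputable def mulB_aux : DA →L[ℂ] DA →L[ℂ] DA :=
  LinearMap.mkContinuous
    { toFun := fun h => mulL h
      map_add' := by
        intro x y; ext1 g; apply ev_ext; intro z hz
        rw [_root_.add_apply, ev_add, ev_mulL _ _ _ hz, ev_mulL _ _ _ hz,
          ev_mulL _ _ _ hz, ev_add]; ring
      map_smul' := by
        intro c x; ext1 g; apply ev_ext; intro z hz
        rw [RingHom.id_apply, _root_.smul_apply, ev_smul, ev_mulL _ _ _ hz,
          ev_mulL _ _ _ hz, ev_smul]; ring }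
    1 (by
      intro x
      rw [one_mul]
      apply ContinuousLinearMap.opNorm_le_bound _ (norm_nonneg _)
      intro g
      exact norm_mulL_le x g)

theorem mulB_aux_apply (h g : DA) : mulB_aux h g = mulL h g := rfl

/-- evaluation as a linear functional -/
noncomputable def evL_aux (w : ℂ) : DA →L[ℂ] ℂ :=
  LinearMap.mkContinuous
    { toFun := fun g => ev g w
      map_add' := by intro x y; exact ev_add x y w
      map_smul' := by intro c x; rw [RingHom.id_apply, smul_eq_mul]; exact ev_smul c x w }
    1 (by intro x; rw [one_mul]; exact norm_ev_le x w)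

theorem evL_aux_apply (w : ℂ) (g : DA) : evL_aux w g = ev g w := rfl

theorem cont_t_aux (n : ℕ) (g : DA) :
    Continuous (fun t : ℝ => mulL (pk (ei t) n) (g - (ev g (ei t)) • one)) := by
  have h1 : Continuous (fun t : ℝ => ev g (ei t)) :=
    (ev_isDA g).1.comp_continuous continuous_ei_aux ei_mem_aux
  have h2 : Continuous (fun t : ℝ => g - (ev g (ei t)) • one) :=
    continuous_const.sub (h1.smul continuous_const)
  have h3 : Continuous (fun t : ℝ => mulB_aux (pk (ei t) n)) :=
    mulB_aux.continuous.comp (pk_facts n).1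
  exact h3.clm_apply h2

theorem cont_g_aux (τ : DA →L[ℂ] ℂ) (p : DA) (w : ℂ) :
    Continuous (fun g : DA => ‖τ (mulL p (g - (ev g w) • one))‖) := by
  have h1 : Continuous (fun g : DA => ev g w) := (evL_aux w).continuous
  have h2 : Continuous (fun g : DA => g - (ev g w) • one) :=
    continuous_id.sub (h1.smul continuous_const)
  exact (τ.continuous.comp ((mulL p).continuous.comp h2)).norm

theorem dense_aux {E : Type} [NormedAddCommGroup E] (u : ℕ → closedBall (0:E) 1)
    (hu : DenseRange u) {F : E → ℝ} (hF : Continuous F) {ε : ℝ} (hk : ∀ k, F (u k) ≤ ε)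
    (g : E) (hg : ‖g‖ ≤ 1) : F g ≤ ε := by
  have hcl : IsClosed {x : closedBall (0:E) 1 | F (x : E) ≤ ε} :=
    isClosed_le (hF.comp continuous_subtype_val) continuous_const
  have hsub : Set.range u ⊆ {x : closedBall (0:E) 1 | F (x : E) ≤ ε} := by
    rintro _ ⟨k, rfl⟩
    exact hk k
  have h3 := hcl.closure_subset_iff.mpr hsub
  have h4 : (⟨g, by rw [mem_closedBall_zero_iff]; exact hg⟩ : closedBall (0:E) 1) ∈
      closure (Set.range u) := by
    rw [hu.closure_range]; trivial
  exact h3 h4

theorem KK_meas {S : DA →L[ℂ] HI} {r : ℕ → ℝ} {τ : ℝ → DA →L[ℂ] ℂ} (h : Bd S r τ) (ε : ℝ)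
    (N : ℕ) : MeasureTheory.NullMeasurableSet (KK τ ε N) MeasureTheory.volume := by
  haveI := sepDA
  haveI : SecondCountableTopology DA := UniformSpace.secondCountable_of_separable DA
  haveI : Nonempty (closedBall (0:DA) 1) := ⟨⟨0, by simp⟩⟩
  set u : ℕ → closedBall (0:DA) 1 := TopologicalSpace.denseSeq (closedBall (0:DA) 1) with hu
  have hud : DenseRange u := TopologicalSpace.denseRange_denseSeq _
  have key : KK τ ε N = ⋂ n : ℕ, ⋂ (_ : n ≥ N), ⋂ k : ℕ,
      {t : ℝ | ‖τ t (mulL (pk (ei t) n) ((u k : DA) - (ev (u k : DA) (ei t)) • one))‖ ≤ ε} := by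
    ext t
    simp only [KK, mem_ofPred_eq, mem_iInter]
    constructor
    · intro ht n hn k
      exact ht n hn (u k) (by have := (u k).2; rwa [mem_closedBall_zero_iff] at this)
    · intro ht n hn g hg
      exact dense_aux u hud (cont_g_aux (τ t) (pk (ei t) n) (ei t)) (fun k => ht n hn k) g hg
  rw [key]
  refine MeasureTheory.NullMeasurableSet.iInter fun n =>
    MeasureTheory.NullMeasurableSet.iInter fun hn =>
    MeasureTheory.NullMeasurableSet.iInter fun k => ?_
  have hm := (meas_tau h (cont_t_aux n (u k : DA))).norm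
  exact nullMeasurableSet_le hm.aemeasurable aemeasurable_const

end Pool.Agent.Helper621.DAP
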