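import Pool.Agent.Helper621.HIP.Defs
import Pool.Agent.Helper621.DAP.P_hump

set_option autoImplicit false

open Complex Metric Set Filter Topology Classical ZeroAtInfty

namespace Pool.Agent.Helper621.DAP

theorem KK_union (τ : ℝ → DA →L[ℂ] ℂ) {ε : ℝ} (hε : 0 < ε) (t : ℝ) : ∃ N, t ∈ KK τ ε N := by
  have hs : ‖ei t‖ = 1 := by unfold ei; exact norm_exp_ofReal_mul_I t
  obtain ⟨N, hN⟩ := hump (τ t) hs hε
  exact ⟨N, fun n hn g hg => hN n hn g hg⟩

end Pool.Agent.Helper621.DAP
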