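import Pool.Agent.Helper621.HIP.Defs

set_option autoImplicit false

open Complex Metric Set Filter Topology Classical ZeroAtInfty

namespace Pool.Agent.Helper621.DAP


private theorem norm_ei' (t : ℝ) : ‖ei t‖ = 1 := Complex.norm_exp_ofReal_mul_I t

private theorem PK_den {w : ℂ} (hw : w ∈ ball (0:ℂ) 1) (t : ℝ) : 0 < ‖ei t - w‖ := by
  rw [mem_ball_zero_iff] at hw
  rw [norm_pos_iff, sub_ne_zero]
  intro h
  have := norm_ei' t
  rw [h] at this
  linarith

theorem PK_facts {w : ℂ} (hw : w ∈ ball (0:ℂ) 1) : (∀ t, 0 ≤ PK w t) ∧ Continuous (PK w) ∧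
    ∀ c : ℝ, ∫ t in (c - Real.pi)..(c + Real.pi), PK w t = 1 := by
  have hw1 : ‖w‖ < 1 := mem_ball_zero_iff.1 hw
  have hpi := Real.pi_pos
  have hcont : Continuous (PK w) := by
    unfold PK
    have he : Continuous ei := by unfold ei; fun_prop
    exact (continuous_const.div ((he.sub continuous_const).norm.pow 2)
      (fun t => (pow_pos (PK_den hw t) 2).ne')).div_const _
  refine ⟨fun t => ?_, hcont, ?_⟩
  · unfold PK
    have : 0 ≤ 1 - ‖w‖ ^ 2 := by nlinarith [norm_nonneg w]
    positivity
  · intro c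
    have hper : Function.Periodic (PK w) (2 * Real.pi) := by
      intro t
      have : ei (t + 2 * Real.pi) = ei t := by
        unfold ei
        rw [Complex.exp_eq_exp_iff_exists_int]
        exact ⟨1, by push_cast; ring⟩
      unfold PK
      rw [this]
    have h1 := hper.intervalIntegral_add_eq (c - Real.pi) 0
    rw [show c - Real.pi + 2 * Real.pi = c + Real.pi by ring, zero_add] at h1
    rw [h1]
    have h2 := (DiffContOnCl.circleAverage_poissonKernel_smul' (f := fun _ => (1 : ℂ)) (c := 0)
      (R := 1) (w := w) (diffContOnCl_const) hw)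
    rw [Real.circleAverage_def] at h2
    have h3 : ∀ t : ℝ, ((‖circleMap 0 1 t - 0‖ ^ 2 - ‖w - 0‖ ^ 2) /
        ‖(circleMap 0 1 t - 0) - (w - 0)‖ ^ 2) • (1 : ℂ) = ((2 * Real.pi * PK w t : ℝ) : ℂ) := by
      intro t
      have h4 : circleMap 0 1 t = ei t := by simp [circleMap, ei]
      rw [h4, sub_zero, sub_zero, norm_ei', Complex.real_smul, mul_one]
      congr 1
      unfold PK
      field_simp
    simp only [h3] at h2
    rw [intervalIntegral.integral_ofReal, Complex.real_smul, ← Complex.ofReal_mul,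
      intervalIntegral.integral_const_mul] at h2
    have h5 : (2 * Real.pi)⁻¹ * (2 * Real.pi * ∫ t in (0:ℝ)..2 * Real.pi, PK w t) = 1 := by
      exact_mod_cast h2
    rwa [← mul_assoc, inv_mul_cancel₀ (by positivity), one_mul] at h5

end Pool.Agent.Helper621.DAP
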