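import Pool.Agent.Helper621.HIP.Defs

set_option autoImplicit false

open Complex Metric Set Filter Topology Classical ZeroAtInfty

namespace Pool.Agent.Helper621.DAP


theorem j14833_ne {b : ℝ} (hb : |b| < 1) {z : ℂ} (hz : ‖z‖ ≤ 1) : 1 + (b : ℂ) * z ≠ 0 := by
  intro h
  have h1 : (b : ℂ) * z = -1 := by linear_combination h
  have h2 := congrArg norm h1
  rw [norm_mul, norm_neg, norm_one, Complex.norm_real, Real.norm_eq_abs] at h2
  have h3 : |b| * ‖z‖ ≤ |b| * 1 := mul_le_mul_of_nonneg_left hz (abs_nonneg b)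
  linarith

theorem j14833_id (b : ℝ) (z : ℂ) :
    ‖1 + (b : ℂ) * z‖ ^ 2 - ‖z + b‖ ^ 2 = (1 - b ^ 2) * (1 - ‖z‖ ^ 2) := by
  rw [Complex.sq_norm, Complex.sq_norm, Complex.sq_norm, Complex.normSq_apply,
    Complex.normSq_apply, Complex.normSq_apply]
  simp
  ring

theorem j14833_le {b : ℝ} (hb : |b| < 1) {z : ℂ} (hz : ‖z‖ ≤ 1) :
    ‖(z + b) / (1 + (b : ℂ) * z)‖ ≤ 1 := by
  have hne := j14833_ne hb hz
  rw [norm_div, div_le_one (norm_pos_iff.2 hne)]
  have h1 := j14833_id b z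
  have h2 : b ^ 2 < 1 := by
    rw [← sq_abs]
    nlinarith [abs_nonneg b]
  have h3 : ‖z‖ ^ 2 ≤ 1 := by nlinarith [norm_nonneg z]
  have h4 : 0 ≤ (1 - b ^ 2) * (1 - ‖z‖ ^ 2) := mul_nonneg (by linarith) (by linarith)
  exact (sq_le_sq₀ (norm_nonneg _) (norm_nonneg _)).1 (by linarith)

theorem j14833_lt {b : ℝ} (hb : |b| < 1) {z : ℂ} (hz : ‖z‖ < 1) :
    ‖(z + b) / (1 + (b : ℂ) * z)‖ < 1 := by
  have hne := j14833_ne hb hz.le
  rw [norm_div, div_lt_one (norm_pos_iff.2 hne)]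
  have h1 := j14833_id b z
  have h2 : b ^ 2 < 1 := by
    rw [← sq_abs]
    nlinarith [abs_nonneg b]
  have h3 : ‖z‖ ^ 2 < 1 := by nlinarith [norm_nonneg z]
  have h4 : 0 < (1 - b ^ 2) * (1 - ‖z‖ ^ 2) := mul_pos (by linarith) (by linarith)
  exact (sq_lt_sq₀ (norm_nonneg _) (norm_nonneg _)).1 (by linarith)

theorem mo_facts {s : ℂ} (hs : ‖s‖ = 1) {a : ℝ} (h0 : 0 < a) (h1 : a < 1) :
    Inner (mo s a) ∧ Inner (moI s a) ∧
      (∀ z ∈ closedBall (0:ℂ) 1, moI s a (mo s a z) = z) ∧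
      (∀ z ∈ closedBall (0:ℂ) 1, mo s a (moI s a z) = z) := by
  have hb : |a| < 1 := by rwa [abs_of_pos h0]
  have hb' : |(-a)| < 1 := by rwa [abs_neg]
  have hss : (starRingEnd ℂ) s * s = 1 := by
    rw [← Complex.normSq_eq_conj_mul_self, Complex.normSq_eq_norm_sq, hs]
    simp
  have hcs : ‖(starRingEnd ℂ) s‖ = 1 := by rw [RCLike.norm_conj, hs]
  have hmo : ∀ z, mo s a z = s * ((z + a) / (1 + (a : ℂ) * z)) := fun z => by
    unfold mo
    rw [mul_div_assoc]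
  have hmoI : ∀ z, moI s a z = ((starRingEnd ℂ) s * z + ((-a : ℝ) : ℂ)) /
      (1 + ((-a : ℝ) : ℂ) * ((starRingEnd ℂ) s * z)) := fun z => by
    unfold moI
    push_cast
    congr 1
    ring
  have hcn : ∀ z, ‖(starRingEnd ℂ) s * z‖ = ‖z‖ := fun z => by rw [norm_mul, hcs, one_mul]
  have haa : (1 - (a : ℂ) ^ 2) ≠ 0 := by
    have : (1 - a ^ 2 : ℝ) ≠ 0 := by nlinarith
    exact_mod_cast this
  have hd1 : ∀ z : ℂ, ‖z‖ ≤ 1 → 1 + (a : ℂ) * z ≠ 0 := fun z hz => j14833_ne hb hz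
  have hd2 : ∀ z : ℂ, ‖z‖ ≤ 1 → 1 - (a : ℂ) * ((starRingEnd ℂ) s * z) ≠ 0 := fun z hz => by
    have := j14833_ne hb' (z := (starRingEnd ℂ) s * z) (by rwa [hcn])
    push_cast at this
    intro h
    apply this
    linear_combination h
  refine ⟨⟨⟨?_, ?_⟩, ?_, ?_⟩, ⟨⟨?_, ?_⟩, ?_, ?_⟩, ?_, ?_⟩
  · unfold mo
    refine ContinuousOn.div (by fun_prop) (by fun_prop) fun z hz => ?_
    exact hd1 z (mem_closedBall_zero_iff.1 hz)
  · unfold mo
    refine DifferentiableOn.div (by fun_prop) (by fun_prop) fun z hz => ?_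
    exact hd1 z (mem_ball_zero_iff.1 hz).le
  · intro z hz
    rw [mem_closedBall_zero_iff] at hz ⊢
    rw [hmo, norm_mul, hs, one_mul]
    exact j14833_le hb hz
  · intro z hz
    rw [mem_ball_zero_iff] at hz ⊢
    rw [hmo, norm_mul, hs, one_mul]
    exact j14833_lt hb hz
  · unfold moI
    refine ContinuousOn.div (by fun_prop) (by fun_prop) fun z hz => ?_
    exact hd2 z (mem_closedBall_zero_iff.1 hz)
  · unfold moI
    refine DifferentiableOn.div (by fun_prop) (by fun_prop) fun z hz => ?_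
    exact hd2 z (mem_ball_zero_iff.1 hz).le
  · intro z hz
    rw [mem_closedBall_zero_iff] at hz ⊢
    rw [hmoI]
    exact j14833_le hb' (by rwa [hcn])
  · intro z hz
    rw [mem_ball_zero_iff] at hz ⊢
    rw [hmoI]
    exact j14833_lt hb' (by rwa [hcn])
  · intro z hz
    have hz' := hd1 z (mem_closedBall_zero_iff.1 hz)
    unfold moI
    have e1 : (starRingEnd ℂ) s * mo s a z = (z + a) / (1 + (a : ℂ) * z) := by
      rw [hmo, ← mul_assoc, hss, one_mul]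
    rw [e1]
    have e2 : (z + a) / (1 + (a : ℂ) * z) - a = z * (1 - (a : ℂ) ^ 2) / (1 + (a : ℂ) * z) := by
      rw [eq_div_iff hz', sub_mul, div_mul_cancel₀ _ hz']
      ring
    have e3 : 1 - (a : ℂ) * ((z + a) / (1 + (a : ℂ) * z)) = (1 - (a : ℂ) ^ 2) / (1 + (a : ℂ) * z) := by
      rw [eq_div_iff hz', sub_mul, mul_assoc, div_mul_cancel₀ _ hz']
      ring
    rw [e2, e3, div_div_div_cancel_right₀ hz', mul_div_cancel_right₀ _ haa]
  · intro z hz
    have hz' := hd2 z (mem_closedBall_zero_iff.1 hz)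
    unfold mo moI
    set v := (starRingEnd ℂ) s * z with hv
    have e2 : (v - a) / (1 - (a : ℂ) * v) + a = v * (1 - (a : ℂ) ^ 2) / (1 - (a : ℂ) * v) := by
      rw [eq_div_iff hz', add_mul, div_mul_cancel₀ _ hz']
      ring
    have e3 : 1 + (a : ℂ) * ((v - a) / (1 - (a : ℂ) * v)) = (1 - (a : ℂ) ^ 2) / (1 - (a : ℂ) * v) := by
      rw [eq_div_iff hz', add_mul, mul_assoc, div_mul_cancel₀ _ hz']
      ring
    rw [mul_div_assoc, e2, e3, div_div_div_cancel_right₀ hz', mul_div_cancel_right₀ _ haa, hv,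
      ← mul_assoc, mul_comm s, hss, one_mul]

end Pool.Agent.Helper621.DAP
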