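import Pool.Agent.Helper621.HIP.Defs
import Pool.Agent.Helper621.HIP.P_mo_facts

set_option autoImplicit false

open Complex Metric Set Filter Topology Classical ZeroAtInfty

namespace Pool.Agent.Helper621.DAP


theorem kb_norm_ei (t : ℝ) : ‖ei t‖ = 1 := by
  unfold ei
  exact norm_exp_ofReal_mul_I t

theorem kb_sq (a : ℝ) (z : ℂ) :
    ‖1 + (a:ℂ) * z‖ ^ 2 - ‖z + a‖ ^ 2 = (1 - a ^ 2) * (1 - ‖z‖ ^ 2) := by
  rw [← Complex.normSq_eq_norm_sq, ← Complex.normSq_eq_norm_sq, ← Complex.normSq_eq_norm_sq]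
  simp only [Complex.normSq_apply, Complex.add_re, Complex.add_im, Complex.mul_re, Complex.mul_im,
    Complex.one_re, Complex.one_im, Complex.ofReal_re, Complex.ofReal_im]
  ring

theorem kb_chord (t t0 : ℝ) (h : |t - t0| ≤ Real.pi) :
    2 / Real.pi * |t - t0| ≤ ‖ei t - ei t0‖ := by
  have e1 : ei t - ei t0 = ei t0 * (exp (I * ((t - t0 : ℝ) : ℂ)) - 1) := by
    unfold ei
    rw [mul_sub, mul_one, ← Complex.exp_add]
    congr 2
    push_cast; ring
  rw [e1, norm_mul, kb_norm_ei, one_mul, Complex.norm_exp_I_mul_ofReal_sub_one]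
  rw [norm_mul, Real.norm_eq_abs, Real.norm_eq_abs, abs_of_pos (by norm_num : (0:ℝ) < 2)]
  have h2 : |Real.sin ((t - t0) / 2)| = Real.sin (|t - t0| / 2) := by
    rcases abs_cases (t - t0) with ⟨h1, h3⟩ | ⟨h1, h3⟩
    · rw [h1]
      rw [h1] at h
      exact abs_of_nonneg (Real.sin_nonneg_of_nonneg_of_le_pi (by linarith)
        (by linarith [Real.pi_pos]))
    · rw [h1]
      rw [h1] at h
      have e2 : -(t - t0) / 2 = -((t - t0) / 2) := by ring
      rw [e2, Real.sin_neg]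
      apply abs_of_nonpos
      exact Real.sin_nonpos_of_nonpos_of_neg_pi_le (by linarith) (by linarith [Real.pi_pos])
  rw [h2]
  have h4 := Real.mul_le_sin (x := |t - t0| / 2) (by positivity) (by linarith)
  linarith

theorem kernel_bd {z : ℂ} (hz : z ∈ ball (0:ℂ) 1) : ∃ C : ℝ, 0 < C ∧ ∀ t0 a t : ℝ,
    1 / 2 < a → a < 1 → |t - t0| ≤ Real.pi →
      PK (mo (ei t0) a z) t ≤ C / (1 - a) ∧
      PK (mo (ei t0) a z) t * (t - t0) ^ 2 ≤ C * (1 - a) := by
  have hq : ‖z‖ < 1 := by simpa [mem_ball_zero_iff] using hz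
  have hq0 : 0 ≤ ‖z‖ := norm_nonneg z
  obtain ⟨u, hu⟩ : ∃ u : ℝ, u = 1 - ‖z‖ := ⟨_, rfl⟩
  have hu0 : 0 < u := by linarith
  have hu1 : u ≤ 1 := by linarith
  have hpi := Real.pi_pos
  have hpi3 := Real.pi_gt_three
  refine ⟨8 / u + 2 * Real.pi / u + 32 * Real.pi ^ 2 / u ^ 3, by positivity, ?_⟩
  intro t0 a t ha ha1 ht
  obtain ⟨d, hd⟩ : ∃ d : ℝ, d = 1 - a := ⟨_, rfl⟩
  have hd0 : 0 < d := by linarith
  obtain ⟨w, hw⟩ : ∃ w : ℂ, w = mo (ei t0) a z := ⟨_, rfl⟩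
  rw [← hw, ← hd]
  -- the denominator
  have hDl : u ≤ ‖1 + (a:ℂ) * z‖ := by
    have h1 : ‖(1:ℂ)‖ - ‖(a:ℂ) * z‖ ≤ ‖1 + (a:ℂ) * z‖ := by
      have := norm_sub_norm_le (1:ℂ) (-((a:ℂ) * z))
      rwa [norm_neg, sub_neg_eq_add] at this
    rw [norm_one, norm_mul, Complex.norm_real, Real.norm_eq_abs, abs_of_pos (by linarith)] at h1
    nlinarith
  have hDu : ‖1 + (a:ℂ) * z‖ ≤ 2 := by
    have h1 := norm_add_le (1:ℂ) ((a:ℂ) * z)
    rw [norm_one, norm_mul, Complex.norm_real, Real.norm_eq_abs, abs_of_pos (by linarith)] at h1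
    nlinarith
  have hD0 : 0 < ‖1 + (a:ℂ) * z‖ := by linarith
  have hDne : 1 + (a:ℂ) * z ≠ 0 := norm_pos_iff.mp hD0
  have hwn : ‖w‖ = ‖z + a‖ / ‖1 + (a:ℂ) * z‖ := by
    rw [hw]; unfold mo
    rw [norm_div, norm_mul, kb_norm_ei, one_mul]
  obtain ⟨P, hP⟩ : ∃ P : ℝ, P = 1 - ‖w‖ ^ 2 := ⟨_, rfl⟩
  have hPe : P = (1 - a ^ 2) * (1 - ‖z‖ ^ 2) / ‖1 + (a:ℂ) * z‖ ^ 2 := by
    rw [hP, hwn, ← kb_sq, div_pow, sub_div, div_self (by positivity)]
  have hDsq : u ^ 2 ≤ ‖1 + (a:ℂ) * z‖ ^ 2 := by gcongr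
  have hDsq2 : ‖1 + (a:ℂ) * z‖ ^ 2 ≤ 4 := by nlinarith
  have hnum : (1 - a ^ 2) * (1 - ‖z‖ ^ 2) = (d * u) * ((1 + a) * (1 + ‖z‖)) := by
    rw [hd, hu]; ring
  have hdu : 0 < d * u := by positivity
  have hPl : d * u / 4 ≤ P := by
    rw [hPe, div_le_div_iff₀ (by norm_num) (by positivity), hnum]
    have h1 : 1 ≤ (1 + a) * (1 + ‖z‖) := by nlinarith
    calc d * u * ‖1 + (a:ℂ) * z‖ ^ 2 ≤ d * u * 4 := by gcongr
      _ ≤ d * u * ((1 + a) * (1 + ‖z‖)) * 4 := by nlinarith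
  have hPu : P ≤ 4 * d / u := by
    rw [hPe, div_le_div_iff₀ (by positivity) hu0, hnum]
    have h1 : (1 + a) * (1 + ‖z‖) ≤ 4 := by nlinarith
    calc d * u * ((1 + a) * (1 + ‖z‖)) * u ≤ d * u * 4 * u := by gcongr
      _ = 4 * d * u ^ 2 := by ring
      _ ≤ 4 * d * ‖1 + (a:ℂ) * z‖ ^ 2 := by gcongr
  have hP0 : 0 < P := by
    have : 0 < d * u / 4 := by positivity
    linarith
  have hw1 : ‖w‖ < 1 := by
    by_contra hcon
    push Not at hcon
    nlinarith [norm_nonneg w]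
  have hB : P / 2 ≤ ‖ei t - w‖ := by
    have h1 := norm_sub_norm_le (ei t) w
    rw [kb_norm_ei] at h1
    have h2 : P ≤ 2 * (1 - ‖w‖) := by
      rw [hP]; nlinarith [norm_nonneg w]
    linarith
  have hPK : PK w t = P / ‖ei t - w‖ ^ 2 / (2 * Real.pi) := by
    unfold PK; rw [hP]
  have hF : PK w t ≤ 8 / (u * d) := by
    rw [hPK]
    have h1 : (P / 2) ^ 2 ≤ ‖ei t - w‖ ^ 2 := by gcongr
    calc P / ‖ei t - w‖ ^ 2 / (2 * Real.pi) ≤ P / (P / 2) ^ 2 / (2 * Real.pi) := by gcongr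
      _ = 2 / (P * Real.pi) := by field_simp
      _ ≤ 2 / (P * 1) := by gcongr; linarith
      _ ≤ 2 / (d * u / 4 * 1) := by gcongr
      _ = 8 / (u * d) := by rw [mul_one, div_div_eq_mul_div]; congr 1 <;> ring
  have hPKn : 0 ≤ PK w t := by
    rw [hPK]; positivity
  have hsw : ‖ei t0 - w‖ ≤ 2 * d / u := by
    have h1 : ei t0 - w = ei t0 * (((1 - a : ℝ) : ℂ) * (1 - z)) / (1 + (a:ℂ) * z) := by
      rw [hw]; unfold mo
      rw [eq_div_iff hDne, sub_mul, div_mul_cancel₀ _ hDne]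
      push_cast
      ring
    rw [h1, norm_div, norm_mul, norm_mul, kb_norm_ei, one_mul, Complex.norm_real,
      Real.norm_eq_abs, ← hd, abs_of_pos hd0, div_le_div_iff₀ hD0 hu0]
    have h2 : ‖1 - z‖ ≤ 2 := by
      have := norm_sub_le (1:ℂ) z
      rw [norm_one] at this
      linarith
    calc d * ‖1 - z‖ * u ≤ d * 2 * ‖1 + (a:ℂ) * z‖ := by gcongr
      _ = 2 * d * ‖1 + (a:ℂ) * z‖ := by ring
  constructor
  · calc PK w t ≤ 8 / (u * d) := hF
      _ = 8 / u / d := by rw [div_div]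
      _ ≤ (8 / u + 2 * Real.pi / u + 32 * Real.pi ^ 2 / u ^ 3) / d := by
        gcongr
        have h1 : 0 < 2 * Real.pi / u := by positivity
        have h2 : 0 < 32 * Real.pi ^ 2 / u ^ 3 := by positivity
        linarith
  · have hsqa : (t - t0) ^ 2 = |t - t0| ^ 2 := (sq_abs _).symm
    rcases le_or_gt (2 * Real.pi / u * d) |t - t0| with hc | hc
    · have hT0 : 0 < |t - t0| := lt_of_lt_of_le (by positivity) hc
      have h1 : 2 * d / u ≤ |t - t0| / Real.pi := by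
        rw [le_div_iff₀ hpi]
        calc 2 * d / u * Real.pi = 2 * Real.pi / u * d := by ring
          _ ≤ _ := hc
      have h2 := kb_chord t t0 ht
      have h3 : ‖ei t - ei t0‖ ≤ ‖ei t - w‖ + ‖ei t0 - w‖ := by
        have := norm_sub_le_norm_sub_add_norm_sub (ei t) w (ei t0)
        rwa [norm_sub_rev w (ei t0)] at this
      have h4 : |t - t0| / Real.pi ≤ ‖ei t - w‖ := by
        have e : 2 / Real.pi * |t - t0| = |t - t0| / Real.pi + |t - t0| / Real.pi := by ring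
        linarith
      have h5 : (|t - t0| / Real.pi) ^ 2 ≤ ‖ei t - w‖ ^ 2 := by gcongr
      calc PK w t * (t - t0) ^ 2 = P / ‖ei t - w‖ ^ 2 / (2 * Real.pi) * |t - t0| ^ 2 := by
            rw [hPK, hsqa]
        _ ≤ P / (|t - t0| / Real.pi) ^ 2 / (2 * Real.pi) * |t - t0| ^ 2 := by gcongr
        _ = P * Real.pi / 2 := by field_simp
        _ ≤ 4 * d / u * Real.pi / 2 := by gcongr
        _ = 2 * Real.pi / u * d := by ring
        _ ≤ (8 / u + 2 * Real.pi / u + 32 * Real.pi ^ 2 / u ^ 3) * d := by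
          gcongr
          have h1 : 0 < 8 / u := by positivity
          have h2 : 0 < 32 * Real.pi ^ 2 / u ^ 3 := by positivity
          linarith
    · calc PK w t * (t - t0) ^ 2 = PK w t * |t - t0| ^ 2 := by rw [hsqa]
        _ ≤ 8 / (u * d) * (2 * Real.pi / u * d) ^ 2 := by gcongr
        _ = 32 * Real.pi ^ 2 / u ^ 3 * d := by field_simp; ring
        _ ≤ (8 / u + 2 * Real.pi / u + 32 * Real.pi ^ 2 / u ^ 3) * d := by
          gcongr
          have h1 : 0 < 8 / u := by positivity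
          have h2 : 0 < 2 * Real.pi / u := by positivity
          linarith

end Pool.Agent.Helper621.DAP
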