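import Pool.Agent.Helper621.HIP.Defs
import Pool.Agent.Helper621.HIP.P_kernel_bd
import Pool.Agent.Helper621.HIP.P_PK_facts
import Pool.Agent.Helper621.HIP.P_mo_facts

set_option autoImplicit false

open Complex Metric Set Filter Topology Classical ZeroAtInfty

namespace Pool.Agent.Helper621.DAP


theorem PC_ii {v : ℝ → ℝ} (hv : MeasureTheory.AEStronglyMeasurable v MeasureTheory.volume)
    (h0 : ∀ t, 0 ≤ v t) {M : ℝ} (hM : ∀ t, v t ≤ M) (x y : ℝ) :
    IntervalIntegrable v MeasureTheory.volume x y := by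
  rw [intervalIntegrable_iff]
  apply MeasureTheory.Measure.integrableOn_of_bounded (M := M)
  · rw [Set.uIoc, Real.volume_Ioc]
    exact ENNReal.ofReal_ne_top
  · exact hv
  · filter_upwards with t
    rw [Real.norm_eq_abs, abs_of_nonneg (h0 t)]
    exact hM t

theorem PC_inv (t0 c x y : ℝ) (h : ∀ t ∈ Set.uIcc x y, t ≠ t0) :
    IntervalIntegrable (fun t => c / (t - t0) ^ 2) MeasureTheory.volume x y ∧
    ∫ t in x..y, c / (t - t0) ^ 2 = c * ((x - t0)⁻¹ - (y - t0)⁻¹) := by
  have hcont : ContinuousOn (fun t => c / (t - t0) ^ 2) (Set.uIcc x y) := by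
    apply ContinuousOn.div continuousOn_const (by fun_prop)
    intro t ht
    have := sub_ne_zero.2 (h t ht)
    positivity
  have hi : IntervalIntegrable (fun t => c / (t - t0) ^ 2) MeasureTheory.volume x y :=
    hcont.intervalIntegrable
  refine ⟨hi, ?_⟩
  have hd : ∀ t ∈ Set.uIcc x y, HasDerivAt (fun t => -(c * (t - t0)⁻¹)) (c / (t - t0) ^ 2) t := by
    intro t ht
    have hne := sub_ne_zero.2 (h t ht)
    have h1 : HasDerivAt (fun t : ℝ => t - t0) 1 t := (hasDerivAt_id t).sub_const t0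
    have h2 : HasDerivAt (fun t : ℝ => -(c * (t - t0)⁻¹)) (-(c * (-1 / (t - t0) ^ 2))) t :=
      ((h1.inv hne).const_mul c).neg
    have h3 : -(c * (-1 / (t - t0) ^ 2)) = c / (t - t0) ^ 2 := by ring
    rw [← h3]
    exact h2
  rw [intervalIntegral.integral_eq_sub_of_hasDerivAt hd hi]
  ring

theorem PC_est {K v : ℝ → ℝ} (hK : Continuous K)
    (hv : MeasureTheory.AEStronglyMeasurable v MeasureTheory.volume)
    (h0 : ∀ t, 0 ≤ v t) {M : ℝ} (hM : ∀ t, v t ≤ M) {t0 C a L : ℝ} (hC : 0 < C) (ha : a < 1)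
    (hL : 0 < L) (hLa : L * (1 - a) < Real.pi)
    (hb : ∀ t, |t - t0| ≤ Real.pi → K t ≤ C / (1 - a) ∧ K t * (t - t0) ^ 2 ≤ C * (1 - a)) :
    (∫ t in (t0 - Real.pi)..(t0 + Real.pi), K t * v t) ≤
      2 * (C * M / L) + C * L * ((∫ t in (t0 - L * (1 - a))..(t0 + L * (1 - a)), v t) /
        (L * (1 - a))) := by
  have hM0 : 0 ≤ M := (h0 0).trans (hM 0)
  have ha' : 0 < 1 - a := by linarith
  set δ := L * (1 - a) with hδ
  have hδ0 : 0 < δ := by positivity
  have hvi : ∀ x y, IntervalIntegrable v MeasureTheory.volume x y := PC_ii hv h0 hM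
  have hi : ∀ x y, IntervalIntegrable (fun t => K t * v t) MeasureTheory.volume x y := by
    intro x y
    exact (hvi x y).continuousOn_mul hK.continuousOn
  rw [← intervalIntegral.integral_add_adjacent_intervals (hi _ (t0 - δ)) (hi (t0 - δ) _),
    ← intervalIntegral.integral_add_adjacent_intervals (hi (t0 - δ) (t0 + δ)) (hi (t0 + δ) _)]
  have hptw : ∀ t, t ≠ t0 → |t - t0| ≤ Real.pi → K t * v t ≤ C * (1 - a) * M / (t - t0) ^ 2 := by
    intro t ht hpi
    have hne := sub_ne_zero.2 ht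
    have hpos : 0 < (t - t0) ^ 2 := by positivity
    rw [le_div_iff₀ hpos]
    have h1 := (hb t hpi).2
    calc K t * v t * (t - t0) ^ 2 = (K t * (t - t0) ^ 2) * v t := by ring
      _ ≤ (C * (1 - a)) * v t := mul_le_mul_of_nonneg_right h1 (h0 t)
      _ ≤ C * (1 - a) * M := mul_le_mul_of_nonneg_left (hM t) (by positivity)
  have hA : (∫ t in (t0 - Real.pi)..(t0 - δ), K t * v t) ≤ C * M / L := by
    have hne : ∀ t ∈ Set.uIcc (t0 - Real.pi) (t0 - δ), t ≠ t0 := by
      intro t ht
      rw [Set.uIcc_of_le (by linarith)] at ht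
      have := ht.2
      intro h
      linarith
    obtain ⟨h1, h2⟩ := PC_inv t0 (C * (1 - a) * M) _ _ hne
    have h3 : (∫ t in (t0 - Real.pi)..(t0 - δ), K t * v t) ≤
        ∫ t in (t0 - Real.pi)..(t0 - δ), C * (1 - a) * M / (t - t0) ^ 2 := by
      apply intervalIntegral.integral_mono_on (by linarith) (hi _ _) h1
      intro t ht
      apply hptw t
      · intro h
        have := ht.2
        linarith
      · rw [abs_le]
        constructor
        · linarith [ht.1]
        · linarith [ht.2, Real.pi_pos]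
    refine h3.trans ?_
    rw [h2]
    have e1 : (t0 - Real.pi - t0)⁻¹ - (t0 - δ - t0)⁻¹ = δ⁻¹ - Real.pi⁻¹ := by
      have e2 : t0 - Real.pi - t0 = -Real.pi := by ring
      have e3 : t0 - δ - t0 = -δ := by ring
      rw [e2, e3, inv_neg, inv_neg]
      ring
    rw [e1]
    have e4 : C * (1 - a) * M * (δ⁻¹ - Real.pi⁻¹) ≤ C * (1 - a) * M * δ⁻¹ := by
      apply mul_le_mul_of_nonneg_left _ (by positivity)
      have : 0 ≤ Real.pi⁻¹ := by positivity
      linarith
    refine e4.trans (le_of_eq ?_)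
    rw [hδ]
    field_simp
  have hB : (∫ t in (t0 + δ)..(t0 + Real.pi), K t * v t) ≤ C * M / L := by
    have hne : ∀ t ∈ Set.uIcc (t0 + δ) (t0 + Real.pi), t ≠ t0 := by
      intro t ht
      rw [Set.uIcc_of_le (by linarith)] at ht
      have := ht.1
      intro h
      linarith
    obtain ⟨h1, h2⟩ := PC_inv t0 (C * (1 - a) * M) _ _ hne
    have h3 : (∫ t in (t0 + δ)..(t0 + Real.pi), K t * v t) ≤
        ∫ t in (t0 + δ)..(t0 + Real.pi), C * (1 - a) * M / (t - t0) ^ 2 := by
      apply intervalIntegral.integral_mono_on (by linarith) (hi _ _) h1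
      intro t ht
      apply hptw t
      · intro h
        have := ht.1
        linarith
      · rw [abs_le]
        constructor
        · linarith [ht.1, Real.pi_pos]
        · linarith [ht.2]
    refine h3.trans ?_
    rw [h2]
    have e1 : (t0 + δ - t0)⁻¹ - (t0 + Real.pi - t0)⁻¹ = δ⁻¹ - Real.pi⁻¹ := by
      have e2 : t0 + Real.pi - t0 = Real.pi := by ring
      have e3 : t0 + δ - t0 = δ := by ring
      rw [e2, e3]
    rw [e1]
    have e4 : C * (1 - a) * M * (δ⁻¹ - Real.pi⁻¹) ≤ C * (1 - a) * M * δ⁻¹ := by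
      apply mul_le_mul_of_nonneg_left _ (by positivity)
      have : 0 ≤ Real.pi⁻¹ := by positivity
      linarith
    refine e4.trans (le_of_eq ?_)
    rw [hδ]
    field_simp
  have hmid : (∫ t in (t0 - δ)..(t0 + δ), K t * v t) ≤
      C * L * ((∫ t in (t0 - δ)..(t0 + δ), v t) / δ) := by
    have h3 : (∫ t in (t0 - δ)..(t0 + δ), K t * v t) ≤
        ∫ t in (t0 - δ)..(t0 + δ), C / (1 - a) * v t := by
      apply intervalIntegral.integral_mono_on (by linarith) (hi _ _) ((hvi _ _).const_mul _)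
      intro t ht
      apply mul_le_mul_of_nonneg_right _ (h0 t)
      apply (hb t _).1
      rw [abs_le]
      constructor
      · linarith [ht.1]
      · linarith [ht.2]
    refine h3.trans (le_of_eq ?_)
    rw [intervalIntegral.integral_const_mul, hδ]
    field_simp
  linarith

/-- concentration of the Poisson kernels -/
theorem PC (v : ℝ → ℝ) (hv : MeasureTheory.AEStronglyMeasurable v MeasureTheory.volume)
    (h0 : ∀ t, 0 ≤ v t) {M : ℝ} (hM : ∀ t, v t ≤ M) {t0 : ℝ} (hLP : LP v t0) {z : ℂ}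
    (hz : z ∈ ball (0:ℂ) 1) :
    Tendsto (fun a : ℝ => ∫ t in (t0 - Real.pi)..(t0 + Real.pi), PK (mo (ei t0) a z) t * v t)
      (𝓝[<] 1) (𝓝 0) := by
  obtain ⟨C, hC, hb⟩ := kernel_bd hz
  have hM0 : 0 ≤ M := (h0 0).trans (hM 0)
  have hei : ‖ei t0‖ = 1 := by
    unfold ei
    exact Complex.norm_exp_ofReal_mul_I t0
  rw [Metric.tendsto_nhds]
  intro ε hε
  set L : ℝ := 8 * (C * M) / ε + 1 with hL
  have hL0 : 0 < L := by positivity
  have hlim : Tendsto (fun a : ℝ => L * (1 - a)) (𝓝[<] 1) (𝓝[>] 0) := by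
    rw [tendsto_nhdsWithin_iff]
    constructor
    · have h1 : Continuous (fun a : ℝ => L * (1 - a)) := by fun_prop
      have h2 := (h1.tendsto 1).mono_left (nhdsWithin_le_nhds (s := Set.Iio (1:ℝ)))
      simpa using h2
    · filter_upwards [self_mem_nhdsWithin] with a ha
      have : 0 < 1 - a := by
        have : a < 1 := ha
        linarith
      exact mul_pos hL0 this
  have hLP2 : Tendsto (fun a : ℝ => C * L * ((∫ t in (t0 - L * (1 - a))..(t0 + L * (1 - a)), v t) /
      (L * (1 - a)))) (𝓝[<] 1) (𝓝 (C * L * 0)) := (hLP.comp hlim).const_mul (C * L)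
  rw [mul_zero] at hLP2
  have hev1 := (Metric.tendsto_nhds.1 hLP2) (ε / 2) (by positivity)
  have hev2 : ∀ᶠ a : ℝ in 𝓝[<] 1, L * (1 - a) < Real.pi := by
    have h1 : Tendsto (fun a : ℝ => L * (1 - a)) (𝓝[<] 1) (𝓝 0) :=
      hlim.mono_right nhdsWithin_le_nhds
    exact h1.eventually_lt_const Real.pi_pos
  have hev3 : ∀ᶠ a : ℝ in 𝓝[<] 1, 1 / 2 < a := by
    have h1 : Tendsto (fun a : ℝ => a) (𝓝[<] 1) (𝓝 1) :=
      (continuous_id.tendsto (1 : ℝ)).mono_left nhdsWithin_le_nhds
    exact h1.eventually_const_lt (by norm_num)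
  filter_upwards [hev1, hev2, hev3, self_mem_nhdsWithin] with a h1 h2 h3 h4
  have h4' : a < 1 := h4
  have hin : mo (ei t0) a z ∈ ball (0:ℂ) 1 :=
    (mo_facts hei (by linarith : (0:ℝ) < a) h4').1.mapsB z hz
  obtain ⟨hK0, hK, -⟩ := PK_facts hin
  have hest := PC_est (K := PK (mo (ei t0) a z)) hK hv h0 hM (t0 := t0) hC h4' hL0 h2
    (fun t ht => hb t0 a t h3 h4' ht)
  have hpos : 0 ≤ ∫ t in (t0 - Real.pi)..(t0 + Real.pi), PK (mo (ei t0) a z) t * v t := by
    apply intervalIntegral.integral_nonneg (by linarith [Real.pi_pos])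
    intro t _
    exact mul_nonneg (hK0 t) (h0 t)
  rw [Real.dist_eq, sub_zero] at h1
  have h5 := (abs_lt.1 h1).2
  have h6 : 2 * (C * M / L) < ε / 2 := by
    have hCM : 0 ≤ C * M := by positivity
    have h7 : 4 * (C * M) < ε * L := by
      have : ε * L = 8 * (C * M) + ε := by
        rw [hL]
        field_simp
      rw [this]
      linarith
    have h8 : C * M / L < ε / 4 := by
      rw [div_lt_iff₀ hL0]
      linarith
    linarith
  rw [Real.dist_eq, sub_zero, abs_of_nonneg hpos]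
  linarith

end Pool.Agent.Helper621.DAP
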