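import Mathlib

set_option autoImplicit false

open Complex Metric Set Filter Topology Classical ZeroAtInfty

namespace Pool.Agent.Helper621.DAP


theorem repeatJ {E : Type} [NormedAddCommGroup E] [NormedSpace ℂ E] :
    ∃ J : BoundedContinuousFunction ℕ E →L[ℂ] BoundedContinuousFunction ℕ E,
      (∀ x i, J x i = x (Nat.unpair i).1) ∧ ∀ x, ‖J x‖ ≤ ‖x‖ := by
  have hb : ∀ x : BoundedContinuousFunction ℕ E,
      ‖x.compContinuous (⟨fun n : ℕ => (Nat.unpair n).1, continuous_of_discreteTopology⟩ :
        C(ℕ, ℕ))‖ ≤ 1 * ‖x‖ := by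
    intro x
    rw [one_mul]
    refine (BoundedContinuousFunction.norm_le (norm_nonneg x)).2 fun n => ?_
    exact x.norm_coe_le_norm _
  let J₀ : BoundedContinuousFunction ℕ E →ₗ[ℂ] BoundedContinuousFunction ℕ E :=
    { toFun := fun x => x.compContinuous
        (⟨fun n : ℕ => (Nat.unpair n).1, continuous_of_discreteTopology⟩ : C(ℕ, ℕ))
      map_add' := fun x y => by ext n; rfl
      map_smul' := fun c x => by ext n; rfl }
  refine ⟨J₀.mkContinuous 1 hb, fun x i => rfl, fun x => ?_⟩
  have h := hb x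
  rw [one_mul] at h
  exact h

end Pool.Agent.Helper621.DAP
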