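import Mathlib

set_option autoImplicit false

open Complex Metric Set Filter Topology Classical ZeroAtInfty

namespace Pool.Agent.Helper621.DAP
theorem ros_single {E : Type} [NormedAddCommGroup E] [NormedSpace ℂ E]
    (ψ : BoundedContinuousFunction ℕ E →L[ℂ] ℂ) {M : Set ℕ} (hM : M.Infinite)
    {δ : ℝ} (hδ : 0 < δ) :
    ∃ M' ⊆ M, M'.Infinite ∧ ∀ y : BoundedContinuousFunction ℕ E,
      (∀ n, n ∉ M' → y n = 0) → ‖ψ y‖ ≤ δ * ‖y‖ := by
  by_contra hcon
  push Not at hcon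
  set f : ℕ ↪ M := hM.natEmbedding with hf
  set Q : ℕ → Set ℕ := fun j => Set.range (fun k : ℕ => ((f (Nat.pair j k) : M) : ℕ)) with hQ
  have hQM : ∀ j, Q j ⊆ M := by
    rintro j _ ⟨k, rfl⟩
    exact (f (Nat.pair j k)).2
  have hQinf : ∀ j, (Q j).Infinite := by
    intro j
    apply Set.infinite_range_of_injective
    intro k l hkl
    have h1 : f (Nat.pair j k) = f (Nat.pair j l) := Subtype.ext hkl
    have h2 := f.injective h1
    rw [Nat.pair_eq_pair] at h2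
    exact h2.2
  have hQdis : ∀ i j n, n ∈ Q i → n ∈ Q j → i = j := by
    rintro i j n ⟨k, hk⟩ ⟨l, hl⟩
    have h1 : f (Nat.pair i k) = f (Nat.pair j l) := Subtype.ext (hk.trans hl.symm)
    have h2 := f.injective h1
    rw [Nat.pair_eq_pair] at h2
    exact h2.1
  have hch : ∀ j, ∃ z : BoundedContinuousFunction ℕ E,
      (∀ n, n ∉ Q j → z n = 0) ∧ ‖z‖ ≤ 1 ∧ ∃ t : ℝ, δ ≤ t ∧ ψ z = (t : ℂ) := by
    intro j
    obtain ⟨y, hy1, hy2⟩ := hcon (Q j) (hQM j) (hQinf j)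
    have hy0 : 0 < ‖y‖ := by
      rcases (norm_nonneg y).lt_or_eq with h | h
      · exact h
      · have : y = 0 := norm_eq_zero.mp h.symm
        rw [this] at hy2
        simp at hy2
    have hpy : 0 < ‖ψ y‖ := lt_of_le_of_lt (by positivity) hy2
    refine ⟨((starRingEnd ℂ) (ψ y) / ((‖ψ y‖ * ‖y‖ : ℝ) : ℂ)) • y, ?_, ?_, ‖ψ y‖ / ‖y‖, ?_, ?_⟩
    · intro n hn
      simp [hy1 n hn]
    · rw [norm_smul, norm_div, RCLike.norm_conj, Complex.norm_real, Real.norm_eq_abs,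
        abs_of_pos (by positivity)]
      apply le_of_eq
      field_simp
    · rw [le_div_iff₀ hy0]
      exact hy2.le
    · rw [map_smul, smul_eq_mul, div_mul_eq_mul_div, ← Complex.normSq_eq_conj_mul_self,
        Complex.normSq_eq_norm_sq]
      rw [← Complex.ofReal_div]
      congr 1
      field_simp
  choose z hz1 hz2 t ht1 ht2 using hch
  obtain ⟨L, hL⟩ := exists_nat_gt (‖ψ‖ / δ)
  have hL' : ‖ψ‖ < L * δ := by rwa [div_lt_iff₀ hδ] at hL
  have hnorm : ‖∑ j ∈ Finset.range L, z j‖ ≤ 1 := by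
    rw [BoundedContinuousFunction.norm_le zero_le_one]
    intro n
    rw [BoundedContinuousFunction.coe_sum, Finset.sum_apply]
    by_cases h : ∃ j ∈ Finset.range L, n ∈ Q j
    · obtain ⟨j, hj, hnj⟩ := h
      rw [Finset.sum_eq_single_of_mem j hj]
      · exact ((z j).norm_coe_le_norm n).trans (hz2 j)
      · intro i _ hij
        apply hz1
        intro hni
        exact hij (hQdis i j n hni hnj)
    · push Not at h
      rw [Finset.sum_eq_zero]
      · simp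
      · intro j hj
        exact hz1 j n (h j hj)
  have h1 : ‖ψ (∑ j ∈ Finset.range L, z j)‖ ≤ ‖ψ‖ := by
    calc ‖ψ (∑ j ∈ Finset.range L, z j)‖ ≤ ‖ψ‖ * ‖∑ j ∈ Finset.range L, z j‖ := ψ.le_opNorm _
      _ ≤ ‖ψ‖ * 1 := by gcongr
      _ = ‖ψ‖ := mul_one _
  have h2 : ψ (∑ j ∈ Finset.range L, z j) = ((∑ j ∈ Finset.range L, t j : ℝ) : ℂ) := by
    rw [map_sum, Complex.ofReal_sum]
    exact Finset.sum_congr rfl fun j _ => ht2 j
  have h3 : (L : ℝ) * δ ≤ ∑ j ∈ Finset.range L, t j := by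
    calc (L : ℝ) * δ = ∑ _j ∈ Finset.range L, δ := by simp
      _ ≤ _ := Finset.sum_le_sum fun j _ => ht1 j
  have h4 : ∑ j ∈ Finset.range L, t j ≤ ‖ψ (∑ j ∈ Finset.range L, z j)‖ := by
    rw [h2, Complex.norm_real]
    exact le_abs_self _
  linarith

theorem ros_step {E : Type} [NormedAddCommGroup E] [NormedSpace ℂ E]
    (Ψ : Finset (BoundedContinuousFunction ℕ E →L[ℂ] ℂ)) {M : Set ℕ} (hM : M.Infinite)
    {δ : ℝ} (hδ : 0 < δ) :
    ∃ M' ⊆ M, M'.Infinite ∧ ∀ ψ ∈ Ψ, ∀ y : BoundedContinuousFunction ℕ E,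
      (∀ n, n ∉ M' → y n = 0) → ‖ψ y‖ ≤ δ * ‖y‖ := by
  induction Ψ using Finset.induction_on generalizing M with
  | empty => exact ⟨M, subset_rfl, hM, by simp⟩
  | insert ψ Ψ' _ ih =>
    obtain ⟨M1, hM1, hM1i, h1⟩ := ros_single ψ hM hδ
    obtain ⟨M2, hM2, hM2i, h2⟩ := ih hM1i
    refine ⟨M2, hM2.trans hM1, hM2i, ?_⟩
    intro φ hφ y hy
    rw [Finset.mem_insert] at hφ
    rcases hφ with rfl | hφ
    · exact h1 y fun n hn => hy n fun hn2 => hn (hM2 hn2)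
    · exact h2 φ hφ y hy

end Pool.Agent.Helper621.DAP
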