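import Mathlib
import Pool.Agent.Helper621.HIP.P_ros_step

set_option autoImplicit false

open Complex Metric Set Filter Topology Classical ZeroAtInfty

namespace Pool.Agent.Helper621.DAP


theorem ros_next {E : Type} [NormedAddCommGroup E] [NormedSpace ℂ E]
    (Ψ : ℕ → Finset (BoundedContinuousFunction ℕ E →L[ℂ] ℂ)) (i : ℕ)
    (S : {M : Set ℕ // M.Infinite}) :
    ∃ S' : {M : Set ℕ // M.Infinite}, (S'.1 ⊆ S.1 ∧ ∀ n ∈ S'.1, sInf S.1 < n) ∧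
      ∀ ψ ∈ Ψ (sInf S.1), ∀ y : BoundedContinuousFunction ℕ E,
      (∀ n, n ∉ S'.1 → y n = 0) → ‖ψ y‖ ≤ (1 / 2) ^ i * ‖y‖ := by
  have hinf : (S.1 ∩ {n | sInf S.1 < n}).Infinite := by
    have h1 : (S.1 \ {n | n ≤ sInf S.1}).Infinite := S.2.sdiff (Set.finite_le_nat _)
    refine h1.mono ?_
    rintro n ⟨hn, hn'⟩
    have h2 : ¬ n ≤ sInf S.1 := fun h => hn' h
    refine ⟨hn, ?_⟩
    show sInf S.1 < n
    exact not_le.1 h2
  obtain ⟨M', hM', hM'i, hM'b⟩ := ros_step (Ψ (sInf S.1)) hinf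
    (by positivity : (0:ℝ) < (1 / 2) ^ i)
  exact ⟨⟨M', hM'i⟩, ⟨fun n hn => (hM' hn).1, fun n hn => (hM' hn).2⟩, hM'b⟩

theorem ros {E : Type} [NormedAddCommGroup E] [NormedSpace ℂ E]
    (Ψ : ℕ → Finset (BoundedContinuousFunction ℕ E →L[ℂ] ℂ)) :
    ∃ m : ℕ → ℕ, StrictMono m ∧ ∀ i, ∀ ψ ∈ Ψ (m i), ∀ y : BoundedContinuousFunction ℕ E,
      (∀ n, (∀ l, i < l → m l ≠ n) → y n = 0) → ‖ψ y‖ ≤ (1 / 2) ^ i * ‖y‖ := by
  choose nxt hn1 hn2 using ros_next Ψ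
  let S : ℕ → {M : Set ℕ // M.Infinite} := fun i =>
    Nat.rec (⟨Set.univ, Set.infinite_univ⟩ : {M : Set ℕ // M.Infinite}) (fun i T => nxt i T) i
  have hS : ∀ i, S (i + 1) = nxt i (S i) := fun i => rfl
  have hanti : Antitone (fun i => (S i).1) := by
    refine antitone_nat_of_succ_le (fun i => ?_)
    show (S (i + 1)).1 ⊆ (S i).1
    rw [hS]
    exact (hn1 i (S i)).1
  have hmem : ∀ i, sInf (S i).1 ∈ (S i).1 := fun i => Nat.sInf_mem (S i).2.nonempty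
  refine ⟨fun i => sInf (S i).1, ?_, ?_⟩
  · refine strictMono_nat_of_lt_succ (fun i => ?_)
    have h1 := hmem (i + 1)
    rw [hS] at h1
    have h2 := (hn1 i (S i)).2 _ h1
    rw [hS]
    exact h2
  · intro i ψ hψ y hy
    refine hn2 i (S i) ψ hψ y (fun n hn => hy n (fun l hl h => hn ?_))
    rw [← hS, ← h]
    exact hanti (Nat.succ_le_of_lt hl) (hmem l)

end Pool.Agent.Helper621.DAP
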