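import Pool.Agent.Helper621.HIP.Defs

set_option autoImplicit false

open Complex Metric Set Filter Topology Classical ZeroAtInfty

namespace Pool.Agent.Helper621.DAP


theorem coefs_bound (k : ℕ) (x : HI) :
    ‖((k.factorial : ℂ)⁻¹ * iteratedDeriv k (evH x) 0)‖ ≤ ‖x‖ := by
  have hf0 : (0 : ℝ) < (k.factorial : ℝ) := by exact_mod_cast k.factorial_pos
  have hev := norm_evH_le x
  have hdx := evH_diff x
  generalize ‖x‖ = X at hev ⊢
  generalize evH x = f at hev hdx ⊢
  have h1 : ∀ r : ℝ, 0 < r → r < 1 →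
      ‖((k.factorial : ℂ)⁻¹ * iteratedDeriv k (f) 0)‖ ≤ X / r ^ k := by
    intro r hr0 hr1
    have hd : DiffContOnCl ℂ (f) (ball (0:ℂ) r) := by
      apply DifferentiableOn.diffContOnCl
      rw [closure_ball (0:ℂ) hr0.ne']
      exact (hdx).mono (closedBall_subset_ball hr1)
    have h2 := Complex.norm_iteratedDeriv_le_of_forall_mem_sphere_norm_le k hr0 hd
      (fun z _ => hev z)
    rw [norm_mul, norm_inv, Complex.norm_natCast]
    calc (k.factorial : ℝ)⁻¹ * ‖iteratedDeriv k (f) 0‖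
        ≤ (k.factorial : ℝ)⁻¹ * (k.factorial * X / r ^ k) := by gcongr
      _ = X / r ^ k := by field_simp
  have h2 : Tendsto (fun r : ℝ => X / r ^ k) (𝓝[<] 1) (𝓝 X) := by
    have h3 : Tendsto (fun r : ℝ => X / r ^ k) (𝓝 1) (𝓝 (X / (1:ℝ) ^ k)) := by
      apply Tendsto.div tendsto_const_nhds ((continuous_pow k).tendsto 1)
      simp
    rw [one_pow, div_one] at h3
    exact h3.mono_left nhdsWithin_le_nhds
  apply ge_of_tendsto h2
  have h4 : Ioo (0 : ℝ) 1 ∈ 𝓝[<] (1 : ℝ) := Ioo_mem_nhdsLT one_pos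
  filter_upwards [h4] with r hr
  exact h1 r hr.1 hr.2

theorem coefs_contDiffAt (k : ℕ) (x : HI) : ContDiffAt ℂ k (evH x) 0 := by
  have h1 : AnalyticAt ℂ (evH x) 0 :=
    (evH_diff x).analyticAt (isOpen_ball.mem_nhds (mem_ball_self one_pos))
  exact h1.contDiffAt

/-- Taylor coefficients as functionals -/
theorem coefs : ∃ c : ℕ → HI →L[ℂ] ℂ, (∀ k x, ‖c k x‖ ≤ ‖x‖) ∧
    ∀ (x : HI), ∀ z ∈ ball (0:ℂ) 1, HasSum (fun k => c k x * z ^ k) (evH x z) := by
  refine ⟨fun k => LinearMap.mkContinuous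
    { toFun := fun x => (k.factorial : ℂ)⁻¹ * iteratedDeriv k (evH x) 0
      map_add' := fun x y => ?_
      map_smul' := fun a x => ?_ } 1 (fun x => ?_), ?_, ?_⟩
  · have h1 : evH (x + y) = fun z => evH x z + evH y z := by
      ext z
      exact evH_add x y z
    rw [h1, iteratedDeriv_fun_add (coefs_contDiffAt k x) (coefs_contDiffAt k y), mul_add]
  · have h1 : evH (a • x) = fun z => a * evH x z := by
      ext z
      exact evH_smul a x z
    rw [h1, iteratedDeriv_const_mul_field, RingHom.id_apply, smul_eq_mul]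
    ring
  · rw [one_mul]
    exact coefs_bound k x
  · intro k x
    exact coefs_bound k x
  · intro x z hz
    have h1 := Complex.hasSum_taylorSeries_on_ball (evH_diff x) hz
    have h2 : (fun n : ℕ => ((n.factorial : ℂ))⁻¹ • (z - 0) ^ n • iteratedDeriv n (evH x) 0) =
        fun k : ℕ => ((k.factorial : ℂ)⁻¹ * iteratedDeriv k (evH x) 0) * z ^ k := by
      ext n
      rw [sub_zero, smul_eq_mul, smul_eq_mul]
      ring
    rw [h2] at h1
    exact h1

end Pool.Agent.Helper621.DAP
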