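import Pool.Agent.Helper621.HIP.Defs
import Pool.Agent.Helper621.HIP.P_coefs

set_option autoImplicit false

open Complex Metric Set Filter Topology Classical ZeroAtInfty

namespace Pool.Agent.Helper621.DAP


theorem ulim_conv (U : Ultrafilter ℕ) (s : ℕ → ℂ) (M : ℝ) (h : ∀ n, ‖s n‖ ≤ M) :
    ∃ a, ‖a‖ ≤ M ∧ Tendsto s (U : Filter ℕ) (𝓝 a) := by
  have hc : IsCompact (closedBall (0:ℂ) M) := isCompact_closedBall _ _
  have hm : closedBall (0:ℂ) M ∈ (U.map s) := by
    rw [Ultrafilter.mem_map]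
    have : s ⁻¹' closedBall (0:ℂ) M = Set.univ := by
      ext n
      simp [h n]
    rw [this]
    exact Filter.univ_mem
  obtain ⟨a, ha, hle⟩ := hc.ultrafilter_le_nhds' (U.map s) hm
  exact ⟨a, by simpa using ha, hle⟩

theorem ulim_diff (a : ℕ → ℂ) (M : ℝ) (h : ∀ k, ‖a k‖ ≤ M) :
    DifferentiableOn ℂ (fun z => ∑' k, a k * z ^ k) (ball (0:ℂ) 1) := by
  intro z0 hz0
  rw [mem_ball_zero_iff] at hz0
  obtain ⟨r, hr1, hr2⟩ := exists_between hz0
  have hr0 : 0 ≤ r := (norm_nonneg z0).trans hr1.le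
  have hM : 0 ≤ M := (norm_nonneg _).trans (h 0)
  have h1 : DifferentiableOn ℂ (fun z => ∑' k, a k * z ^ k) (ball (0:ℂ) r) := by
    apply Complex.differentiableOn_tsum_of_summable_norm (u := fun k => M * r ^ k)
      ((summable_geometric_of_lt_one hr0 hr2).mul_left M)
      (fun k => by fun_prop) isOpen_ball
    intro k z hz
    rw [mem_ball_zero_iff] at hz
    rw [norm_mul, norm_pow]
    exact mul_le_mul (h k) (pow_le_pow_left₀ (norm_nonneg _) hz.le k) (by positivity) hM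
  have h2 : z0 ∈ ball (0:ℂ) r := by rwa [mem_ball_zero_iff]
  exact (h1.differentiableAt (isOpen_ball.mem_nhds h2)).differentiableWithinAt

theorem ulim_ex (U : Ultrafilter ℕ) (y : BoundedContinuousFunction ℕ HI) :
    ∃ H : HI, ‖H‖ ≤ ‖y‖ ∧ ∀ z ∈ ball (0:ℂ) 1,
      Tendsto (fun n => evH (y n) z) (U : Filter ℕ) (𝓝 (evH H z)) := by
  obtain ⟨c, hc1, hc2⟩ := coefs
  have hy0 : 0 ≤ ‖y‖ := norm_nonneg y
  have h1 : ∀ k, ∃ a, ‖a‖ ≤ ‖y‖ ∧ Tendsto (fun n => c k (y n)) (U : Filter ℕ) (𝓝 a) := by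
    intro k
    apply ulim_conv
    intro n
    exact (hc1 k (y n)).trans (y.norm_coe_le_norm n)
  choose a ha1 ha2 using h1
  have h2 : ∀ z ∈ ball (0:ℂ) 1,
      Tendsto (fun n => evH (y n) z) (U : Filter ℕ) (𝓝 (∑' k, a k * z ^ k)) := by
    intro z hz
    have hz' := hz
    rw [mem_ball_zero_iff] at hz'
    have h3 : Tendsto (fun n => ∑' k, c k (y n) * z ^ k) (U : Filter ℕ)
        (𝓝 (∑' k, a k * z ^ k)) := by
      apply tendsto_tsum_of_dominated_convergence (bound := fun k => ‖y‖ * ‖z‖ ^ k)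
      · exact (summable_geometric_of_lt_one (norm_nonneg _) hz').mul_left _
      · intro k
        exact (ha2 k).mul_const _
      · refine Filter.Eventually.of_forall fun n k => ?_
        rw [norm_mul, norm_pow]
        exact mul_le_mul_of_nonneg_right ((hc1 k (y n)).trans (y.norm_coe_le_norm n))
          (by positivity)
    have h4 : (fun n => evH (y n) z) = fun n => ∑' k, c k (y n) * z ^ k := by
      funext n
      exact (hc2 (y n) z hz).tsum_eq.symm
    rw [h4]
    exact h3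
  have h5 : ∀ z ∈ ball (0:ℂ) 1, ‖∑' k, a k * z ^ k‖ ≤ ‖y‖ := by
    intro z hz
    refine le_of_tendsto (h2 z hz).norm (Filter.Eventually.of_forall fun n => ?_)
    exact (norm_evH_le _ _).trans (y.norm_coe_le_norm n)
  refine ⟨mkH (fun z => ∑' k, a k * z ^ k) (ulim_diff a ‖y‖ ha1) ‖y‖ h5, ?_, ?_⟩
  · refine normH_le_of _ (M := ‖y‖) hy0 fun z hz => ?_
    rw [evH_mkH _ _ _ _ z hz]
    exact h5 z hz
  · intro z hz
    rw [evH_mkH _ _ _ _ z hz]
    exact h2 z hz

/-- ultrafilter limits of bounded sequences in `HI` -/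
theorem ulim : ∃ L : BoundedContinuousFunction ℕ HI →L[ℂ] HI,
    ∀ (y : BoundedContinuousFunction ℕ HI) (z c : ℂ), z ∈ ball (0:ℂ) 1 →
      Tendsto (fun n => evH (y n) z) atTop (𝓝 c) → evH (L y) z = c := by
  obtain ⟨U, hU⟩ : ∃ U : Ultrafilter ℕ, (U : Filter ℕ) ≤ atTop :=
    ⟨Filter.hyperfilter ℕ, Nat.hyperfilter_le_atTop⟩
  choose L0 hL1 hL2 using ulim_ex U
  refine ⟨LinearMap.mkContinuous
    { toFun := L0
      map_add' := ?_
      map_smul' := ?_ } 1 ?_, ?_⟩
  · intro x y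
    apply evH_ext
    intro z hz
    rw [evH_add]
    refine tendsto_nhds_unique (hL2 (x + y) z hz) ?_
    have h1 := (hL2 x z hz).add (hL2 y z hz)
    refine h1.congr fun n => ?_
    rw [BoundedContinuousFunction.add_apply, evH_add]
  · intro r x
    apply evH_ext
    intro z hz
    rw [RingHom.id_apply, evH_smul]
    refine tendsto_nhds_unique (hL2 (r • x) z hz) ?_
    have h1 := (hL2 x z hz).const_mul r
    refine h1.congr fun n => ?_
    rw [BoundedContinuousFunction.smul_apply, evH_smul]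
  · intro x
    rw [one_mul]
    exact hL1 x
  · intro y z c hz hc
    exact tendsto_nhds_unique (hL2 y z hz) (hc.mono_left hU)

end Pool.Agent.Helper621.DAP
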