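import Pool.Agent.Helper621.HIP.Defs
import Pool.Agent.Helper621.HIP.P_ulim

set_option autoImplicit false

open Complex Metric Set Filter Topology Classical ZeroAtInfty

namespace Pool.Agent.Helper621.DAP

theorem seqB_gen {E : Type} [NormedAddCommGroup E] [NormedSpace ℂ E] (L : LB E →L[ℂ] E)
    (W : ℕ → ℕ → E →L[ℂ] E) {C : ℝ} (hC : 0 ≤ C)
    (hW : ∀ j n G, ‖W j n G‖ ≤ C * ‖G‖) :
    ∃ b : E →L[ℂ] LB E, ∀ (G : E) (j : ℕ), ∃ y : LB E, (∀ n, y n = W j n G) ∧ b G j = L y := by
  let sW : ℕ → E → LB E := fun j G =>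
    BoundedContinuousFunction.ofNormedAddCommGroupDiscrete (fun n => W j n G) (C * ‖G‖)
      (fun n => hW j n G)
  have sW_apply : ∀ j G n, sW j G n = W j n G := fun j G n => rfl
  have sW_norm : ∀ j G, ‖sW j G‖ ≤ C * ‖G‖ := by
    intro j G
    rw [BoundedContinuousFunction.norm_le (mul_nonneg hC (norm_nonneg _))]
    intro n
    exact hW j n G
  have sW_add : ∀ j G H, sW j (G + H) = sW j G + sW j H := by
    intro j G H
    ext1 n
    rw [BoundedContinuousFunction.add_apply, sW_apply, sW_apply, sW_apply, map_add]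
  have sW_smul : ∀ j (c : ℂ) G, sW j (c • G) = c • sW j G := by
    intro j c G
    ext1 n
    rw [BoundedContinuousFunction.smul_apply, sW_apply, sW_apply, map_smul]
  have hbd : ∀ G j, ‖L (sW j G)‖ ≤ ‖L‖ * (C * ‖G‖) := fun G j =>
    (L.le_opNorm _).trans (mul_le_mul_of_nonneg_left (sW_norm j G) (norm_nonneg _))
  let bb : E →ₗ[ℂ] LB E :=
    { toFun := fun G => BoundedContinuousFunction.ofNormedAddCommGroupDiscrete
        (fun j => L (sW j G)) (‖L‖ * (C * ‖G‖)) (hbd G)
      map_add' := by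
        intro G H
        ext1 j
        change L (sW j (G + H)) = L (sW j G) + L (sW j H)
        rw [sW_add, map_add]
      map_smul' := by
        intro c G
        ext1 j
        change L (sW j (c • G)) = c • L (sW j G)
        rw [sW_smul, map_smul] }
  refine ⟨bb.mkContinuous (‖L‖ * C) ?_, ?_⟩
  · intro G
    rw [BoundedContinuousFunction.norm_le (mul_nonneg (mul_nonneg (norm_nonneg _) hC) (norm_nonneg _))]
    intro j
    rw [mul_assoc]
    exact hbd G j
  · intro G j
    exact ⟨sW j G, fun n => rfl, rfl⟩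

theorem seqB (W : ℕ → ℕ → HI →L[ℂ] HI) {C : ℝ} (hC : 0 ≤ C)
    (hW : ∀ j n G, ‖W j n G‖ ≤ C * ‖G‖) :
    ∃ b : HI →L[ℂ] BoundedContinuousFunction ℕ HI, ∀ (G : HI) (j : ℕ) (z c : ℂ),
      z ∈ ball (0:ℂ) 1 → Tendsto (fun n => evH (W j n G) z) atTop (𝓝 c) → evH (b G j) z = c := by
  obtain ⟨L, hL⟩ := ulim
  obtain ⟨b, hb⟩ := seqB_gen (E := HI) L W hC hW
  refine ⟨b, ?_⟩
  intro G j z c hz h
  obtain ⟨y, hy1, hy2⟩ := hb G j
  have h1 := hL y z c hz (by
    have : (fun n => evH (W j n G) z) = fun n => evH (y n) z := by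
      funext n
      rw [hy1 n]
    rw [← this]
    exact h)
  have h2 : evH (b G j) z = evH (L y) z := congrArg (fun x => evH x z) hy2
  exact h2.trans h1

end Pool.Agent.Helper621.DAP
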