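import Mathlib

set_option autoImplicit false

open Complex Metric Set Filter Topology Classical ZeroAtInfty

namespace Pool.Agent.Helper621.DAP


/-- the spread sequence -/
noncomputable def spreadF {E : Type} [NormedAddCommGroup E] (m : ℕ → ℕ)
    (y : BoundedContinuousFunction ℕ E) (n : ℕ) : E :=
  if h : ∃ i, m i = n then y h.choose else 0

theorem spreadF_norm {E : Type} [NormedAddCommGroup E] (m : ℕ → ℕ)
    (y : BoundedContinuousFunction ℕ E) (n : ℕ) : ‖spreadF m y n‖ ≤ ‖y‖ := by
  unfold spreadF
  split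
  · exact y.norm_coe_le_norm _
  · rw [norm_zero]
    exact norm_nonneg _

/-- the spread sequence as a bounded function -/
noncomputable def spreadB {E : Type} [NormedAddCommGroup E] (m : ℕ → ℕ)
    (y : BoundedContinuousFunction ℕ E) : BoundedContinuousFunction ℕ E :=
  BoundedContinuousFunction.ofNormedAddCommGroupDiscrete (spreadF m y) ‖y‖ (spreadF_norm m y)

theorem spreadB_apply {E : Type} [NormedAddCommGroup E] (m : ℕ → ℕ)
    (y : BoundedContinuousFunction ℕ E) (n : ℕ) : spreadB m y n = spreadF m y n := rfl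

/-- the spread operator -/
noncomputable def spreadL {E : Type} [NormedAddCommGroup E] [NormedSpace ℂ E] (m : ℕ → ℕ) :
    BoundedContinuousFunction ℕ E →ₗ[ℂ] BoundedContinuousFunction ℕ E where
  toFun := spreadB m
  map_add' := by
    intro y z
    ext n
    rw [BoundedContinuousFunction.add_apply, spreadB_apply, spreadB_apply, spreadB_apply]
    unfold spreadF
    split
    · rfl
    · rw [add_zero]
  map_smul' := by
    intro c y
    ext n
    rw [RingHom.id_apply, BoundedContinuousFunction.smul_apply, spreadB_apply, spreadB_apply]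
    unfold spreadF
    split
    · rfl
    · rw [smul_zero]

theorem spreadL_norm {E : Type} [NormedAddCommGroup E] [NormedSpace ℂ E] (m : ℕ → ℕ)
    (y : BoundedContinuousFunction ℕ E) : ‖spreadL m y‖ ≤ ‖y‖ :=
  (BoundedContinuousFunction.norm_le (norm_nonneg _)).2 fun n => spreadF_norm m y n

theorem spread {E : Type} [NormedAddCommGroup E] [NormedSpace ℂ E] (m : ℕ → ℕ)
    (hm : StrictMono m) :
    ∃ Sp : BoundedContinuousFunction ℕ E →L[ℂ] BoundedContinuousFunction ℕ E,
      (∀ y i, Sp y (m i) = y i) ∧ (∀ y n, (∀ i, m i ≠ n) → Sp y n = 0) ∧ ∀ y, ‖Sp y‖ ≤ ‖y‖ := by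
  refine ⟨(spreadL m).mkContinuous 1 (fun y => by
    rw [one_mul]; exact spreadL_norm m y), ?_, ?_, ?_⟩
  · intro y i
    change spreadF m y (m i) = y i
    have h : ∃ j, m j = m i := ⟨i, rfl⟩
    unfold spreadF
    rw [dif_pos h, hm.injective h.choose_spec]
  · intro y n hn
    change spreadF m y n = 0
    unfold spreadF
    rw [dif_neg]
    rintro ⟨i, hi⟩
    exact hn i hi
  · intro y
    exact spreadL_norm m y

end Pool.Agent.Helper621.DAP
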