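import Pool.Agent.Helper621.HIP.Defs
import Pool.Agent.Helper621.HIP.P_ros
import Pool.Agent.Helper621.HIP.P_spread
import Pool.Agent.Helper621.HIP.P_repeatJ
import Pool.Agent.Helper621.HIP.P_seqB

set_option autoImplicit false

open Complex Metric Set Filter Topology Classical ZeroAtInfty

namespace Pool.Agent.Helper621.DAP


/-- point evaluation as a continuous functional -/
noncomputable def evLH (z : ℂ) : HI →L[ℂ] ℂ :=
  LinearMap.mkContinuous
    { toFun := fun F => evH F z
      map_add' := fun F G => evH_add F G z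
      map_smul' := fun c F => evH_smul c F z }
    1 (fun F => by simpa using norm_evH_le F z)

theorem evLH_apply (z : ℂ) (F : HI) : evLH z F = evH F z := rfl

theorem sum_bcf_apply {E : Type} [NormedAddCommGroup E] (s : Finset ℕ) (f : ℕ → LB E) (n : ℕ) :
    (∑ l ∈ s, f l) n = ∑ l ∈ s, f l n := by
  induction s using Finset.induction_on with
  | empty => simp
  | insert a s ha ih => rw [Finset.sum_insert ha, Finset.sum_insert ha, ← ih]; rfl

/-- gluing of the blocks (Rosenthal argument) -/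
theorem assemble (S : HI →L[ℂ] HI) (A : BoundedContinuousFunction ℕ HI →L[ℂ] HI)
    (B : ℕ → HI →L[ℂ] HI) {C : ℝ} (hC : 0 ≤ C) (hB : ∀ m G, ‖B m G‖ ≤ C * ‖G‖)
    (Z : ℕ → Finset ℂ) (hZ1 : ∀ m, ∀ z ∈ Z m, z ∈ ball (0:ℂ) 1) (hZ2 : Monotone Z)
    (hZ3 : ∀ F G : HI, (∀ m, ∀ z ∈ Z m, evH F z = evH G z) → F = G)
    (h1 : ∀ (x : HI) (m0 : ℕ), ∀ z ∈ Z m0,
      Tendsto (fun m => evH (B m (S (A (sg m x)))) z) atTop (𝓝 (evH x z)))
    (h2 : ∀ m, ∀ l < m, ∀ x : HI, ∀ z ∈ Z m,
      ‖evH (B m (S (A (sg l x)))) z‖ ≤ (1 / 2) ^ m * ‖x‖) :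
    ∃ (a : BoundedContinuousFunction ℕ HI →L[ℂ] HI)
      (b : HI →L[ℂ] BoundedContinuousFunction ℕ HI), ∀ x, b (S (a x)) = x := by
  let ps : ℕ → ℂ → (BoundedContinuousFunction ℕ HI →L[ℂ] ℂ) :=
    fun k z => (evLH z).comp ((B k).comp (S.comp A))
  have hps : ∀ k z y, ps k z y = evH (B k (S (A y))) z := fun k z y => rfl
  obtain ⟨m, hm, hros⟩ := ros (E := HI) (fun k => (Z k).image (ps k))
  obtain ⟨Sp, hSp1, hSp2, hSp3⟩ := spread (E := HI) m hm
  obtain ⟨J, hJ1, hJ2⟩ := repeatJ (E := HI)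
  obtain ⟨b, hb⟩ := seqB (fun j n => B (m (Nat.pair j n))) hC (fun j n G => hB _ G)
  refine ⟨A.comp (Sp.comp J), b, fun x => ?_⟩
  apply BoundedContinuousFunction.ext
  intro j
  apply hZ3
  intro m0 z hz
  apply hb _ j z _ (hZ1 m0 z hz)
  set y : LB HI := Sp (J x) with hy
  have hJn : ∀ l, ‖J x l‖ ≤ ‖x‖ := fun l => ((J x).norm_coe_le_norm l).trans (hJ2 x)
  have hyn : ‖y‖ ≤ ‖x‖ := (hSp3 _).trans (hJ2 x)
  let tl : ℕ → LB HI := fun i => y - ∑ l ∈ Finset.range (i + 1), sg (m l) (J x l)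
  have htl : ∀ i n, tl i n = if (∃ l, i < l ∧ m l = n) then y n else 0 := by
    intro i n
    have e1 : tl i n = y n - ∑ l ∈ Finset.range (i + 1), (if n = m l then J x l else 0) := by
      show y n - (∑ l ∈ Finset.range (i + 1), sg (m l) (J x l)) n = _
      rw [sum_bcf_apply]
      rfl
    rw [e1]
    by_cases hc : ∃ l, l ≤ i ∧ m l = n
    · obtain ⟨l, hl, rfl⟩ := hc
      rw [Finset.sum_eq_single l]
      · have : ¬ ∃ l', i < l' ∧ m l' = m l := by
          rintro ⟨l', h1, h2⟩
          have := hm.injective h2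
          omega
        rw [if_pos rfl, if_neg this, hy, hSp1, sub_self]
      · intro l' _ hne
        rw [if_neg]
        intro h
        exact hne (hm.injective h).symm
      · intro h
        exact absurd (Finset.mem_range.mpr (by omega)) h
    · rw [Finset.sum_eq_zero]
      · rw [sub_zero]
        by_cases hc2 : ∃ l, i < l ∧ m l = n
        · rw [if_pos hc2]
        · rw [if_neg hc2, hy]
          apply hSp2
          intro l hl
          rcases le_or_gt l i with h | h
          · exact hc ⟨l, h, hl⟩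
          · exact hc2 ⟨l, h, hl⟩
      · intro l hl
        rw [if_neg]
        intro h
        exact hc ⟨l, by have := Finset.mem_range.mp hl; omega, h.symm⟩
  have htn : ∀ i, ‖tl i‖ ≤ ‖x‖ := by
    intro i
    rw [BoundedContinuousFunction.norm_le (norm_nonneg x)]
    intro n
    rw [htl]
    split
    · exact (y.norm_coe_le_norm n).trans hyn
    · rw [norm_zero]; exact norm_nonneg x
  have hdec : ∀ i, y = (∑ l ∈ Finset.range i, sg (m l) (J x l)) + sg (m i) (J x i) + tl i := by
    intro i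
    show y = _ + _ + (y - ∑ l ∈ Finset.range (i + 1), sg (m l) (J x l))
    rw [Finset.sum_range_succ]
    abel
  have hmi : ∀ i, i ≤ m i := fun i => hm.le_apply
  have hest : ∀ i, m0 ≤ i → ‖ps (m i) z y - ps (m i) z (sg (m i) (J x i))‖ ≤
      ((i : ℝ) * (1 / 2) ^ i + (1 / 2) ^ i) * ‖x‖ := by
    intro i hi
    have hzi : z ∈ Z (m i) := hZ2 (hi.trans (hmi i)) hz
    have e1 : ps (m i) z y - ps (m i) z (sg (m i) (J x i)) =
        (∑ l ∈ Finset.range i, ps (m i) z (sg (m l) (J x l))) + ps (m i) z (tl i) := by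
      conv_lhs => rw [hdec i]
      rw [map_add, map_add, map_sum]
      ring
    rw [e1]
    have hp : ((1:ℝ) / 2) ^ (m i) ≤ (1 / 2) ^ i :=
      pow_le_pow_of_le_one (by norm_num) (by norm_num) (hmi i)
    have b1 : ‖∑ l ∈ Finset.range i, ps (m i) z (sg (m l) (J x l))‖ ≤
        (i : ℝ) * ((1 / 2) ^ i * ‖x‖) := by
      calc _ ≤ ∑ l ∈ Finset.range i, ‖ps (m i) z (sg (m l) (J x l))‖ := norm_sum_le _ _
        _ ≤ ∑ l ∈ Finset.range i, ((1:ℝ) / 2) ^ i * ‖x‖ := by
            apply Finset.sum_le_sum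
            intro l hl
            have hl' := Finset.mem_range.mp hl
            have h := h2 (m i) (m l) (hm hl') (J x l) z hzi
            rw [hps]
            refine h.trans ?_
            exact mul_le_mul hp (hJn l) (norm_nonneg _) (by positivity)
        _ = _ := by rw [Finset.sum_const, Finset.card_range, nsmul_eq_mul]
    have b2 : ‖ps (m i) z (tl i)‖ ≤ (1 / 2) ^ i * ‖x‖ := by
      have h := hros i (ps (m i) z) (Finset.mem_image_of_mem _ hzi) (tl i) (by
        intro n hn
        rw [htl, if_neg]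
        rintro ⟨l, hl1, hl2⟩
        exact hn l hl1 hl2)
      refine h.trans ?_
      exact mul_le_mul_of_nonneg_left (htn i) (by positivity)
    calc _ ≤ _ := norm_add_le _ _
      _ ≤ (i : ℝ) * ((1 / 2) ^ i * ‖x‖) + (1 / 2) ^ i * ‖x‖ := add_le_add b1 b2
      _ = _ := by ring
  have hin : Tendsto (fun n => Nat.pair j n) atTop atTop :=
    tendsto_atTop_mono (fun n => Nat.right_le_pair j n) tendsto_id
  have hlim0 : Tendsto (fun i : ℕ => ((i : ℝ) * (1 / 2) ^ i + (1 / 2) ^ i) * ‖x‖) atTop (𝓝 0) := by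
    have t1 := tendsto_self_mul_const_pow_of_lt_one (r := (1:ℝ) / 2) (by norm_num) (by norm_num)
    have t2 := tendsto_pow_atTop_nhds_zero_of_lt_one (r := (1:ℝ) / 2) (by norm_num) (by norm_num)
    have := (t1.add t2).mul_const ‖x‖
    simpa using this
  have hd : Tendsto (fun i : ℕ => ps (m i) z y - ps (m i) z (sg (m i) (J x i))) atTop (𝓝 0) := by
    rw [tendsto_zero_iff_norm_tendsto_zero]
    refine squeeze_zero' (Eventually.of_forall fun _ => norm_nonneg _) ?_ hlim0
    filter_upwards [eventually_ge_atTop m0] with i hi using hest i hi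
  have hd2 := hd.comp hin
  have hm2 : Tendsto (fun n => evH (B (m (Nat.pair j n)) (S (A (sg (m (Nat.pair j n)) (x j))))) z)
      atTop (𝓝 (evH (x j) z)) :=
    (h1 (x j) m0 z hz).comp (hm.tendsto_atTop.comp hin)
  have hsum := hd2.add hm2
  rw [zero_add] at hsum
  refine hsum.congr fun n => ?_
  have e3 : J x (Nat.pair j n) = x j := by rw [hJ1, Nat.unpair_pair]
  simp only [Function.comp_apply, hps, e3]
  show _ = evH (B (m (Nat.pair j n)) (S (A y))) z
  ring

end Pool.Agent.Helper621.DAP
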