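import Mathlib

set_option autoImplicit false

open Complex Metric Set Filter Topology Classical ZeroAtInfty

namespace Pool.Agent.Helper621.DAP


theorem parseval_exp (k l : ℕ) :
    ∫ t in (-Real.pi)..Real.pi, exp (k * t * I) * (starRingEnd ℂ) (exp (l * t * I)) =
      if k = l then (2 * Real.pi : ℂ) else 0 := by
  have h1 : ∀ t : ℝ, exp (k * t * I) * (starRingEnd ℂ) (exp (l * t * I)) =
      exp ((((k : ℂ) - l) * I) * t) := by
    intro t
    rw [← Complex.exp_conj, ← Complex.exp_add]
    congr 1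
    simp only [map_mul, Complex.conj_natCast, Complex.conj_ofReal, Complex.conj_I]
    ring
  simp_rw [h1]
  split_ifs with h
  · subst h
    simp
    ring
  · have hc : ((k : ℂ) - l) * I ≠ 0 := by
      refine mul_ne_zero ?_ Complex.I_ne_zero
      rw [sub_ne_zero]
      exact_mod_cast h
    rw [integral_exp_mul_complex hc]
    have h2 : exp (((k : ℂ) - l) * I * (Real.pi : ℝ)) = exp (((k : ℂ) - l) * I * ((-Real.pi : ℝ) : ℂ)) := by
      rw [Complex.exp_eq_exp_iff_exists_int]
      refine ⟨(k : ℤ) - l, ?_⟩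
      push_cast
      ring
    rw [h2, sub_self, zero_div]

theorem parseval_fin (b : ℕ → ℂ) (n : ℕ) :
    ∫ t in (-Real.pi)..Real.pi, ‖∑ k ∈ Finset.range n, b k * exp (k * t * I)‖ ^ 2 =
      2 * Real.pi * ∑ k ∈ Finset.range n, ‖b k‖ ^ 2 := by
  have h0 : ∀ z : ℂ, ((‖z‖ ^ 2 : ℝ) : ℂ) = z * (starRingEnd ℂ) z := by
    intro z
    rw [Complex.mul_conj, Complex.normSq_eq_norm_sq]
  have h1 : (((∫ t in (-Real.pi)..Real.pi, ‖∑ k ∈ Finset.range n, b k * exp (k * t * I)‖ ^ 2 : ℝ)) : ℂ) =
      ((2 * Real.pi * ∑ k ∈ Finset.range n, ‖b k‖ ^ 2 : ℝ) : ℂ) := by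
    rw [← intervalIntegral.integral_ofReal]
    have h2 : ∀ t : ℝ, (((‖∑ k ∈ Finset.range n, b k * exp (k * t * I)‖ ^ 2 : ℝ)) : ℂ) =
        ∑ k ∈ Finset.range n, ∑ l ∈ Finset.range n,
          (b k * (starRingEnd ℂ) (b l)) * (exp (k * t * I) * (starRingEnd ℂ) (exp (l * t * I))) := by
      intro t
      rw [h0, map_sum, Finset.sum_mul_sum]
      refine Finset.sum_congr rfl fun k _ => Finset.sum_congr rfl fun l _ => ?_
      rw [map_mul]
      ring
    simp_rw [h2]
    rw [intervalIntegral.integral_finsetSum]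
    · have h3 : ∀ k ∈ Finset.range n, ∫ t in (-Real.pi)..Real.pi, (∑ l ∈ Finset.range n,
          (b k * (starRingEnd ℂ) (b l)) * (exp (k * t * I) * (starRingEnd ℂ) (exp (l * t * I)))) =
          2 * Real.pi * ((‖b k‖ ^ 2 : ℝ) : ℂ) := by
        intro k hk
        rw [intervalIntegral.integral_finsetSum]
        · simp_rw [intervalIntegral.integral_const_mul, parseval_exp]
          rw [Finset.sum_eq_single k]
          · rw [if_pos rfl, h0]
            ring
          · intro l _ hl
            rw [if_neg (Ne.symm hl), mul_zero]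
          · intro h; exact absurd hk h
        · intro l _
          apply Continuous.intervalIntegrable
          fun_prop
      rw [Finset.sum_congr rfl h3, ← Finset.mul_sum]
      push_cast
      rfl
    · intro k _
      apply Continuous.intervalIntegrable
      fun_prop
  exact_mod_cast h1

theorem parseval (b : ℕ → ℂ) (hb : Summable (fun k => ‖b k‖)) :
    ∫ t in (-Real.pi)..Real.pi, ‖∑' k, b k * exp (k * t * I)‖ ^ 2 =
      2 * Real.pi * ∑' k, ‖b k‖ ^ 2 := by
  have hn : ∀ (t : ℝ) (k : ℕ), ‖b k * exp (k * t * I)‖ = ‖b k‖ := by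
    intro t k
    rw [norm_mul, show (k : ℂ) * t * I = ((k * t : ℝ) : ℂ) * I by push_cast; ring,
      Complex.norm_exp_ofReal_mul_I, mul_one]
  have hs : ∀ t : ℝ, Summable (fun k : ℕ => b k * exp (k * t * I)) := by
    intro t
    apply Summable.of_norm
    simp_rw [hn]
    exact hb
  have hsq : Summable (fun k => ‖b k‖ ^ 2) := by
    refine Summable.of_nonneg_of_le (fun k => sq_nonneg _) (fun k => ?_)
      (hb.mul_left (∑' k, ‖b k‖))
    rw [sq]
    exact mul_le_mul_of_nonneg_right (hb.le_tsum k (fun j _ => norm_nonneg _)) (norm_nonneg _)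
  have h1 : Tendsto (fun n => ∫ t in (-Real.pi)..Real.pi,
      ‖∑ k ∈ Finset.range n, b k * exp (k * t * I)‖ ^ 2) atTop
      (𝓝 (∫ t in (-Real.pi)..Real.pi, ‖∑' k, b k * exp (k * t * I)‖ ^ 2)) := by
    apply intervalIntegral.tendsto_integral_filter_of_dominated_convergence
      (fun _ => (∑' k, ‖b k‖) ^ 2)
    · refine Eventually.of_forall fun n => ?_
      apply Continuous.aestronglyMeasurable
      fun_prop
    · refine Eventually.of_forall fun n => Eventually.of_forall fun t _ => ?_
      rw [norm_pow, norm_norm]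
      gcongr
      refine (norm_sum_le _ _).trans ?_
      simp_rw [hn]
      exact hb.sum_le_tsum _ (fun j _ => norm_nonneg _)
    · exact intervalIntegrable_const
    · refine Eventually.of_forall fun t _ => ?_
      exact ((hs t).hasSum.tendsto_sum_nat.norm).pow 2
  have h2 : Tendsto (fun n => 2 * Real.pi * ∑ k ∈ Finset.range n, ‖b k‖ ^ 2) atTop
      (𝓝 (2 * Real.pi * ∑' k, ‖b k‖ ^ 2)) :=
    hsq.hasSum.tendsto_sum_nat.const_mul _
  simp_rw [parseval_fin] at h1
  exact tendsto_nhds_unique h1 h2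

end Pool.Agent.Helper621.DAP
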