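import Pool.Agent.Helper621.HIP.Defs
import Pool.Agent.Helper621.HIP.P_coefs
import Pool.Agent.Helper621.HIP.P_parseval

set_option autoImplicit false

open Complex Metric Set Filter Topology Classical ZeroAtInfty

namespace Pool.Agent.Helper621.DAP


theorem l2coef (G : HI) : ∃ c : ℕ → ℂ, Summable (fun k => ‖c k‖ ^ 2) ∧
    ∀ z ∈ ball (0:ℂ) 1, HasSum (fun k => c k * z ^ k) (evH G z) := by
  obtain ⟨c, hc, hs⟩ := coefs
  refine ⟨fun k => c k G, ?_, hs G⟩
  have key : ∀ r : ℝ, 0 < r → r < 1 → ∀ n, ∑ k ∈ Finset.range n, ‖c k G‖ ^ 2 * (r ^ k) ^ 2 ≤ ‖G‖ ^ 2 := by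
    intro r hr0 hr1 n
    have hb : Summable (fun k => ‖c k G * (r:ℂ) ^ k‖) := by
      refine Summable.of_nonneg_of_le (fun _ => norm_nonneg _) (fun k => ?_)
        ((summable_geometric_of_lt_one hr0.le hr1).mul_left ‖G‖)
      rw [norm_mul, norm_pow, Complex.norm_real, Real.norm_of_nonneg hr0.le]
      exact mul_le_mul_of_nonneg_right (hc k G) (by positivity)
    have hp := parseval (fun k => c k G * (r:ℂ) ^ k) hb
    have hval : ∀ t : ℝ, ∑' k, (c k G * (r:ℂ) ^ k) * exp (k * t * I) = evH G (r * exp (t * I)) := by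
      intro t
      have hz : (r:ℂ) * exp (t * I) ∈ ball (0:ℂ) 1 := by
        rw [mem_ball_zero_iff, norm_mul, Complex.norm_exp_ofReal_mul_I, mul_one, Complex.norm_real,
          Real.norm_of_nonneg hr0.le]
        exact hr1
      rw [← (hs G _ hz).tsum_eq]
      refine tsum_congr fun k => ?_
      rw [mul_pow, ← Complex.exp_nat_mul, mul_assoc]
      congr 3
      ring
    simp only [hval] at hp
    have hle : ‖∫ t in (-Real.pi)..Real.pi, ‖evH G (r * exp (t * I))‖ ^ 2‖ ≤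
        ‖G‖ ^ 2 * |Real.pi - (-Real.pi)| := by
      apply intervalIntegral.norm_integral_le_of_norm_le_const
      intro t _
      rw [norm_pow, norm_norm]
      exact pow_le_pow_left₀ (norm_nonneg _) (norm_evH_le G _) 2
    have hpi := Real.pi_pos
    rw [hp] at hle
    have habs : |Real.pi - (-Real.pi)| = 2 * Real.pi := by
      rw [sub_neg_eq_add, ← two_mul, abs_of_pos (by positivity)]
    rw [habs] at hle
    have hle2 := (le_abs_self _).trans hle
    have hle3 : ∑' k, ‖c k G * (r:ℂ) ^ k‖ ^ 2 ≤ ‖G‖ ^ 2 := by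
      nlinarith
    have hsq : Summable (fun k => ‖c k G * (r:ℂ) ^ k‖ ^ 2) := by
      refine Summable.of_nonneg_of_le (fun _ => by positivity) (fun k => ?_) (hb.mul_left ‖G‖)
      have h1 : ‖c k G * (r:ℂ) ^ k‖ ≤ ‖G‖ := by
        rw [norm_mul, norm_pow, Complex.norm_real, Real.norm_of_nonneg hr0.le]
        calc ‖c k G‖ * r ^ k ≤ ‖c k G‖ * 1 :=
              mul_le_mul_of_nonneg_left (pow_le_one₀ hr0.le hr1.le) (norm_nonneg _)
          _ ≤ ‖G‖ := by rw [mul_one]; exact hc k G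
      rw [sq]
      exact mul_le_mul_of_nonneg_right h1 (norm_nonneg _)
    calc ∑ k ∈ Finset.range n, ‖c k G‖ ^ 2 * (r ^ k) ^ 2
        = ∑ k ∈ Finset.range n, ‖c k G * (r:ℂ) ^ k‖ ^ 2 := by
          refine Finset.sum_congr rfl fun k _ => ?_
          rw [norm_mul, norm_pow, Complex.norm_real, Real.norm_of_nonneg hr0.le, mul_pow]
      _ ≤ ∑' k, ‖c k G * (r:ℂ) ^ k‖ ^ 2 := hsq.sum_le_tsum _ fun _ _ => by positivity
      _ ≤ ‖G‖ ^ 2 := hle3
  refine summable_of_sum_range_le (c := ‖G‖ ^ 2) (fun _ => by positivity) fun n => ?_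
  have hcont : Continuous fun r : ℝ => ∑ k ∈ Finset.range n, ‖c k G‖ ^ 2 * (r ^ k) ^ 2 := by
    fun_prop
  have ht : Tendsto (fun r : ℝ => ∑ k ∈ Finset.range n, ‖c k G‖ ^ 2 * (r ^ k) ^ 2) (𝓝[<] 1)
      (𝓝 (∑ k ∈ Finset.range n, ‖c k G‖ ^ 2 * ((1:ℝ) ^ k) ^ 2)) :=
    (hcont.tendsto 1).mono_left nhdsWithin_le_nhds
  have hev : ∀ᶠ r : ℝ in 𝓝[<] 1, ∑ k ∈ Finset.range n, ‖c k G‖ ^ 2 * (r ^ k) ^ 2 ≤ ‖G‖ ^ 2 := by
    filter_upwards [Ioo_mem_nhdsLT (zero_lt_one (α := ℝ))] with r hr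
    exact key r hr.1 hr.2 n
  have := le_of_tendsto ht hev
  simpa using this

end Pool.Agent.Helper621.DAP
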