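import Pool.Agent.Helper621.HIP.Defs
import Pool.Agent.Helper621.HIP.P_l2coef
import Pool.Agent.Helper621.HIP.P_parseval

set_option autoImplicit false

open Complex Metric Set Filter Topology Classical ZeroAtInfty

namespace Pool.Agent.Helper621.DAP


theorem l1cauchy_ei_norm (t : ℝ) : ‖ei t‖ = 1 := by
  unfold ei
  exact Complex.norm_exp_ofReal_mul_I t

theorem l1cauchy_ball {r : ℝ} (h0 : 0 < r) (h1 : r < 1) (t : ℝ) :
    (r : ℂ) * ei t ∈ ball (0:ℂ) 1 := by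
  rw [mem_ball_zero_iff, norm_mul, l1cauchy_ei_norm, mul_one, Complex.norm_real,
    Real.norm_of_nonneg h0.le]
  exact h1

theorem l1cauchy_cont (G : HI) {r : ℝ} (h0 : 0 < r) (h1 : r < 1) :
    Continuous (fun t : ℝ => evH G (r * ei t)) := by
  apply (evH_diff G).continuousOn.comp_continuous
  · unfold ei
    fun_prop
  · intro t
    exact l1cauchy_ball h0 h1 t

theorem l1cauchy (G : HI) {ε : ℝ} (hε : 0 < ε) : ∃ r0 : ℝ, r0 < 1 ∧ ∀ r ρ : ℝ,
    r0 < r → r < 1 → r0 < ρ → ρ < 1 →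
      ∫ t in (-Real.pi)..Real.pi, ‖evH G (r * ei t) - evH G (ρ * ei t)‖ ≤ ε := by
  obtain ⟨c, hc2, hc⟩ := l2coef G
  have hπ := Real.pi_pos
  set η : ℝ := ε / (2 * Real.pi) with hη
  have hη0 : 0 < η := by positivity
  have hT : Tendsto (fun p : ℝ × ℝ => ∑' k, ‖c k‖ ^ 2 * (p.1 ^ k - p.2 ^ k) ^ 2)
      (𝓝[<] (1:ℝ) ×ˢ 𝓝[<] (1:ℝ)) (𝓝 (∑' _ : ℕ, (0:ℝ))) := by
    apply tendsto_tsum_of_dominated_convergence hc2
    · intro k
      have h1 : Tendsto (fun p : ℝ × ℝ => ‖c k‖ ^ 2 * (p.1 ^ k - p.2 ^ k) ^ 2)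
          (𝓝 ((1:ℝ), (1:ℝ))) (𝓝 (‖c k‖ ^ 2 * ((1:ℝ) ^ k - 1 ^ k) ^ 2)) := by
        have hcont : Continuous (fun p : ℝ × ℝ => ‖c k‖ ^ 2 * (p.1 ^ k - p.2 ^ k) ^ 2) := by
          fun_prop
        exact hcont.tendsto ((1:ℝ), (1:ℝ))
      rw [sub_self, zero_pow two_ne_zero, mul_zero] at h1
      refine h1.mono_left ?_
      rw [nhds_prod_eq]
      exact Filter.prod_mono nhdsWithin_le_nhds nhdsWithin_le_nhds
    · have h1 : ∀ᶠ r in 𝓝[<] (1:ℝ), 0 < r ∧ r < 1 := by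
        have := Ioo_mem_nhdsLT (show (0:ℝ) < 1 by norm_num)
        filter_upwards [this] with x hx
        exact hx
      filter_upwards [h1.prod_mk h1] with p hp k
      obtain ⟨⟨ha, hb⟩, ⟨hc', hd⟩⟩ := hp
      have e1 : 0 ≤ p.1 ^ k := by positivity
      have e2 : p.1 ^ k ≤ 1 := pow_le_one₀ ha.le hb.le
      have e3 : 0 ≤ p.2 ^ k := by positivity
      have e4 : p.2 ^ k ≤ 1 := pow_le_one₀ hc'.le hd.le
      rw [Real.norm_of_nonneg (by positivity)]
      have e5 : (p.1 ^ k - p.2 ^ k) ^ 2 ≤ 1 := by nlinarith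
      have e6 : 0 ≤ ‖c k‖ ^ 2 := by positivity
      nlinarith
  rw [tsum_zero] at hT
  have hδ : 0 < η * ε / (2 * Real.pi) := by positivity
  have hev := hT.eventually (gt_mem_nhds hδ)
  rw [Filter.eventually_prod_iff] at hev
  obtain ⟨pa, hpa, pb, hpb, hp⟩ := hev
  obtain ⟨l1, hl1, hl1'⟩ := mem_nhdsLT_iff_exists_Ioo_subset.mp hpa
  obtain ⟨l2, hl2, hl2'⟩ := mem_nhdsLT_iff_exists_Ioo_subset.mp hpb
  refine ⟨max 0 (max l1 l2), ?_, ?_⟩
  · exact max_lt one_pos (max_lt hl1 hl2)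
  intro r ρ hr0 hr1 hρ0 hρ1
  have hr : 0 < r := lt_of_le_of_lt (le_max_left _ _) hr0
  have hρ : 0 < ρ := lt_of_le_of_lt (le_max_left _ _) hρ0
  have hrl : l1 < r := lt_of_le_of_lt ((le_max_left _ _).trans (le_max_right _ _)) hr0
  have hρl : l2 < ρ := lt_of_le_of_lt ((le_max_right _ _).trans (le_max_right _ _)) hρ0
  have hsmall : ∑' k, ‖c k‖ ^ 2 * (r ^ k - ρ ^ k) ^ 2 < η * ε / (2 * Real.pi) :=
    hp (hl1' ⟨hrl, hr1⟩) (hl2' ⟨hρl, hρ1⟩)
  set b : ℕ → ℂ := fun k => c k * ((r : ℂ) ^ k - (ρ : ℂ) ^ k) with hb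
  have hsum1 : ∀ s : ℝ, 0 < s → s < 1 → Summable (fun k => ‖c k * (s : ℂ) ^ k‖) := by
    intro s hs0 hs1
    have h1 : (s : ℂ) ∈ ball (0:ℂ) 1 := by
      rw [mem_ball_zero_iff, Complex.norm_real, Real.norm_of_nonneg hs0.le]
      exact hs1
    exact (hc _ h1).summable.norm
  have hbsum : Summable (fun k => ‖b k‖) := by
    refine Summable.of_nonneg_of_le (fun k => norm_nonneg _) (fun k => ?_)
      ((hsum1 r hr hr1).add (hsum1 ρ hρ hρ1))
    simp only [hb, mul_sub]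
    exact norm_sub_le _ _
  have hval : ∀ t : ℝ, evH G (r * ei t) - evH G (ρ * ei t) = ∑' k, b k * exp (k * t * I) := by
    intro t
    have h1 := hc _ (l1cauchy_ball hr hr1 t)
    have h2 := hc _ (l1cauchy_ball hρ hρ1 t)
    have h3 := h1.sub h2
    rw [← h3.tsum_eq]
    apply tsum_congr
    intro k
    have h4 : (ei t) ^ k = exp (k * t * I) := by
      unfold ei
      rw [← Complex.exp_nat_mul]
      congr 1
      ring
    rw [mul_pow, mul_pow, h4]
    simp only [hb]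
    ring
  have hint : ∫ t in (-Real.pi)..Real.pi, ‖evH G (r * ei t) - evH G (ρ * ei t)‖ ^ 2
      ≤ η * ε := by
    simp_rw [hval]
    rw [parseval b hbsum]
    have h1 : ∑' k, ‖b k‖ ^ 2 = ∑' k, ‖c k‖ ^ 2 * (r ^ k - ρ ^ k) ^ 2 := by
      apply tsum_congr
      intro k
      have h2 : (r : ℂ) ^ k - (ρ : ℂ) ^ k = ((r ^ k - ρ ^ k : ℝ) : ℂ) := by push_cast; rfl
      simp only [hb]
      rw [h2, norm_mul, mul_pow, Complex.norm_real, Real.norm_eq_abs, sq_abs]
    rw [h1]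
    have h3 : 2 * Real.pi * ∑' k, ‖c k‖ ^ 2 * (r ^ k - ρ ^ k) ^ 2
        ≤ 2 * Real.pi * (η * ε / (2 * Real.pi)) :=
      mul_le_mul_of_nonneg_left hsmall.le (by positivity)
    have h4 : 2 * Real.pi * (η * ε / (2 * Real.pi)) = η * ε := by
      field_simp
    rw [h4] at h3
    exact h3
  have hcont : Continuous (fun t : ℝ => ‖evH G (r * ei t) - evH G (ρ * ei t)‖) :=
    ((l1cauchy_cont G hr hr1).sub (l1cauchy_cont G hρ hρ1)).norm
  have hmono : ∫ t in (-Real.pi)..Real.pi, ‖evH G (r * ei t) - evH G (ρ * ei t)‖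
      ≤ ∫ t in (-Real.pi)..Real.pi,
        (η / 2 + (1 / (2 * η)) * ‖evH G (r * ei t) - evH G (ρ * ei t)‖ ^ 2) := by
    apply intervalIntegral.integral_mono (by linarith)
    · exact hcont.intervalIntegrable _ _
    · apply Continuous.intervalIntegrable
      exact continuous_const.add (continuous_const.mul (hcont.pow 2))
    · intro t
      dsimp only
      set x := ‖evH G (r * ei t) - evH G (ρ * ei t)‖
      have h1 : η / 2 + (1 / (2 * η)) * x ^ 2 - x = (x - η) ^ 2 / (2 * η) := by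
        field_simp
        ring
      have h2 : 0 ≤ (x - η) ^ 2 / (2 * η) := by positivity
      linarith
  refine hmono.trans ?_
  rw [intervalIntegral.integral_add (by simp)
    (by
      apply Continuous.intervalIntegrable
      exact continuous_const.mul (hcont.pow 2)), intervalIntegral.integral_const,
    intervalIntegral.integral_const_mul]
  have h5 : (1 / (2 * η)) * ∫ t in (-Real.pi)..Real.pi,
      ‖evH G (r * ei t) - evH G (ρ * ei t)‖ ^ 2 ≤ (1 / (2 * η)) * (η * ε) :=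
    mul_le_mul_of_nonneg_left hint (by positivity)
  have h6 : (1 / (2 * η)) * (η * ε) = ε / 2 := by
    field_simp
  have h7 : (Real.pi - -Real.pi) • (η / 2) = ε / 2 := by
    rw [smul_eq_mul, hη]
    field_simp
    ring
  rw [h7]
  linarith

end Pool.Agent.Helper621.DAP
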