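import Pool.Agent.Helper621.HIP.Defs
import Pool.Agent.Helper621.HIP.P_l1cauchy

set_option autoImplicit false

open Complex Metric Set Filter Topology Classical ZeroAtInfty

namespace Pool.Agent.Helper621.DAP


theorem radii_ei_mem {r : ℝ} (h0 : 0 < r) (h1 : r < 1) (t : ℝ) : (r : ℂ) * ei t ∈ ball (0 : ℂ) 1 := by
  rw [mem_ball_zero_iff, norm_mul]
  unfold ei
  rw [Complex.norm_exp_ofReal_mul_I, mul_one, Complex.norm_real, Real.norm_eq_abs, abs_of_pos h0]
  exact h1

theorem radii_cont (G : HI) {r : ℝ} (h0 : 0 < r) (h1 : r < 1) :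
    Continuous fun t : ℝ => evH G (r * ei t) := by
  have h2 : Continuous fun t : ℝ => (r : ℂ) * ei t := by
    unfold ei
    fun_prop
  exact (evH_diff G).continuousOn.comp_continuous h2 (radii_ei_mem h0 h1)

theorem radii_ae (G : HI) (r : ℕ → ℝ) (h0 : ∀ k, 0 < r k) (h1 : ∀ k, r k < 1) (j : ℕ)
    (hb : ∀ k, j ≤ k → ∫ t in (-Real.pi)..Real.pi,
      ‖evH G (r (k + 1) * ei t) - evH G (r k * ei t)‖ ≤ (1 / 2 : ℝ) ^ k) :
    ∀ᵐ t ∂(MeasureTheory.volume.restrict (Ioc (-Real.pi) Real.pi)), ∃ c : ℂ,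
      Tendsto (fun k => evH G (r k * ei t)) atTop (𝓝 c) := by
  set μ := MeasureTheory.volume.restrict (Ioc (-Real.pi) Real.pi) with hμ
  set g : ℕ → ℝ → ℂ := fun k t => evH G (r (k + j + 1) * ei t) - evH G (r (k + j) * ei t) with hg
  have hgc : ∀ k, Continuous (g k) := fun k =>
    (radii_cont G (h0 _) (h1 _)).sub (radii_cont G (h0 _) (h1 _))
  have hgi : ∀ k, MeasureTheory.Integrable (g k) μ := fun k =>
    ((hgc k).integrableOn_Icc).mono_set Ioc_subset_Icc_self
  have hpi : -Real.pi ≤ Real.pi := by linarith [Real.pi_pos]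
  have hl : ∀ k, ∫⁻ t, ‖g k t‖ₑ ∂μ ≤ ENNReal.ofReal ((1 / 2 : ℝ) ^ k) := by
    intro k
    rw [← MeasureTheory.ofReal_integral_norm_eq_lintegral_enorm (hgi k)]
    refine ENNReal.ofReal_le_ofReal ?_
    have h2 := hb (k + j) (Nat.le_add_left _ _)
    rw [intervalIntegral.integral_of_le hpi] at h2
    refine h2.trans ?_
    exact pow_le_pow_of_le_one (by norm_num) (by norm_num) (Nat.le_add_right _ _)
  have hsum : ∫⁻ t, ∑' k, ‖g k t‖ₑ ∂μ ≠ ⊤ := by
    rw [MeasureTheory.lintegral_tsum fun k => (hgc k).measurable.enorm.aemeasurable]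
    refine ne_top_of_le_ne_top ?_ (ENNReal.tsum_le_tsum hl)
    rw [← ENNReal.ofReal_tsum_of_nonneg (fun k => by positivity)
      (summable_geometric_of_lt_one (by norm_num) (by norm_num))]
    exact ENNReal.ofReal_ne_top
  have hae := MeasureTheory.ae_lt_top'
    ((AEMeasurable.ennreal_tsum fun k => (hgc k).measurable.enorm.aemeasurable)) hsum
  filter_upwards [hae] with t ht
  have h3 : Summable fun k => ‖g k t‖₊ := ENNReal.tsum_coe_ne_top_iff_summable.1 ht.ne
  have h4 : Summable fun k => ‖g k t‖ := by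
    have := NNReal.summable_coe.2 h3
    exact this
  have h5 : CauchySeq fun k => evH G (r (k + j) * ei t) := by
    refine cauchySeq_of_summable_dist ?_
    refine h4.congr fun k => ?_
    show ‖g k t‖ = dist (evH G (r (k + j) * ei t)) (evH G (r (k.succ + j) * ei t))
    rw [dist_comm, dist_eq_norm]
    have e : k.succ + j = k + j + 1 := by omega
    rw [e]
  obtain ⟨c, hc⟩ := cauchySeq_tendsto_of_complete h5
  exact ⟨c, (tendsto_add_atTop_iff_nat j).1 hc⟩

theorem radii_per {P : ℝ → Prop} (hP : ∀ (t : ℝ) (n : ℤ), P (t - n * (2 * Real.pi)) → P t)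
    (h : ∀ᵐ t ∂(MeasureTheory.volume.restrict (Ioc (-Real.pi) Real.pi)), P t) :
    ∀ᵐ t : ℝ, P t := by
  rw [MeasureTheory.ae_restrict_iff' measurableSet_Ioc] at h
  have h1 : ∀ n : ℤ, ∀ᵐ t : ℝ, t - n * (2 * Real.pi) ∈ Ioc (-Real.pi) Real.pi →
      P (t - n * (2 * Real.pi)) := fun n =>
    (MeasureTheory.measurePreserving_sub_right MeasureTheory.volume
      ((n : ℝ) * (2 * Real.pi))).quasiMeasurePreserving.ae h
  filter_upwards [MeasureTheory.ae_all_iff.2 h1] with t ht
  obtain ⟨n, hn, -⟩ := existsUnique_sub_zsmul_mem_Ioc Real.two_pi_pos t (-Real.pi)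
  have hn' : t - n * (2 * Real.pi) ∈ Ioc (-Real.pi) Real.pi := by
    have e : -Real.pi + 2 * Real.pi = Real.pi := by ring
    rw [e] at hn
    rw [← zsmul_eq_mul]
    exact hn
  exact hP t n (ht n hn')

theorem radii (G : ℕ → HI) : ∃ r : ℕ → ℝ, (∀ k, 0 < r k) ∧ (∀ k, r k < 1) ∧
    Tendsto r atTop (𝓝 1) ∧ ∀ᵐ t : ℝ, ∀ j, ∃ c : ℂ,
      Tendsto (fun k => evH (G j) (r k * ei t)) atTop (𝓝 c) := by
  choose r0 hr0 hint using fun (j k : ℕ) => l1cauchy (G j) (ε := (1 / 2 : ℝ) ^ k) (by positivity)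
  have hM : ∀ k : ℕ, ∃ M : ℝ, M < 1 ∧ 1 - 1 / ((k : ℝ) + 2) ≤ M ∧
      ∀ j ≤ k, ∀ i ≤ k, r0 j i ≤ M := by
    intro k
    set s : Finset ℝ := insert (1 - 1 / ((k : ℝ) + 2))
      ((Finset.range (k + 1) ×ˢ Finset.range (k + 1)).image (fun p => r0 p.1 p.2)) with hs
    have hne : s.Nonempty := Finset.insert_nonempty _ _
    refine ⟨s.max' hne, ?_, ?_, ?_⟩
    · rw [Finset.max'_lt_iff]
      intro x hx
      rw [hs, Finset.mem_insert, Finset.mem_image] at hx
      rcases hx with rfl | ⟨p, -, rfl⟩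
      · have : 0 < 1 / ((k : ℝ) + 2) := by positivity
        linarith
      · exact hr0 _ _
    · exact Finset.le_max' s _ (by rw [hs]; exact Finset.mem_insert_self _ _)
    · intro j hj i hi
      refine Finset.le_max' s _ ?_
      rw [hs]
      refine Finset.mem_insert_of_mem ?_
      rw [Finset.mem_image]
      refine ⟨(j, i), ?_, rfl⟩
      rw [Finset.mem_product, Finset.mem_range, Finset.mem_range]
      exact ⟨by omega, by omega⟩
  choose M hM1 hM2 hM3 using hM
  have hM0 : ∀ k, 0 < M k := by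
    intro k
    refine lt_of_lt_of_le ?_ (hM2 k)
    have h2 : (0 : ℝ) < (k : ℝ) + 2 := by positivity
    rw [sub_pos, div_lt_one h2]
    linarith [Nat.cast_nonneg (α := ℝ) k]
  set r : ℕ → ℝ := fun k => (M k + 1) / 2 with hr
  have h0 : ∀ k, 0 < r k := fun k => by
    have := hM0 k
    simp only [hr]; linarith
  have h1 : ∀ k, r k < 1 := fun k => by
    have := hM1 k
    simp only [hr]; linarith
  have hMr : ∀ k, M k < r k := fun k => by
    have := hM1 k
    simp only [hr]; linarith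
  refine ⟨r, h0, h1, ?_, ?_⟩
  · refine tendsto_of_tendsto_of_tendsto_of_le_of_le (g := fun k : ℕ => 1 - 1 / ((k : ℝ) + 2))
      (h := fun _ => (1 : ℝ)) ?_ tendsto_const_nhds (fun k => (hM2 k).trans (hMr k).le)
      (fun k => (h1 k).le)
    have h2 : Tendsto (fun k : ℕ => 1 / ((k : ℝ) + 2)) atTop (𝓝 0) := by
      have := tendsto_one_div_add_atTop_nhds_zero_nat (𝕜 := ℝ)
      have h3 := (tendsto_add_atTop_iff_nat 1).2 this
      refine h3.congr fun k => ?_
      push_cast
      ring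
    have h3 := h2.const_sub 1
    rwa [sub_zero] at h3
  · refine radii_per ?_ ?_
    · intro t n h j
      obtain ⟨c, hc⟩ := h j
      refine ⟨c, hc.congr fun k => ?_⟩
      have e : ei (t - n * (2 * Real.pi)) = ei t := by
        unfold ei
        rw [Complex.exp_eq_exp_iff_exists_int]
        refine ⟨-n, ?_⟩
        push_cast
        ring
      rw [e]
    · rw [MeasureTheory.ae_all_iff]
      intro j
      refine radii_ae (G j) r h0 h1 j fun k hk => ?_
      refine hint j k _ _ ?_ (h1 _) ?_ (h1 _)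
      · exact lt_of_le_of_lt (hM3 (k + 1) j (by omega) k (by omega)) (hMr _)
      · exact lt_of_le_of_lt (hM3 k j hk k le_rfl) (hMr _)

end Pool.Agent.Helper621.DAP
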