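import Pool.Agent.Helper621.HIP.Defs
import Pool.Agent.Helper621.HIP.P_sepDA
import Pool.Agent.Helper621.HIP.P_radii

set_option autoImplicit false

open Complex Metric Set Filter Topology Classical ZeroAtInfty

namespace Pool.Agent.Helper621.DAP


theorem bdry_lim14847 (S : DA →L[ℂ] HI) (z : ℕ → ℂ) (F : ℕ → DA) (hF : DenseRange F)
    (h : ∀ j, ∃ c : ℂ, Tendsto (fun k => evH (S (F j)) (z k)) atTop (𝓝 c)) (f : DA) :
    ∃ c : ℂ, Tendsto (fun k => evH (S f) (z k)) atTop (𝓝 c) := by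
  apply cauchySeq_tendsto_of_complete
  rw [Metric.cauchySeq_iff']
  intro ε hε
  have hδ : 0 < ε / (4 * (‖S‖ + 1)) := by positivity
  obtain ⟨j, hj⟩ := hF.exists_dist_lt f hδ
  rw [dist_eq_norm] at hj
  have hSb : ∀ w : ℂ, ‖evH (S f) w - evH (S (F j)) w‖ ≤ ε / 4 := by
    intro w
    rw [← evH_sub, ← map_sub]
    calc ‖evH (S (f - F j)) w‖ ≤ ‖S (f - F j)‖ := norm_evH_le _ _
      _ ≤ ‖S‖ * ‖f - F j‖ := S.le_opNorm _
      _ ≤ (‖S‖ + 1) * (ε / (4 * (‖S‖ + 1))) := by
        apply mul_le_mul _ hj.le (norm_nonneg _) (by positivity)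
        linarith
      _ = ε / 4 := by field_simp
  obtain ⟨c, hc⟩ := h j
  have hcau := hc.cauchySeq
  rw [Metric.cauchySeq_iff'] at hcau
  obtain ⟨N, hN⟩ := hcau (ε / 4) (by linarith)
  refine ⟨N, fun n hn => ?_⟩
  have h1 := hN n hn
  rw [dist_eq_norm] at h1 ⊢
  have e : evH (S f) (z n) - evH (S f) (z N) = (evH (S f) (z n) - evH (S (F j)) (z n)) +
      (evH (S (F j)) (z n) - evH (S (F j)) (z N)) - (evH (S f) (z N) - evH (S (F j)) (z N)) := by ring
  rw [e]
  calc _ ≤ ‖(evH (S f) (z n) - evH (S (F j)) (z n)) + (evH (S (F j)) (z n) - evH (S (F j)) (z N))‖ +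
        ‖evH (S f) (z N) - evH (S (F j)) (z N)‖ := norm_sub_le _ _
    _ ≤ (‖evH (S f) (z n) - evH (S (F j)) (z n)‖ + ‖evH (S (F j)) (z n) - evH (S (F j)) (z N)‖) +
        ‖evH (S f) (z N) - evH (S (F j)) (z N)‖ := by gcongr; exact norm_add_le _ _
    _ < ε := by linarith [hSb (z n), hSb (z N)]

/-- the limit functional -/
noncomputable def bdry_tau14847 (S : DA →L[ℂ] HI) (z : ℕ → ℂ)
    (h : ∀ f : DA, ∃ c : ℂ, Tendsto (fun k => evH (S f) (z k)) atTop (𝓝 c)) : DA →L[ℂ] ℂ :=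
  LinearMap.mkContinuous
    { toFun := fun f => (h f).choose
      map_add' := by
        intro f g
        refine tendsto_nhds_unique (h (f + g)).choose_spec ?_
        have h1 := (h f).choose_spec.add (h g).choose_spec
        refine h1.congr fun k => ?_
        rw [map_add, evH_add]
      map_smul' := by
        intro c f
        refine tendsto_nhds_unique (h (c • f)).choose_spec ?_
        have h1 := (h f).choose_spec.const_mul c
        refine h1.congr fun k => ?_
        rw [map_smul, evH_smul] }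
    ‖S‖ (by
      intro f
      refine le_of_tendsto (h f).choose_spec.norm (Filter.Eventually.of_forall fun k => ?_)
      exact (norm_evH_le _ _).trans (S.le_opNorm f))

theorem bdry_tau_spec14847 (S : DA →L[ℂ] HI) (z : ℕ → ℂ)
    (h : ∀ f : DA, ∃ c : ℂ, Tendsto (fun k => evH (S f) (z k)) atTop (𝓝 c)) (f : DA) :
    Tendsto (fun k => evH (S f) (z k)) atTop (𝓝 (bdry_tau14847 S z h f)) := (h f).choose_spec

theorem bdry_tau_norm14847 (S : DA →L[ℂ] HI) (z : ℕ → ℂ)
    (h : ∀ f : DA, ∃ c : ℂ, Tendsto (fun k => evH (S f) (z k)) atTop (𝓝 c)) (f : DA) :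
    ‖bdry_tau14847 S z h f‖ ≤ ‖S‖ * ‖f‖ := by
  refine le_of_tendsto (bdry_tau_spec14847 S z h f).norm (Filter.Eventually.of_forall fun k => ?_)
  exact (norm_evH_le _ _).trans (S.le_opNorm f)

theorem bdry (S : DA →L[ℂ] HI) : ∃ (r : ℕ → ℝ) (τ : ℝ → DA →L[ℂ] ℂ), Bd S r τ := by
  haveI := sepDA
  let F := TopologicalSpace.denseSeq DA
  have hF : DenseRange F := TopologicalSpace.denseRange_denseSeq DA
  obtain ⟨r, h0, h1, hl, hae⟩ := radii (fun j => S (F j))
  refine ⟨r, fun t => if h : ∀ f : DA, ∃ c : ℂ, Tendsto (fun k => evH (S f) (r k * ei t)) atTop (𝓝 c) then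
    bdry_tau14847 S (fun k => r k * ei t) h else 0, h0, h1, hl, ?_, ?_⟩
  · filter_upwards [hae] with t ht f
    have h : ∀ f : DA, ∃ c : ℂ, Tendsto (fun k => evH (S f) (r k * ei t)) atTop (𝓝 c) :=
      bdry_lim14847 S (fun k => r k * ei t) F hF ht
    simp only [dif_pos h]
    exact bdry_tau_spec14847 S (fun k => r k * ei t) h f
  · intro t f
    by_cases h : ∀ f : DA, ∃ c : ℂ, Tendsto (fun k => evH (S f) (r k * ei t)) atTop (𝓝 c)
    · simp only [dif_pos h]
      exact bdry_tau_norm14847 S (fun k => r k * ei t) h f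
    · simp only [dif_neg h]
      simp only [ContinuousLinearMap.zero_apply, norm_zero]
      positivity

end Pool.Agent.Helper621.DAP
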