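import Pool.Agent.Helper621.HIP.Defs
import Pool.Agent.Helper621.DAP.P_peak_small

set_option autoImplicit false

open Complex Metric Set Filter Topology Classical ZeroAtInfty

namespace Pool.Agent.Helper621.DAP

theorem pk_small {s : ℂ} (hs : ‖s‖ = 1) {r : ℝ} (hr : 0 < r) {η : ℝ} (hη : 0 < η) :
    ∃ N : ℕ, ∀ n ≥ N, ∀ z ∈ closedBall (0:ℂ) 1, r ≤ ‖z - s‖ → ‖ev (pk s n) z‖ ≤ η := by
  obtain ⟨N, hN⟩ := peak_small hs hr hη
  refine ⟨N, fun n hn z hz hzs => ?_⟩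
  rw [ev_pk _ _ _ hz]
  exact hN n hn z hz hzs

end Pool.Agent.Helper621.DAP
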