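import Pool.Agent.Helper621.HIP.Defs

set_option autoImplicit false

open Complex Metric Set Filter Topology Classical ZeroAtInfty

namespace Pool.Agent.Helper621.DAP


private theorem pk_le1 {s : ℂ} (hs : ‖s‖ = 1) (n : ℕ) {z : ℂ} (hz : z ∈ closedBall (0:ℂ) 1) :
    ‖ev (pk s n) z‖ ≤ 1 := by
  rw [ev_pk _ _ _ hz, norm_pow]
  apply pow_le_one₀ (norm_nonneg _)
  rw [mem_closedBall_zero_iff] at hz
  rw [norm_div]
  have h1 : ‖1 + (starRingEnd ℂ) s * z‖ ≤ 2 := by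
    refine (norm_add_le _ _).trans ?_
    rw [norm_mul, RCLike.norm_conj, hs, norm_one]
    linarith
  have h2 : ‖(2:ℂ)‖ = 2 := by simp
  rw [h2]
  linarith

private theorem geo_le (F : Finset ℕ) : ∑ m ∈ F, ((1:ℝ) / 2) ^ (m + 1) ≤ 1 := by
  have h1 : ∀ N : ℕ, ∑ m ∈ Finset.range N, ((1:ℝ) / 2) ^ (m + 1) = 1 - (1 / 2) ^ N := by
    intro N
    induction N with
    | zero => simp
    | succ N ih => rw [Finset.sum_range_succ, ih, pow_succ]; ring
  obtain ⟨N, hN⟩ := F.exists_nat_subset_range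
  calc ∑ m ∈ F, ((1:ℝ) / 2) ^ (m + 1) ≤ ∑ m ∈ Finset.range N, ((1:ℝ) / 2) ^ (m + 1) :=
        Finset.sum_le_sum_of_subset_of_nonneg hN (fun _ _ _ => by positivity)
    _ = 1 - (1 / 2) ^ N := h1 N
    _ ≤ 1 := by
        have : (0:ℝ) ≤ (1 / 2) ^ N := by positivity
        linarith

theorem pk_sum (s : ℕ → ℂ) (ρ : ℕ → ℝ) (n : ℕ → ℕ) (hs : ∀ m, ‖s m‖ = 1)
    (hρ : ∀ m, 0 < ρ m) (hρ0 : Tendsto ρ atTop (𝓝 0))
    (hd : ∀ m l, m ≠ l → ∀ z : ℂ, ‖z - s m‖ < ρ m → ρ l ≤ ‖z - s l‖)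
    (hn : ∀ m, ∀ z ∈ closedBall (0:ℂ) 1, ρ m ≤ ‖z - s m‖ →
      ‖ev (pk (s m) (n m)) z‖ ≤ (1 / 2) ^ (m + 1)) :
    (∀ z ∈ ball (0:ℂ) 1, ∀ F : Finset ℕ, ∑ m ∈ F, ‖ev (pk (s m) (n m)) z‖ ≤ 2) ∧
    (∀ r : ℝ, r < 1 → ∃ m0, ∀ m ≥ m0, ∀ z : ℂ, ‖z‖ ≤ r →
      ‖ev (pk (s m) (n m)) z‖ ≤ (1 / 2) ^ m) := by
  constructor
  · intro z hz F
    have hz' := ball_subset_closedBall hz
    have h1 : ∀ m ∈ F, ‖ev (pk (s m) (n m)) z‖ ≤
        (if ‖z - s m‖ < ρ m then (1:ℝ) else 0) + (1 / 2) ^ (m + 1) := by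
      intro m _
      split_ifs with h
      · have := pk_le1 (hs m) (n m) hz'
        have h2 : (0:ℝ) ≤ (1 / 2) ^ (m + 1) := by positivity
        linarith
      · rw [zero_add]
        exact hn m z hz' (not_lt.1 h)
    refine (Finset.sum_le_sum h1).trans ?_
    rw [Finset.sum_add_distrib]
    have h3 : ∑ m ∈ F, (if ‖z - s m‖ < ρ m then (1:ℝ) else 0) ≤ 1 := by
      rw [Finset.sum_ite, Finset.sum_const_zero, add_zero, Finset.sum_const, nsmul_eq_mul, mul_one]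
      have h4 : (F.filter (fun m => ‖z - s m‖ < ρ m)).card ≤ 1 := by
        rw [Finset.card_le_one]
        intro a ha b hb
        rw [Finset.mem_filter] at ha hb
        by_contra hab
        exact absurd hb.2 (not_lt.2 (hd a b hab z ha.2))
      exact_mod_cast h4
    have h5 := geo_le F
    linarith
  · intro r hr
    have h1 : ∀ᶠ m in atTop, ρ m < 1 - r := hρ0.eventually_lt_const (by linarith)
    obtain ⟨m0, hm0⟩ := eventually_atTop.1 h1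
    refine ⟨m0, fun m hm z hz => ?_⟩
    have h2 : z ∈ closedBall (0:ℂ) 1 := by
      rw [mem_closedBall_zero_iff]; linarith
    have h3 : ρ m ≤ ‖z - s m‖ := by
      have h4 : ‖s m‖ - ‖z‖ ≤ ‖z - s m‖ := by
        rw [norm_sub_rev]; exact norm_sub_norm_le _ _
      rw [hs m] at h4
      have := hm0 m hm
      linarith
    refine (hn m z h2 h3).trans ?_
    exact pow_le_pow_of_le_one (by norm_num) (by norm_num) (Nat.le_succ m)

end Pool.Agent.Helper621.DAP
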