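import Mathlib

set_option autoImplicit false

open Complex Metric Set Filter Topology Classical ZeroAtInfty

namespace Pool.Agent.Helper621.DAP


theorem pts_rec {Θ : Set ℂ} (c : ℂ) (hc : ∀ η > 0, ∃ s ∈ Θ, 0 < ‖s - c‖ ∧ ‖s - c‖ < η) :
    ∃ s : ℕ → ℂ, (∀ m, s m ∈ Θ) ∧ (∀ m, 0 < ‖s m - c‖) ∧ ‖s 0 - c‖ < 1 ∧
      ∀ m, ‖s (m + 1) - c‖ < ‖s m - c‖ / 4 := by
  let T := {s : ℂ // s ∈ Θ ∧ 0 < ‖s - c‖}
  have hstep : ∀ t : T, ∃ u : T, ‖u.1 - c‖ < ‖t.1 - c‖ / 4 := by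
    intro t
    obtain ⟨s, hs, h0, h1⟩ := hc (‖t.1 - c‖ / 4) (by have := t.2.2; positivity)
    exact ⟨⟨s, hs, h0⟩, h1⟩
  choose f hf using hstep
  obtain ⟨s0, hs0, h00, h01⟩ := hc 1 one_pos
  let t : ℕ → T := fun n => Nat.rec ⟨s0, hs0, h00⟩ (fun _ t => f t) n
  refine ⟨fun n => (t n).1, fun m => (t m).2.1, fun m => (t m).2.2, h01, ?_⟩
  intro m
  exact hf (t m)

/-- disjoint small discs around points of an infinite subset of the circle -/
theorem pts {Θ : Set ℂ} (hΘ : Θ.Infinite) (h1 : ∀ s ∈ Θ, ‖s‖ = 1) :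
    ∃ (s : ℕ → ℂ) (ρ : ℕ → ℝ), (∀ m, s m ∈ Θ) ∧ (∀ m, 0 < ρ m) ∧ Tendsto ρ atTop (𝓝 0) ∧
      ∀ m l, m ≠ l → ∀ z : ℂ, ‖z - s m‖ < ρ m → ρ l ≤ ‖z - s l‖ := by
  have hsub : Θ ⊆ sphere (0 : ℂ) 1 := by
    intro s hs
    simpa using h1 s hs
  obtain ⟨c, _, hc⟩ := hΘ.exists_accPt_of_subset_isCompact (isCompact_sphere (0 : ℂ) 1) hsub
  rw [accPt_iff_nhds] at hc
  have hc' : ∀ η > 0, ∃ s ∈ Θ, 0 < ‖s - c‖ ∧ ‖s - c‖ < η := by
    intro η hη
    obtain ⟨y, ⟨hy1, hy2⟩, hy3⟩ := hc (ball c η) (ball_mem_nhds c hη)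
    refine ⟨y, hy2, ?_, ?_⟩
    · rw [norm_pos_iff]
      exact sub_ne_zero.2 hy3
    · rw [← dist_eq_norm]
      exact hy1
  obtain ⟨s, hs, h0, h01, hst⟩ := pts_rec c hc'
  have hlt : ∀ m l, m < l → ‖s l - c‖ < ‖s m - c‖ / 4 := by
    intro m l hml
    induction l, hml using Nat.le_induction with
    | base => exact hst m
    | succ l _ ih =>
      have h2 := hst l
      have h3 := h0 l
      linarith
  have hgeo : ∀ m, ‖s m - c‖ ≤ (1 / 4 : ℝ) ^ m := by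
    intro m
    induction m with
    | zero => simpa using h01.le
    | succ m ih =>
      have h2 := hst m
      rw [pow_succ]
      linarith
  refine ⟨s, fun m => ‖s m - c‖ / 4, hs, fun m => by have := h0 m; positivity, ?_, ?_⟩
  · have hz : Tendsto (fun m : ℕ => (1 / 4 : ℝ) ^ m) atTop (𝓝 0) :=
      tendsto_pow_atTop_nhds_zero_of_lt_one (by norm_num) (by norm_num)
    refine squeeze_zero (fun m => by positivity) (fun m => ?_) hz
    have h2 := hgeo m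
    have h3 := (h0 m).le
    linarith
  · intro m l hml z hz
    have e1 : ‖s m - c‖ ≤ ‖z - s m‖ + ‖z - s l‖ + ‖s l - c‖ := by
      have e : s m - c = -(z - s m) + (z - s l) + (s l - c) := by ring
      calc ‖s m - c‖ = ‖-(z - s m) + (z - s l) + (s l - c)‖ := by rw [← e]
        _ ≤ ‖-(z - s m) + (z - s l)‖ + ‖s l - c‖ := norm_add_le _ _
        _ ≤ ‖-(z - s m)‖ + ‖z - s l‖ + ‖s l - c‖ := by
          have := norm_add_le (-(z - s m)) (z - s l)
          linarith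
        _ = ‖z - s m‖ + ‖z - s l‖ + ‖s l - c‖ := by rw [norm_neg]
    have e2 : ‖s l - c‖ ≤ ‖z - s l‖ + ‖z - s m‖ + ‖s m - c‖ := by
      have e : s l - c = -(z - s l) + (z - s m) + (s m - c) := by ring
      calc ‖s l - c‖ = ‖-(z - s l) + (z - s m) + (s m - c)‖ := by rw [← e]
        _ ≤ ‖-(z - s l) + (z - s m)‖ + ‖s m - c‖ := norm_add_le _ _
        _ ≤ ‖-(z - s l)‖ + ‖z - s m‖ + ‖s m - c‖ := by
          have := norm_add_le (-(z - s l)) (z - s m)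
          linarith
        _ = ‖z - s l‖ + ‖z - s m‖ + ‖s m - c‖ := by rw [norm_neg]
    simp only at hz ⊢
    rcases lt_or_gt_of_ne hml with h | h
    · have h2 := hlt m l h
      have h3 := h0 m
      linarith
    · have h2 := hlt l m h
      have h3 := h0 l
      have h4 := h0 m
      linarith

end Pool.Agent.Helper621.DAP
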