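import Mathlib

set_option autoImplicit false

open Complex Metric Set Filter Topology Classical ZeroAtInfty

namespace Pool.Agent.Helper621.DAP


theorem rec_choice {α : Type} [Inhabited α] (P : ℕ → (ℕ → α) → α → Prop)
    (hP : ∀ m p, ∃ a, P m p a)
    (hdep : ∀ m p q a, (∀ l < m, p l = q l) → P m p a → P m q a) :
    ∃ f : ℕ → α, ∀ m, P m f (f m) := by
  choose g hg using hP
  let G : (m : ℕ) → ((l : ℕ) → l < m → α) → α :=
    fun m ih => g m (fun l => if h : l < m then ih l h else default)
  let f : ℕ → α := fun m => WellFounded.fix (r := fun a b : ℕ => a < b) Nat.lt_wfRel.wf G m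
  have hf : ∀ m, f m = g m (fun l => if l < m then f l else default) := by
    intro m
    have h1 : f m = G m (fun l _ => f l) := WellFounded.fix_eq _ _ _
    rw [h1]
    simp only [G]
    congr 1
  refine ⟨f, fun m => hdep m (fun l => if l < m then f l else default) f (f m) ?_ ?_⟩
  · intro l hl
    simp [hl]
  · have := hg m (fun l => if l < m then f l else default)
    rw [← hf m] at this
    exact this

end Pool.Agent.Helper621.DAP
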