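import Pool.Agent.Helper621.HIP.Defs
import Pool.Agent.Helper621.HIP.P_pts
import Pool.Agent.Helper621.HIP.P_pk_small
import Pool.Agent.Helper621.HIP.P_pk_sum
import Pool.Agent.Helper621.HIP.P_rec_choice

set_option autoImplicit false

open Complex Metric Set Filter Topology Classical ZeroAtInfty

namespace Pool.Agent.Helper621.DAP


/-- choice of the blocks -/
theorem blocks (S : DA →L[ℂ] HI) {Θ : Set ℂ} (hΘ : Θ.Infinite) (hΘ1 : ∀ s ∈ Θ, ‖s‖ = 1)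
    (D : ℂ → ℂ) (hD : ∀ s ∈ Θ, 1 / 2 ≤ ‖D s‖) (hL : ∀ s ∈ Θ, Loc S s (D s))
    (N : ℕ → ℕ) (Z : ℕ → Finset ℂ) (hZ : ∀ m, ∀ z ∈ Z m, z ∈ ball (0:ℂ) 1)
    (ε : ℕ → ℝ) (hε : ∀ m, 0 < ε m) :
    ∃ (s : ℕ → ℂ) (n : ℕ → ℕ) (a : ℕ → ℝ),
      (∀ m, ‖s m‖ = 1 ∧ 0 < a m ∧ a m < 1 ∧ 1 / 2 ≤ ‖D (s m)‖) ∧
      (∀ z ∈ ball (0:ℂ) 1, ∀ F : Finset ℕ, ∑ m ∈ F, ‖ev (pk (s m) (n m)) z‖ ≤ 2) ∧
      (∀ r : ℝ, r < 1 → ∃ m0, ∀ m ≥ m0, ∀ z : ℂ, ‖z‖ ≤ r →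
        ‖ev (pk (s m) (n m)) z‖ ≤ (1 / 2) ^ m) ∧
      (∀ m, ∀ k < N m, ∀ z ∈ Z m,
        ‖evH (S (mulL (pk (s m) (n m)) (cmp (moI (s m) (a m)) (mon (k + 1)))))
          (mo (s m) (a m) z) - D (s m) * z ^ (k + 1)‖ ≤ ε m) ∧
      (∀ m, ∀ l < m, ∀ k < N l, ∀ z ∈ Z m,
        ‖evH (S (mulL (pk (s l) (n l)) (cmp (moI (s l) (a l)) (mon (k + 1)))))
          (mo (s m) (a m) z) -
         evH (S (mulL (pk (s l) (n l)) (cmp (moI (s l) (a l)) (mon (k + 1)))))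
          (mo (s m) (a m) 0)‖ ≤ ε m) := by
  obtain ⟨s, ρ, hsΘ, hρ, hρ0, hd⟩ := pts hΘ hΘ1
  choose N1 hN1 using fun m => (hL (s m) (hsΘ m)).diag (ε m) (hε m)
  choose N2 hN2 using fun m => pk_small (hΘ1 _ (hsΘ m)) (hρ m)
    (show (0:ℝ) < (1/2)^(m+1) by positivity)
  let n : ℕ → ℕ := fun m => max (N1 m) (N2 m)
  have pkS := pk_sum s ρ n (fun m => hΘ1 _ (hsΘ m)) hρ hρ0 hd
    (fun m z hz h => hN2 m (n m) (le_max_right _ _) z hz h)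
  have hmon : ∀ k : ℕ, ‖mon k‖ ≤ 1 := by
    intro k
    apply norm_le_of _ zero_le_one
    intro z hz
    rw [ev_mon _ _ hz, norm_pow]
    rw [mem_closedBall, dist_zero_right] at hz
    exact pow_le_one₀ (norm_nonneg _) hz
  let q : ℕ → ℝ → ℕ → DA := fun l x k => mulL (pk (s l) (n l)) (cmp (moI (s l) x) (mon (k + 1)))
  let P : ℕ → (ℕ → ℝ) → ℝ → Prop := fun m p x => 0 < x ∧ x < 1 ∧
    (∀ k < N m, ∀ z ∈ Z m, ‖evH (S (q m x k)) (mo (s m) x z) - D (s m) * z ^ (k + 1)‖ ≤ ε m) ∧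
    (∀ l < m, ∀ k < N l, ∀ z ∈ Z m,
      ‖evH (S (q l (p l) k)) (mo (s m) x z) - evH (S (q l (p l) k)) (mo (s m) x 0)‖ ≤ ε m)
  have hP : ∀ m p, ∃ x, P m p x := by
    intro m p
    have E1 : ∀ᶠ x : ℝ in 𝓝[<] 1, x ∈ Ioo (0:ℝ) 1 := Ioo_mem_nhdsLT zero_lt_one
    have E2 : ∀ᶠ x : ℝ in 𝓝[<] 1, ∀ k ∈ Finset.range (N m), ∀ z ∈ Z m,
        ‖evH (S (q m x k)) (mo (s m) x z) - D (s m) * z ^ (k + 1)‖ ≤ ε m := by
      rw [Filter.eventually_all_finset]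
      intro k _
      rw [Filter.eventually_all_finset]
      intro z hz
      have h := hN1 m (n m) (le_max_left _ _) (mon (k + 1)) (hmon _) z (hZ m z hz)
      rw [ev_mon _ _ (ball_subset_closedBall (hZ m z hz))] at h
      exact h
    have E3 : ∀ᶠ x : ℝ in 𝓝[<] 1, ∀ l ∈ Finset.range m, ∀ k ∈ Finset.range (N l), ∀ z ∈ Z m,
        ‖evH (S (q l (p l) k)) (mo (s m) x z) - evH (S (q l (p l) k)) (mo (s m) x 0)‖ ≤ ε m := by
      rw [Filter.eventually_all_finset]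
      intro l _
      rw [Filter.eventually_all_finset]
      intro k _
      rw [Filter.eventually_all_finset]
      intro z hz
      have h := (hL (s m) (hsΘ m)).flat (q l (p l) k) z (hZ m z hz)
      have h2 := (Metric.tendsto_nhds.1 h) (ε m) (hε m)
      filter_upwards [h2] with x hx
      rw [dist_zero_right] at hx
      exact hx.le
    obtain ⟨x, hx1, hx2, hx3⟩ := (E1.and (E2.and E3)).exists
    exact ⟨x, hx1.1, hx1.2, fun k hk z hz => hx2 k (Finset.mem_range.2 hk) z hz,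
      fun l hl k hk z hz => hx3 l (Finset.mem_range.2 hl) k (Finset.mem_range.2 hk) z hz⟩
  have hdep : ∀ m p p' x, (∀ l < m, p l = p' l) → P m p x → P m p' x := by
    intro m p p' x hpp h
    refine ⟨h.1, h.2.1, h.2.2.1, fun l hl k hk z hz => ?_⟩
    have := h.2.2.2 l hl k hk z hz
    rw [hpp l hl] at this
    exact this
  obtain ⟨a, ha⟩ := rec_choice P hP hdep
  exact ⟨s, n, a, fun m => ⟨hΘ1 _ (hsΘ m), (ha m).1, (ha m).2.1, hD _ (hsΘ m)⟩, pkS.1, pkS.2,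
    fun m => (ha m).2.2.1, fun m => (ha m).2.2.2⟩

end Pool.Agent.Helper621.DAP
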