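import Pool.Agent.Helper621.HIP.Defs

set_option autoImplicit false

open Complex Metric Set Filter Topology Classical ZeroAtInfty

namespace Pool.Agent.Helper621.DAP


/-- finite sets exhausting a countable dense subset of the punctured disc -/
theorem densZ : ∃ Z : ℕ → Finset ℂ, (∀ m, ∀ z ∈ Z m, z ∈ ball (0:ℂ) 1 ∧ z ≠ 0) ∧ Monotone Z ∧
    (∀ F G : HI, (∀ m, ∀ z ∈ Z m, evH F z = evH G z) → F = G) := by
  refine ⟨fun m => ((Finset.range m).image (TopologicalSpace.denseSeq ℂ)).filter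
    (fun z => z ∈ ball (0:ℂ) 1 ∧ z ≠ 0), ?_, ?_, ?_⟩
  · intro m z hz
    exact (Finset.mem_filter.1 hz).2
  · intro m m' h
    exact Finset.filter_subset_filter _ (Finset.image_subset_image (Finset.range_mono h))
  · intro F G h
    apply evH_ext
    intro z₀ hz₀
    by_contra hne
    have hc : ContinuousOn (fun z => evH F z - evH G z) (ball (0:ℂ) 1) :=
      (evH_diff F).continuousOn.sub (evH_diff G).continuousOn
    have hO : IsOpen (ball (0:ℂ) 1 ∩ (fun z => evH F z - evH G z) ⁻¹' ({0}ᶜ : Set ℂ)) :=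
      hc.isOpen_inter_preimage isOpen_ball isOpen_compl_singleton
    have hd := (TopologicalSpace.denseRange_denseSeq ℂ).diff_singleton (0:ℂ)
    obtain ⟨w, hw1, hw2⟩ := hd.inter_open_nonempty _ hO
      ⟨z₀, hz₀, fun h0 => hne (sub_eq_zero.1 h0)⟩
    obtain ⟨⟨k, rfl⟩, hk0⟩ := hw2
    apply hw1.2
    show evH F _ - evH G _ = 0
    rw [sub_eq_zero]
    refine h (k + 1) _ (Finset.mem_filter.2 ⟨Finset.mem_image.2 ⟨k, by simp, rfl⟩, hw1.1, hk0⟩)

end Pool.Agent.Helper621.DAP
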