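import Pool.Agent.Helper621.HIP.Defs
import Pool.Agent.Helper621.HIP.P_pk_facts

set_option autoImplicit false

open Complex Metric Set Filter Topology Classical ZeroAtInfty

namespace Pool.Agent.Helper621.DAP


theorem mulL_one (h : DA) : mulL h one = h := by
  apply ev_ext
  intro z hz
  rw [ev_mulL _ _ z hz, ev_one z hz, mul_one]

theorem mulL_comm (h g : DA) : mulL h g = mulL g h := by
  apply ev_ext
  intro z hz
  rw [ev_mulL _ _ z hz, ev_mulL _ _ z hz, mul_comm]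

theorem dlim_aux (τ : ℝ → DA →L[ℂ] ℂ) {ε : ℝ} {N : ℕ} {t : ℝ} (ht : t ∈ KK τ ε N) {n m : ℕ}
    (hn : N ≤ n) : ‖τ t (mulL (pk (ei t) n) (pk (ei t) m)) - τ t (pk (ei t) n)‖ ≤ ε := by
  obtain ⟨_, h1, h2⟩ := pk_facts m
  have h := ht n hn (pk (ei t) m) (h1 t)
  rw [h2 t, one_smul, map_sub, mulL_one, map_sub] at h
  exact h

theorem dlim (τ : ℝ → DA →L[ℂ] ℂ) {ε : ℝ} {N : ℕ} {t : ℝ} (ht : t ∈ KK τ ε N) {n m : ℕ}
    (hn : N ≤ n) (hm : N ≤ m) : ‖τ t (pk (ei t) n) - τ t (pk (ei t) m)‖ ≤ 2 * ε := by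
  have h1 := dlim_aux τ ht (m := m) hn
  have h2 := dlim_aux τ ht (m := n) hm
  rw [mulL_comm] at h2
  have h3 : τ t (pk (ei t) n) - τ t (pk (ei t) m) =
      (τ t (mulL (pk (ei t) n) (pk (ei t) m)) - τ t (pk (ei t) m)) -
      (τ t (mulL (pk (ei t) n) (pk (ei t) m)) - τ t (pk (ei t) n)) := by ring
  rw [h3]
  exact (norm_sub_le _ _).trans (by linarith)

end Pool.Agent.Helper621.DAP
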