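import Pool.Agent.Helper621.HIP.Defs

set_option autoImplicit false

open Complex Metric Set Filter Topology Classical ZeroAtInfty

namespace Pool.Agent.Helper621.DAP


theorem qB_diff {φ : ℂ → ℂ} (hφ : Inner φ) (G : HI) :
    DifferentiableOn ℂ (fun z => evH G (φ z)) (ball (0:ℂ) 1) :=
  (evH_diff G).comp hφ.isDA.2 hφ.mapsB

theorem qB_diff' {φ : ℂ → ℂ} (hφ : Inner φ) (G : HI) :
    DifferentiableOn ℂ (dslope (fun z => evH G (φ z)) 0) (ball (0:ℂ) 1) :=
  (Complex.differentiableOn_dslope (ball_mem_nhds 0 one_pos)).2 (qB_diff hφ G)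

theorem qB_bd {φ : ℂ → ℂ} (hφ : Inner φ) (G : HI) (z : ℂ) (hz : z ∈ ball (0:ℂ) 1) :
    ‖dslope (fun z => evH G (φ z)) 0 z‖ ≤ 2 * ‖G‖ := by
  have h1 := Complex.norm_dslope_le_div_of_mapsTo_ball (R₂ := 2 * ‖G‖) (qB_diff hφ G) (by
    intro w _
    rw [mem_closedBall, dist_eq_norm]
    have h2 := norm_sub_le (evH G (φ w)) (evH G (φ 0))
    have h3 := norm_evH_le G (φ w)
    have h4 := norm_evH_le G (φ 0)
    linarith) hz
  rwa [div_one] at h1

theorem qB_add (f g : ℂ → ℂ) (hf : DifferentiableAt ℂ f 0) (hg : DifferentiableAt ℂ g 0) (z : ℂ) :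
    dslope (fun z => f z + g z) 0 z = dslope f 0 z + dslope g 0 z := by
  rcases eq_or_ne z 0 with rfl | hne
  · rw [dslope_same, dslope_same, dslope_same]
    exact deriv_add hf hg
  · rw [dslope_of_ne _ hne, dslope_of_ne _ hne, dslope_of_ne _ hne, slope_def_field,
      slope_def_field, slope_def_field]
    ring

theorem qB_smul (f : ℂ → ℂ) (hf : DifferentiableAt ℂ f 0) (c z : ℂ) :
    dslope (fun z => c * f z) 0 z = c * dslope f 0 z := by
  rcases eq_or_ne z 0 with rfl | hne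
  · rw [dslope_same, dslope_same]
    exact deriv_const_mul c hf
  · rw [dslope_of_ne _ hne, dslope_of_ne _ hne, slope_def_field, slope_def_field]
    ring

/-- the block operators `G ↦ (G∘φ - G(φ 0))/(d z)` -/
theorem quotB {φ : ℂ → ℂ} (hφ : Inner φ) {d : ℂ} (hd : 1 / 2 ≤ ‖d‖) :
    ∃ B : HI →L[ℂ] HI, (∀ G, ‖B G‖ ≤ 4 * ‖G‖) ∧ ∀ G, ∀ z ∈ ball (0:ℂ) 1, z ≠ 0 →
      evH (B G) z = d⁻¹ * ((evH G (φ z) - evH G (φ 0)) / z) := by
  have hat : ∀ G : HI, DifferentiableAt ℂ (fun z => evH G (φ z)) 0 := fun G =>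
    (qB_diff hφ G).differentiableAt (ball_mem_nhds 0 one_pos)
  have hdi : ‖d⁻¹‖ ≤ 2 := by
    rw [norm_inv]
    have h1 : (0 : ℝ) < 1 / 2 := by norm_num
    have h2 := inv_anti₀ h1 hd
    norm_num at h2
    exact h2
  let L : HI →ₗ[ℂ] HI :=
    { toFun := fun G => d⁻¹ • mkH (dslope (fun z => evH G (φ z)) 0) (qB_diff' hφ G) (2 * ‖G‖)
        (qB_bd hφ G)
      map_add' := by
        intro x y
        apply evH_ext
        intro z hz
        rw [evH_add, evH_smul, evH_smul, evH_smul, evH_mkH _ _ _ _ z hz, evH_mkH _ _ _ _ z hz,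
          evH_mkH _ _ _ _ z hz]
        have e1 : (fun z => evH (x + y) (φ z)) = fun z => evH x (φ z) + evH y (φ z) := by
          funext z
          rw [evH_add]
        rw [e1, qB_add _ _ (hat x) (hat y)]
        ring
      map_smul' := by
        intro c x
        apply evH_ext
        intro z hz
        rw [RingHom.id_apply, evH_smul, evH_smul, evH_smul, evH_mkH _ _ _ _ z hz,
          evH_mkH _ _ _ _ z hz]
        have e1 : (fun z => evH (c • x) (φ z)) = fun z => c * evH x (φ z) := by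
          funext z
          rw [evH_smul]
        rw [e1, qB_smul _ (hat x)]
        ring }
  have hL : ∀ G, ∀ z ∈ ball (0:ℂ) 1, evH (L G) z = d⁻¹ * dslope (fun z => evH G (φ z)) 0 z := by
    intro G z hz
    show evH (d⁻¹ • mkH (dslope (fun z => evH G (φ z)) 0) (qB_diff' hφ G) (2 * ‖G‖)
        (qB_bd hφ G)) z = _
    rw [evH_smul, evH_mkH _ _ _ _ z hz]
  have hLn : ∀ G, ‖L G‖ ≤ 4 * ‖G‖ := by
    intro G
    apply normH_le_of _ (by positivity)
    intro z hz
    rw [hL G z hz, norm_mul]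
    have h1 := qB_bd hφ G z hz
    have h2 : ‖d⁻¹‖ * ‖dslope (fun z => evH G (φ z)) 0 z‖ ≤ 2 * (2 * ‖G‖) :=
      mul_le_mul hdi h1 (norm_nonneg _) (by norm_num)
    linarith
  refine ⟨L.mkContinuous 4 hLn, fun G => hLn G, fun G z hz hz0 => ?_⟩
  have h3 : evH ((L.mkContinuous 4 hLn) G) z = evH (L G) z := rfl
  rw [h3, hL G z hz, dslope_of_ne _ hz0, slope_def_field, sub_zero]

end Pool.Agent.Helper621.DAP
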