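import Pool.Agent.Helper621.HIP.Defs

set_option autoImplicit false

open Complex Metric Set Filter Topology Classical ZeroAtInfty

namespace Pool.Agent.Helper621.DAP


theorem sumA_tm (h : ℕ → DA) (V : ℕ → HI →L[ℂ] DA) (hV : ∀ m x, ‖V m x‖ ≤ 2 * ‖x‖)
    (y : BoundedContinuousFunction ℕ HI) (m : ℕ) (z : ℂ) :
    ‖ev (h m) z * ev (V m (y m)) z‖ ≤ ‖ev (h m) z‖ * (2 * ‖y‖) := by
  rw [norm_mul]
  apply mul_le_mul_of_nonneg_left _ (norm_nonneg _)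
  calc ‖ev (V m (y m)) z‖ ≤ ‖V m (y m)‖ := norm_ev_le _ _
    _ ≤ 2 * ‖y m‖ := hV _ _
    _ ≤ 2 * ‖y‖ := by
        have := y.norm_coe_le_norm m
        linarith

theorem sumA_sm (h : ℕ → DA) (hs : ∀ z ∈ ball (0:ℂ) 1, ∀ F : Finset ℕ, ∑ m ∈ F, ‖ev (h m) z‖ ≤ 2)
    (z : ℂ) (hz : z ∈ ball (0:ℂ) 1) : Summable fun m => ‖ev (h m) z‖ :=
  summable_of_sum_le (fun _ => norm_nonneg _) (hs z hz)

theorem sumA_sm2 (h : ℕ → DA) (V : ℕ → HI →L[ℂ] DA) (hV : ∀ m x, ‖V m x‖ ≤ 2 * ‖x‖)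
    (hs : ∀ z ∈ ball (0:ℂ) 1, ∀ F : Finset ℕ, ∑ m ∈ F, ‖ev (h m) z‖ ≤ 2)
    (y : BoundedContinuousFunction ℕ HI) (z : ℂ) (hz : z ∈ ball (0:ℂ) 1) :
    Summable fun m => ev (h m) z * ev (V m (y m)) z :=
  Summable.of_norm_bounded ((sumA_sm h hs z hz).mul_right (2 * ‖y‖)) (sumA_tm h V hV y · z)

theorem sumA_bd (h : ℕ → DA) (V : ℕ → HI →L[ℂ] DA) (hV : ∀ m x, ‖V m x‖ ≤ 2 * ‖x‖)
    (hs : ∀ z ∈ ball (0:ℂ) 1, ∀ F : Finset ℕ, ∑ m ∈ F, ‖ev (h m) z‖ ≤ 2)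
    (y : BoundedContinuousFunction ℕ HI) (z : ℂ) (hz : z ∈ ball (0:ℂ) 1) :
    ‖∑' m, ev (h m) z * ev (V m (y m)) z‖ ≤ 4 * ‖y‖ := by
  have h1 := (sumA_sm h hs z hz)
  have h2 : ∑' m, ‖ev (h m) z‖ ≤ 2 := h1.tsum_le_of_sum_le (hs z hz)
  have h3 : Summable fun m => ‖ev (h m) z * ev (V m (y m)) z‖ :=
    Summable.of_nonneg_of_le (fun _ => norm_nonneg _) (sumA_tm h V hV y · z)
      (h1.mul_right (2 * ‖y‖))
  calc ‖∑' m, ev (h m) z * ev (V m (y m)) z‖ ≤ ∑' m, ‖ev (h m) z * ev (V m (y m)) z‖ :=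
        norm_tsum_le_tsum_norm h3
    _ ≤ ∑' m, ‖ev (h m) z‖ * (2 * ‖y‖) :=
        h3.tsum_le_tsum (sumA_tm h V hV y · z) (h1.mul_right (2 * ‖y‖))
    _ = (∑' m, ‖ev (h m) z‖) * (2 * ‖y‖) := tsum_mul_right
    _ ≤ 2 * (2 * ‖y‖) := mul_le_mul_of_nonneg_right h2 (by positivity)
    _ = 4 * ‖y‖ := by ring

theorem sumA_diff (h : ℕ → DA) (V : ℕ → HI →L[ℂ] DA) (hV : ∀ m x, ‖V m x‖ ≤ 2 * ‖x‖)
    (hs : ∀ z ∈ ball (0:ℂ) 1, ∀ F : Finset ℕ, ∑ m ∈ F, ‖ev (h m) z‖ ≤ 2)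
    (hl : ∀ ρ : ℝ, ρ < 1 → ∃ m0, ∀ m ≥ m0, ∀ z : ℂ, ‖z‖ ≤ ρ → ‖ev (h m) z‖ ≤ (1 / 2) ^ m)
    (y : BoundedContinuousFunction ℕ HI) :
    DifferentiableOn ℂ (fun z => ∑' m, ev (h m) z * ev (V m (y m)) z) (ball (0:ℂ) 1) := by
  intro z0 hz0
  obtain ⟨ρ, h1, h2⟩ := exists_between (mem_ball_zero_iff.1 hz0)
  obtain ⟨m0, hm0⟩ := hl ρ h2
  have hb : ∀ m, ∀ z ∈ ball (0:ℂ) ρ, ‖ev (h m) z‖ ≤ 2 * 2 ^ m0 * (1 / 2) ^ m := by
    intro m z hz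
    have hz1 : ‖z‖ < ρ := mem_ball_zero_iff.1 hz
    by_cases hm : m0 ≤ m
    · calc ‖ev (h m) z‖ ≤ (1 / 2) ^ m := hm0 m hm z hz1.le
        _ ≤ 2 * 2 ^ m0 * (1 / 2) ^ m := by
          have h4 : (1:ℝ) ≤ 2 * 2 ^ m0 := by
            have : (1:ℝ) ≤ 2 ^ m0 := one_le_pow₀ (by norm_num)
            linarith
          have h5 : (0:ℝ) ≤ (1 / 2) ^ m := by positivity
          nlinarith
    · push Not at hm
      have h3 : ‖ev (h m) z‖ ≤ 2 := by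
        have := hs z (mem_ball_zero_iff.2 (hz1.trans h2)) {m}
        simpa using this
      have h4 : (1:ℝ) ≤ 2 ^ m0 * (1 / 2) ^ m := by
        have h5 : (2:ℝ) ^ m ≤ 2 ^ m0 := pow_le_pow_right₀ (by norm_num) hm.le
        have h6 : (2:ℝ) ^ m * (1 / 2) ^ m = 1 := by
          rw [← mul_pow]; norm_num
        have h7 : (0:ℝ) ≤ (1 / 2) ^ m := by positivity
        exact h6.symm.le.trans (mul_le_mul_of_nonneg_right h5 h7)
      calc ‖ev (h m) z‖ ≤ 2 := h3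
        _ ≤ 2 * (2 ^ m0 * (1 / 2) ^ m) := by linarith
        _ = 2 * 2 ^ m0 * (1 / 2) ^ m := by ring
  have hd : DifferentiableOn ℂ (fun z => ∑' m, ev (h m) z * ev (V m (y m)) z) (ball (0:ℂ) ρ) := by
    have hsub : ball (0:ℂ) ρ ⊆ ball (0:ℂ) 1 := ball_subset_ball h2.le
    refine differentiableOn_tsum_of_summable_norm
      (u := fun m => 2 * 2 ^ m0 * (1 / 2) ^ m * (2 * ‖y‖)) ?_ ?_ isOpen_ball ?_
    · exact ((summable_geometric_of_lt_one (by norm_num) (by norm_num)).mul_left _).mul_right _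
    · intro m
      exact ((ev_isDA (h m)).2.mono hsub).mul ((ev_isDA (V m (y m))).2.mono hsub)
    · intro m z hz
      exact (sumA_tm h V hV y m z).trans
        (mul_le_mul_of_nonneg_right (hb m z hz) (by positivity))
  exact (hd.differentiableAt (isOpen_ball.mem_nhds (mem_ball_zero_iff.2 h1))).differentiableWithinAt

/-- the sum operator -/
theorem sumA (h : ℕ → DA) (V : ℕ → HI →L[ℂ] DA) (hV : ∀ m x, ‖V m x‖ ≤ 2 * ‖x‖)
    (hs : ∀ z ∈ ball (0:ℂ) 1, ∀ F : Finset ℕ, ∑ m ∈ F, ‖ev (h m) z‖ ≤ 2)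
    (hl : ∀ ρ : ℝ, ρ < 1 → ∃ m0, ∀ m ≥ m0, ∀ z : ℂ, ‖z‖ ≤ ρ → ‖ev (h m) z‖ ≤ (1 / 2) ^ m) :
    ∃ A : BoundedContinuousFunction ℕ HI →L[ℂ] HI,
      ∀ m x, A (sg m x) = rho (mulL (h m) (V m x)) := by
  have hA : ∀ y : BoundedContinuousFunction ℕ HI, ∀ z, (hz : z ∈ ball (0:ℂ) 1) →
      evH (mkH _ (sumA_diff h V hV hs hl y) _ (sumA_bd h V hV hs y)) z
        = ∑' m, ev (h m) z * ev (V m (y m)) z := fun y z hz => evH_mkH _ _ _ _ z hz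
  refine ⟨LinearMap.mkContinuous
    { toFun := fun y => mkH _ (sumA_diff h V hV hs hl y) _ (sumA_bd h V hV hs y)
      map_add' := ?_
      map_smul' := ?_ } 4 ?_, ?_⟩
  · intro x y
    apply evH_ext
    intro z hz
    rw [evH_add, hA _ z hz, hA _ z hz, hA _ z hz,
      ← (sumA_sm2 h V hV hs x z hz).tsum_add (sumA_sm2 h V hV hs y z hz)]
    apply tsum_congr
    intro m
    rw [BoundedContinuousFunction.coe_add, Pi.add_apply, map_add, ev_add]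
    ring
  · intro c x
    apply evH_ext
    intro z hz
    rw [RingHom.id_apply, evH_smul, hA _ z hz, hA _ z hz, ← tsum_mul_left]
    apply tsum_congr
    intro m
    rw [BoundedContinuousFunction.coe_smul, map_smul, ev_smul]
    ring
  · intro y
    apply normH_le_of _ (by positivity)
    intro z hz
    simp only [LinearMap.coe_mk, AddHom.coe_mk]
    rw [hA _ z hz]
    exact sumA_bd h V hV hs y z hz
  · intro m x
    apply evH_ext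
    intro z hz
    simp only [LinearMap.mkContinuous_apply, LinearMap.coe_mk, AddHom.coe_mk]
    rw [hA _ z hz, evH_rho _ _ hz, ev_mulL _ _ _ (ball_subset_closedBall hz),
      tsum_eq_single m]
    · rw [sg_apply, if_pos rfl]
    · intro n hn
      rw [sg_apply, if_neg hn, map_zero, ev_zero, mul_zero]

end Pool.Agent.Helper621.DAP
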