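import Pool.Agent.Helper621.HIP.Defs
import Pool.Agent.Helper621.HIP.P_coefs

set_option autoImplicit false

open Complex Metric Set Filter Topology Classical ZeroAtInfty

namespace Pool.Agent.Helper621.DAP


theorem ev_sum_mon (a : ℕ → ℂ) (z : ℂ) (hz : z ∈ closedBall (0:ℂ) 1) (n : ℕ) :
    ev (∑ k ∈ Finset.range n, a k • mon (k + 1)) z
      = z * ∑ k ∈ Finset.range n, a k * z ^ k := by
  induction n with
  | zero => simp [ev_zero]
  | succ n ih =>
    rw [Finset.sum_range_succ, Finset.sum_range_succ, ev_add, ih, ev_smul, ev_mon _ _ hz]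
    ring

theorem trunc_tail (c : ℕ → HI →L[ℂ] ℂ) (hc : ∀ k x, ‖c k x‖ ≤ ‖x‖)
    (hs : ∀ (x : HI), ∀ z ∈ ball (0:ℂ) 1, HasSum (fun k => c k x * z ^ k) (evH x z))
    (r : ℝ) (h0 : 0 < r) (h1 : r < 1) (x : HI) (z : ℂ) (hz : z ∈ closedBall (0:ℂ) 1) (n : ℕ) :
    ‖∑ k ∈ Finset.range n, (((r : ℂ) ^ k) • c k) x * z ^ k - evH x (r * z)‖
      ≤ ‖x‖ * r ^ n / (1 - r) := by
  rw [mem_closedBall_zero_iff] at hz
  have hmem : (r : ℂ) * z ∈ ball (0:ℂ) 1 := by
    rw [mem_ball_zero_iff, norm_mul, Complex.norm_real, Real.norm_of_nonneg h0.le]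
    nlinarith [norm_nonneg z]
  have h2 := (hs x _ hmem).tendsto_sum_nat
  have h3 := dist_le_of_le_geometric_of_tendsto r ‖x‖ h1 (fun n => by
    rw [Finset.sum_range_succ, dist_eq_norm, sub_add_cancel_left, norm_neg, norm_mul, norm_pow,
      norm_mul, Complex.norm_real, Real.norm_of_nonneg h0.le]
    have h4 : (r * ‖z‖) ^ n ≤ r ^ n := by
      apply pow_le_pow_left₀ (by positivity)
      nlinarith [norm_nonneg z]
    exact mul_le_mul (hc n x) h4 (by positivity) (norm_nonneg _)) h2 n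
  rw [dist_eq_norm] at h3
  refine le_trans (le_of_eq ?_) h3
  congr 2
  refine Finset.sum_congr rfl fun k _ => ?_
  rw [ContinuousLinearMap.smul_apply, smul_eq_mul, mul_pow]
  ring

/-- finite rank approximations of the identity -/
theorem trunc : ∃ (N : ℕ → ℕ) (c : ℕ → ℕ → HI →L[ℂ] ℂ), (∀ m k x, ‖c m k x‖ ≤ ‖x‖) ∧
    (∀ m x, ‖∑ k ∈ Finset.range (N m), c m k x • mon (k + 1)‖ ≤ 2 * ‖x‖) ∧
    (∀ x, ∀ z ∈ ball (0:ℂ) 1,
      Tendsto (fun m => ∑ k ∈ Finset.range (N m), c m k x * z ^ k) atTop (𝓝 (evH x z))) := by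
  obtain ⟨c, hc, hs⟩ := coefs
  let r : ℕ → ℝ := fun m => 1 - 1 / ((m : ℝ) + 2)
  have hr0 : ∀ m, 0 < r m := by
    intro m
    have h2 : (1:ℝ) / ((m : ℝ) + 2) < 1 := by
      rw [div_lt_one (by positivity)]
      have : (0:ℝ) ≤ m := Nat.cast_nonneg m
      linarith
    simp only [r]
    linarith
  have hr1 : ∀ m, r m < 1 := by
    intro m
    have : (0:ℝ) < 1 / ((m : ℝ) + 2) := by positivity
    simp only [r]
    linarith
  have hN : ∀ m : ℕ, ∃ N : ℕ, (r m) ^ N / (1 - r m) ≤ 1 / ((m : ℝ) + 1) := by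
    intro m
    have h2 : Tendsto (fun N : ℕ => (r m) ^ N / (1 - r m)) atTop (𝓝 (0 / (1 - r m))) :=
      (tendsto_pow_atTop_nhds_zero_of_lt_one (hr0 m).le (hr1 m)).div_const _
    rw [zero_div] at h2
    have h3 : (0:ℝ) < 1 / ((m : ℝ) + 1) := by positivity
    exact ((h2.eventually (gt_mem_nhds h3)).exists).imp fun N hN => hN.le
  choose N hN using hN
  have htail : ∀ m (x : HI) (z : ℂ), z ∈ closedBall (0:ℂ) 1 →
      ‖∑ k ∈ Finset.range (N m), ((((r m : ℝ) : ℂ) ^ k) • c k) x * z ^ k - evH x (r m * z)‖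
        ≤ ‖x‖ * (1 / ((m : ℝ) + 1)) := by
    intro m x z hz
    refine (trunc_tail c hc hs (r m) (hr0 m) (hr1 m) x z hz (N m)).trans ?_
    rw [mul_div_assoc]
    exact mul_le_mul_of_nonneg_left (hN m) (norm_nonneg _)
  have hm1 : ∀ m : ℕ, 1 / ((m : ℝ) + 1) ≤ 1 := by
    intro m
    rw [div_le_one (by positivity)]
    have : (0:ℝ) ≤ m := Nat.cast_nonneg m
    linarith
  refine ⟨N, fun m k => (((r m : ℝ) : ℂ) ^ k) • c k, ?_, ?_, ?_⟩
  · intro m k x
    rw [ContinuousLinearMap.smul_apply, norm_smul, norm_pow, Complex.norm_real,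
      Real.norm_of_nonneg (hr0 m).le]
    have h2 : (r m) ^ k ≤ 1 := pow_le_one₀ (hr0 m).le (hr1 m).le
    calc (r m) ^ k * ‖c k x‖ ≤ 1 * ‖c k x‖ := mul_le_mul_of_nonneg_right h2 (norm_nonneg _)
      _ ≤ ‖x‖ := by rw [one_mul]; exact hc k x
  · intro m x
    refine norm_le_of _ (by positivity) fun z hz => ?_
    rw [ev_sum_mon _ z hz, norm_mul]
    have h2 := htail m x z hz
    have h3 : ‖∑ k ∈ Finset.range (N m), ((((r m : ℝ) : ℂ) ^ k) • c k) x * z ^ k‖ ≤ 2 * ‖x‖ := by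
      have h4 := norm_evH_le x (r m * z)
      have h5 : ‖x‖ * (1 / ((m : ℝ) + 1)) ≤ ‖x‖ * 1 :=
        mul_le_mul_of_nonneg_left (hm1 m) (norm_nonneg _)
      have h6 := norm_sub_norm_le
        (∑ k ∈ Finset.range (N m), ((((r m : ℝ) : ℂ) ^ k) • c k) x * z ^ k) (evH x (r m * z))
      linarith
    have h7 : ‖z‖ ≤ 1 := mem_closedBall_zero_iff.1 hz
    calc ‖z‖ * _ ≤ 1 * (2 * ‖x‖) :=
          mul_le_mul h7 h3 (norm_nonneg _) zero_le_one
      _ = _ := one_mul _
  · intro x z hz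
    have hzc : z ∈ closedBall (0:ℂ) 1 := ball_subset_closedBall hz
    have hrl : Tendsto r atTop (𝓝 1) := by
      have h2 : Tendsto (fun m : ℕ => 1 / ((m : ℝ) + 2)) atTop (𝓝 0) := by
        have h3 : Tendsto (fun m : ℕ => (m : ℝ) + 2) atTop atTop :=
          tendsto_atTop_add_const_right _ _ tendsto_natCast_atTop_atTop
        exact Tendsto.const_div_atTop h3 1
      have h4 := h2.const_sub 1
      rw [sub_zero] at h4
      exact h4
    have hcont : Tendsto (fun m => evH x (r m * z)) atTop (𝓝 (evH x z)) := by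
      have h2 : ContinuousAt (evH x) z :=
        ((evH_diff x).differentiableAt (isOpen_ball.mem_nhds hz)).continuousAt
      have h3 : Tendsto (fun m => ((r m : ℝ) : ℂ) * z) atTop (𝓝 z) := by
        have h4 : Tendsto (fun m => ((r m : ℝ) : ℂ)) atTop (𝓝 ((1:ℝ) : ℂ)) :=
          (Complex.continuous_ofReal.tendsto 1).comp hrl
        have h5 := h4.mul_const z
        rw [Complex.ofReal_one, one_mul] at h5
        exact h5
      exact h2.tendsto.comp h3
    have hdiff : Tendsto (fun m => ∑ k ∈ Finset.range (N m),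
        ((((r m : ℝ) : ℂ) ^ k) • c k) x * z ^ k - evH x (r m * z)) atTop (𝓝 0) := by
      rw [tendsto_zero_iff_norm_tendsto_zero]
      have h2 : Tendsto (fun m : ℕ => ‖x‖ * (1 / ((m : ℝ) + 1))) atTop (𝓝 0) := by
        have h5 := (tendsto_one_div_add_atTop_nhds_zero_nat (𝕜 := ℝ)).const_mul ‖x‖
        rw [mul_zero] at h5
        exact h5
      exact squeeze_zero (fun _ => norm_nonneg _) (fun m => htail m x z hzc) h2
    have h3 := hdiff.add hcont
    rw [zero_add] at h3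
    refine h3.congr fun m => ?_
    rw [sub_add_cancel]

end Pool.Agent.Helper621.DAP
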