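import Pool.Agent.Helper621.HIP.Defs
import Pool.Agent.Helper621.HIP.P_trunc
import Pool.Agent.Helper621.HIP.P_sumA
import Pool.Agent.Helper621.HIP.P_quotB
import Pool.Agent.Helper621.HIP.P_densZ
import Pool.Agent.Helper621.HIP.P_blocks
import Pool.Agent.Helper621.HIP.P_assemble
import Pool.Agent.Helper621.HIP.P_mo_facts

set_option autoImplicit false

open Complex Metric Set Filter Topology Classical ZeroAtInfty

namespace Pool.Agent.Helper621.DAP


theorem evH_sumS (s : Finset ℕ) (f : ℕ → ℂ) (G : ℕ → HI) (z : ℂ) :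
    evH (∑ k ∈ s, f k • G k) z = ∑ k ∈ s, f k * evH (G k) z := by
  induction s using Finset.induction_on with
  | empty => rw [Finset.sum_empty, Finset.sum_empty, evH_zero]
  | insert a s ha ih => rw [Finset.sum_insert ha, Finset.sum_insert ha, evH_add, evH_smul, ih]

theorem lowZ (F : Finset ℂ) (hF : ∀ z ∈ F, z ≠ 0) :
    ∃ δ : ℝ, 0 < δ ∧ ∀ z ∈ F, δ ≤ ‖z‖ := by
  induction F using Finset.induction_on with
  | empty => exact ⟨1, one_pos, by simp⟩
  | insert a s ha ih =>
    obtain ⟨δ, h0, h1⟩ := ih (fun z hz => hF z (Finset.mem_insert_of_mem hz))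
    refine ⟨min δ ‖a‖, lt_min h0 (norm_pos_iff.2 (hF a (Finset.mem_insert_self a s))), ?_⟩
    intro z hz
    rcases Finset.mem_insert.1 hz with rfl | h
    · exact min_le_right _ _
    · exact (min_le_left _ _).trans (h1 z h)

/-- factorization from local diagonalization at infinitely many boundary points -/
theorem fact_of_loc (S : HI →L[ℂ] HI) {Θ : Set ℂ} (hΘ : Θ.Infinite) (hΘ1 : ∀ s ∈ Θ, ‖s‖ = 1)
    (D : ℂ → ℂ) (hD : ∀ s ∈ Θ, 1 / 2 ≤ ‖D s‖) (hL : ∀ s ∈ Θ, Loc (S.comp rho) s (D s)) :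
    ∃ (a : BoundedContinuousFunction ℕ HI →L[ℂ] HI)
      (b : HI →L[ℂ] BoundedContinuousFunction ℕ HI), ∀ x, b (S (a x)) = x := by
  obtain ⟨N, c, hc1, hc2, hc3⟩ := trunc
  obtain ⟨Z, hZ1, hZ2, hZ3⟩ := densZ
  have hlow : ∀ m, ∃ δ : ℝ, 0 < δ ∧ ∀ z ∈ Z m, δ ≤ ‖z‖ := fun m =>
    lowZ (Z m) (fun z hz => (hZ1 m z hz).2)
  choose δ hδ0 hδ1 using hlow
  set K : ℕ → ℝ := fun m => ∑ l ∈ Finset.range (m + 1), (N l : ℝ) with hK
  have hK0 : ∀ m, 0 ≤ K m := fun m => Finset.sum_nonneg (fun _ _ => Nat.cast_nonneg _)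
  have hKl : ∀ l m, l ≤ m → (N l : ℝ) ≤ K m := by
    intro l m hlm
    exact Finset.single_le_sum (f := fun l => (N l : ℝ)) (fun _ _ => Nat.cast_nonneg _)
      (Finset.mem_range.2 (Nat.lt_succ_of_le hlm))
  set ε : ℕ → ℝ := fun m => (1 / 2) ^ m * δ m / (8 * (1 + K m)) with hε
  have hε0 : ∀ m, 0 < ε m := by
    intro m
    have h1 := hδ0 m
    have h2 := hK0 m
    simp only [hε]
    positivity
  have hbound : ∀ l m, l ≤ m → ∀ z ∈ Z m, 4 * (N l : ℝ) * ε m / ‖z‖ ≤ (1 / 2) ^ m := by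
    intro l m hlm z hz
    have h1 := hδ0 m
    have h2 := hK0 m
    have h3 := hδ1 m z hz
    have h4 := hKl l m hlm
    have hz0 : 0 < ‖z‖ := lt_of_lt_of_le h1 h3
    have hp : (0:ℝ) < (1 / 2) ^ m := by positivity
    rw [div_le_iff₀ hz0]
    simp only [hε]
    have h5 : 4 * (N l : ℝ) * ((1 / 2) ^ m * δ m / (8 * (1 + K m)))
        = (1 / 2) ^ m * δ m * ((4 * (N l : ℝ)) / (8 * (1 + K m))) := by ring
    rw [h5]
    have h6 : (4 * (N l : ℝ)) / (8 * (1 + K m)) ≤ 1 := by
      rw [div_le_one (by positivity)]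
      nlinarith
    calc (1 / 2) ^ m * δ m * ((4 * (N l : ℝ)) / (8 * (1 + K m)))
        ≤ (1 / 2) ^ m * δ m * 1 := mul_le_mul_of_nonneg_left h6 (by positivity)
      _ = (1 / 2) ^ m * δ m := mul_one _
      _ ≤ (1 / 2) ^ m * ‖z‖ := mul_le_mul_of_nonneg_left h3 hp.le
  obtain ⟨s, n, a, hb1, hb2, hb3, hb4, hb5⟩ := blocks (S.comp rho) hΘ hΘ1 D hD hL N
    (fun m => insert 0 (Z m)) (by
      intro m z hz
      rcases Finset.mem_insert.1 hz with rfl | h
      · simp
      · exact (hZ1 m z h).1) ε hε0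
  -- the operators
  set q : ℕ → ℕ → DA := fun m k => mulL (pk (s m) (n m)) (cmp (moI (s m) (a m)) (mon (k + 1)))
    with hq
  set V0 : ℕ → HI →L[ℂ] DA := fun m =>
    ∑ k ∈ Finset.range (N m), (c m k).smulRight (mon (k + 1)) with hV0
  have hV0a : ∀ m x, V0 m x = ∑ k ∈ Finset.range (N m), c m k x • mon (k + 1) := by
    intro m x
    simp only [hV0, ContinuousLinearMap.sum_apply, ContinuousLinearMap.smulRight_apply]
  set V : ℕ → HI →L[ℂ] DA := fun m => (cmp (moI (s m) (a m))).comp (V0 m) with hV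
  have hVb : ∀ m x, ‖V m x‖ ≤ 2 * ‖x‖ := by
    intro m x
    simp only [hV, ContinuousLinearMap.comp_apply]
    refine (norm_cmp_le _ _).trans ?_
    rw [hV0a]
    exact hc2 m x
  obtain ⟨A, hA⟩ := sumA (fun m => pk (s m) (n m)) V hVb hb2 hb3
  have hSA : ∀ m x, S (A (sg m x))
      = ∑ k ∈ Finset.range (N m), c m k x • S (rho (q m k)) := by
    intro m x
    rw [hA]
    have h1 : V m x = ∑ k ∈ Finset.range (N m),
        c m k x • cmp (moI (s m) (a m)) (mon (k + 1)) := by
      simp only [hV, ContinuousLinearMap.comp_apply]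
      rw [hV0a, map_sum]
      exact Finset.sum_congr rfl (fun k _ => map_smul _ _ _)
    rw [h1, map_sum, map_sum, map_sum]
    refine Finset.sum_congr rfl (fun k _ => ?_)
    rw [map_smul, map_smul, map_smul]
  have hBex : ∀ m, ∃ B : HI →L[ℂ] HI, (∀ G, ‖B G‖ ≤ 4 * ‖G‖) ∧ ∀ G, ∀ z ∈ ball (0:ℂ) 1, z ≠ 0 →
      evH (B G) z = (D (s m))⁻¹ * ((evH G (mo (s m) (a m) z) - evH G (mo (s m) (a m) 0)) / z) := by
    intro m
    obtain ⟨g1, g2, g3, g4⟩ := hb1 m
    exact quotB (mo_facts g1 g2 g3).1 g4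
  choose B hB1 hB2 using hBex
  have hdinv : ∀ m, ‖(D (s m))⁻¹‖ ≤ 2 := by
    intro m
    rw [norm_inv]
    have := (hb1 m).2.2.2
    rw [inv_le_comm₀ (by linarith) (by norm_num)]
    linarith
  have hd0 : ∀ m, D (s m) ≠ 0 := by
    intro m h
    have := (hb1 m).2.2.2
    rw [h, norm_zero] at this
    linarith
  -- evaluation formula
  have hev : ∀ m l x, ∀ z ∈ Z m, evH (B m (S (A (sg l x)))) z
      = (D (s m))⁻¹ * ((∑ k ∈ Finset.range (N l), c l k x *
          (evH (S (rho (q l k))) (mo (s m) (a m) z)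
            - evH (S (rho (q l k))) (mo (s m) (a m) 0))) / z) := by
    intro m l x z hz
    rw [hB2 m _ z (hZ1 m z hz).1 (hZ1 m z hz).2, hSA, evH_sumS, evH_sumS,
      ← Finset.sum_sub_distrib]
    have e0 : (∑ k ∈ Finset.range (N l),
        (c l k x * evH (S (rho (q l k))) (mo (s m) (a m) z)
          - c l k x * evH (S (rho (q l k))) (mo (s m) (a m) 0)))
        = ∑ k ∈ Finset.range (N l), c l k x *
          (evH (S (rho (q l k))) (mo (s m) (a m) z)
            - evH (S (rho (q l k))) (mo (s m) (a m) 0)) :=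
      Finset.sum_congr rfl (fun k _ => by ring)
    rw [e0]
  refine assemble S A B (by norm_num : (0:ℝ) ≤ 4) hB1 Z (fun m z hz => (hZ1 m z hz).1) hZ2 hZ3
    ?_ ?_
  · intro x m0 z hz
    have hzz := hZ1 m0 z hz
    have key : ∀ m ≥ m0, ‖evH (B m (S (A (sg m x)))) z
        - ∑ k ∈ Finset.range (N m), c m k x * z ^ k‖ ≤ (1 / 2) ^ m * ‖x‖ := by
      intro m hm
      have hzm : z ∈ Z m := hZ2 hm hz
      rw [hev m m x z hzm]
      have e1 : (∑ k ∈ Finset.range (N m), c m k x * z ^ k)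
          = (D (s m))⁻¹ * ((∑ k ∈ Finset.range (N m), c m k x * (D (s m) * z ^ (k + 1))) / z) := by
        rw [Finset.sum_div, Finset.mul_sum]
        refine Finset.sum_congr rfl (fun k _ => ?_)
        have := hd0 m
        have := hzz.2
        field_simp
        try rw [pow_succ]
        try ring
      rw [e1, ← mul_sub, ← sub_div, ← Finset.sum_sub_distrib, norm_mul, norm_div]
      have e2 : ‖∑ k ∈ Finset.range (N m), (c m k x *
          (evH (S (rho (q m k))) (mo (s m) (a m) z)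
            - evH (S (rho (q m k))) (mo (s m) (a m) 0)) - c m k x * (D (s m) * z ^ (k + 1)))‖
          ≤ ∑ k ∈ Finset.range (N m), ‖x‖ * (2 * ε m) := by
        refine norm_sum_le_of_le _ (fun k hk => ?_)
        rw [← mul_sub, norm_mul]
        refine mul_le_mul (hc1 m k x) ?_ (norm_nonneg _) (norm_nonneg _)
        have a1 := hb4 m k (Finset.mem_range.1 hk) z (Finset.mem_insert_of_mem hzm)
        have a2 := hb4 m k (Finset.mem_range.1 hk) 0 (Finset.mem_insert_self _ _)
        rw [zero_pow (Nat.succ_ne_zero k), mul_zero, sub_zero] at a2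
        rw [ContinuousLinearMap.comp_apply] at a1 a2
        have a3 : evH (S (rho (q m k))) (mo (s m) (a m) z)
            - evH (S (rho (q m k))) (mo (s m) (a m) 0) - D (s m) * z ^ (k + 1)
            = (evH (S (rho (q m k))) (mo (s m) (a m) z) - D (s m) * z ^ (k + 1))
              - evH (S (rho (q m k))) (mo (s m) (a m) 0) := by ring
        rw [a3]
        refine (norm_sub_le _ _).trans ?_
        have := add_le_add a1 a2
        simp only [hq]
        linarith
      rw [Finset.sum_const, Finset.card_range, nsmul_eq_mul] at e2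
      have hz0 : 0 < ‖z‖ := norm_pos_iff.2 hzz.2
      have b1 := hbound m m le_rfl z hzm
      calc ‖(D (s m))⁻¹‖ * (‖∑ k ∈ Finset.range (N m), (c m k x *
          (evH (S (rho (q m k))) (mo (s m) (a m) z)
            - evH (S (rho (q m k))) (mo (s m) (a m) 0)) - c m k x * (D (s m) * z ^ (k + 1)))‖
            / ‖z‖)
          ≤ 2 * (((N m : ℝ) * (‖x‖ * (2 * ε m))) / ‖z‖) :=
            mul_le_mul (hdinv m) (div_le_div_of_nonneg_right e2 hz0.le) (by positivity)
              (by norm_num)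
        _ = (4 * (N m : ℝ) * ε m / ‖z‖) * ‖x‖ := by ring
        _ ≤ (1 / 2) ^ m * ‖x‖ := mul_le_mul_of_nonneg_right b1 (norm_nonneg _)
    have t1 := hc3 x z hzz.1
    have t2 : Tendsto (fun m => evH (B m (S (A (sg m x)))) z
        - ∑ k ∈ Finset.range (N m), c m k x * z ^ k) atTop (𝓝 0) := by
      have t3 : Tendsto (fun m : ℕ => (1 / 2 : ℝ) ^ m * ‖x‖) atTop (𝓝 0) := by
        have := (tendsto_pow_atTop_nhds_zero_of_lt_one (by norm_num : (0:ℝ) ≤ 1 / 2)
          (by norm_num)).mul_const ‖x‖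
        rwa [zero_mul] at this
      rw [tendsto_zero_iff_norm_tendsto_zero]
      refine squeeze_zero' (Eventually.of_forall (fun _ => norm_nonneg _)) ?_ t3
      filter_upwards [eventually_ge_atTop m0] with m hm using key m hm
    have t4 := t2.add t1
    rw [zero_add] at t4
    refine t4.congr (fun m => ?_)
    ring
  · intro m l hlm x z hz
    have hzz := hZ1 m z hz
    have hz0 : 0 < ‖z‖ := norm_pos_iff.2 hzz.2
    rw [hev m l x z hz, norm_mul, norm_div]
    have e2 : ‖∑ k ∈ Finset.range (N l), c l k x *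
          (evH (S (rho (q l k))) (mo (s m) (a m) z)
            - evH (S (rho (q l k))) (mo (s m) (a m) 0))‖
          ≤ ∑ k ∈ Finset.range (N l), ‖x‖ * ε m := by
      refine norm_sum_le_of_le _ (fun k hk => ?_)
      rw [norm_mul]
      refine mul_le_mul (hc1 l k x) ?_ (norm_nonneg _) (norm_nonneg _)
      have a1 := hb5 m l hlm k (Finset.mem_range.1 hk) z (Finset.mem_insert_of_mem hz)
      simp only [ContinuousLinearMap.comp_apply] at a1
      exact a1
    rw [Finset.sum_const, Finset.card_range, nsmul_eq_mul] at e2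
    have b1 := hbound l m hlm.le z hz
    have b0 : 0 ≤ (N l : ℝ) * ε m / ‖z‖ := by
      have := hε0 m
      positivity
    calc ‖(D (s m))⁻¹‖ * (‖∑ k ∈ Finset.range (N l), c l k x *
          (evH (S (rho (q l k))) (mo (s m) (a m) z)
            - evH (S (rho (q l k))) (mo (s m) (a m) 0))‖ / ‖z‖)
        ≤ 2 * (((N l : ℝ) * (‖x‖ * ε m)) / ‖z‖) :=
          mul_le_mul (hdinv m) (div_le_div_of_nonneg_right e2 hz0.le) (by positivity)
            (by norm_num)
      _ = 2 * ((N l : ℝ) * ε m / ‖z‖) * ‖x‖ := by ring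
      _ ≤ (4 * (N l : ℝ) * ε m / ‖z‖) * ‖x‖ := by
          refine mul_le_mul_of_nonneg_right ?_ (norm_nonneg _)
          have : 4 * (N l : ℝ) * ε m / ‖z‖ = 4 * ((N l : ℝ) * ε m / ‖z‖) := by ring
          rw [this]
          linarith
      _ ≤ (1 / 2) ^ m * ‖x‖ := mul_le_mul_of_nonneg_right b1 (norm_nonneg _)

end Pool.Agent.Helper621.DAP
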