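import Pool.Agent.Helper621.HIP.Defs

set_option autoImplicit false

open Complex Metric Set Filter Topology Classical ZeroAtInfty

namespace Pool.Agent.Helper621.DAP


theorem lebesgue_pt (u : ℝ → ℂ)
    (hu : MeasureTheory.AEStronglyMeasurable u MeasureTheory.volume) {M : ℝ}
    (hM : ∀ t, ‖u t‖ ≤ M) : ∀ᵐ t0 : ℝ, LP (fun t => ‖u t - u t0‖) t0 := by
  have hloc : MeasureTheory.LocallyIntegrable u MeasureTheory.volume := by
    intro x
    refine ⟨Icc (x - 1) (x + 1), Icc_mem_nhds (by linarith) (by linarith), ?_⟩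
    exact MeasureTheory.Measure.integrableOn_of_bounded (M := M)
      (by rw [Real.volume_Icc]; exact ENNReal.ofReal_ne_top) hu (Eventually.of_forall hM)
  filter_upwards [IsUnifLocDoublingMeasure.ae_tendsto_average_norm_sub
    (μ := MeasureTheory.volume) hloc 1] with t0 h0
  have h1 := h0 (l := 𝓝[>] (0:ℝ)) (fun _ => t0) (fun δ => δ) tendsto_id (by
    filter_upwards [self_mem_nhdsWithin] with δ hδ
    rw [one_mul]
    exact Metric.mem_closedBall_self (le_of_lt hδ))
  have h2 := h1.const_mul 2
  rw [mul_zero] at h2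
  refine h2.congr' ?_
  filter_upwards [self_mem_nhdsWithin] with δ hδ
  have hδ' : (0:ℝ) < δ := hδ
  rw [MeasureTheory.setAverage_eq, Real.closedBall_eq_Icc, MeasureTheory.measureReal_def, Real.volume_Icc,
    MeasureTheory.integral_Icc_eq_integral_Ioc,
    intervalIntegral.integral_of_le (by linarith : t0 - δ ≤ t0 + δ)]
  have e1 : t0 + δ - (t0 - δ) = 2 * δ := by ring
  rw [e1, ENNReal.toReal_ofReal (by linarith), smul_eq_mul]
  field_simp

end Pool.Agent.Helper621.DAP
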