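import Pool.Agent.Helper621.HIP.Defs
import Pool.Agent.Helper621.HIP.P_PK_facts

set_option autoImplicit false

open Complex Metric Set Filter Topology Classical ZeroAtInfty

namespace Pool.Agent.Helper621.DAP


theorem poissonDA_ei (t : ℝ) : ei t = circleMap 0 1 t := by
  simp [ei, circleMap]

theorem poissonDA_norm (t : ℝ) : ‖ei t‖ = 1 := by
  unfold ei
  exact Complex.norm_exp_ofReal_mul_I t

theorem poissonDA_per (t : ℝ) : ei (t + 2 * Real.pi) = ei t := by
  unfold ei
  push_cast
  rw [add_mul, Complex.exp_add, Complex.exp_two_pi_mul_I, mul_one]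

theorem poissonDA (g : DA) {w : ℂ} (hw : w ∈ ball (0:ℂ) 1) (c : ℝ) :
    ev g w = ∫ t in (c - Real.pi)..(c + Real.pi), (PK w t : ℂ) * ev g (ei t) := by
  have hD : DiffContOnCl ℂ (ev g) (ball (0:ℂ) 1) := by
    refine ⟨(ev_isDA g).2, ?_⟩
    rw [closure_ball (0:ℂ) one_ne_zero]
    exact (ev_isDA g).1
  have h := hD.circleAverage_poissonKernel_smul' hw
  have hper : Function.Periodic (fun t : ℝ => (PK w t : ℂ) * ev g (ei t)) (2 * Real.pi) := by
    intro t
    simp only [PK, poissonDA_per]
  have h2 := hper.intervalIntegral_add_eq (c - Real.pi) 0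
  have h3 : c - Real.pi + 2 * Real.pi = c + Real.pi := by ring
  rw [h3, zero_add] at h2
  rw [h2, ← h, Real.circleAverage_def, ← intervalIntegral.integral_smul]
  apply intervalIntegral.integral_congr
  intro t _
  simp only [← poissonDA_ei, sub_zero, poissonDA_norm, PK]
  rw [Complex.real_smul, Complex.real_smul]
  push_cast
  ring

end Pool.Agent.Helper621.DAP
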