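import Pool.Agent.Helper621.HIP.Defs
import Pool.Agent.Helper621.HIP.P_PK_facts

set_option autoImplicit false

open Complex Metric Set Filter Topology Classical ZeroAtInfty

namespace Pool.Agent.Helper621.DAP


theorem poissonH (G : HI) {w : ℂ} (hw : w ∈ ball (0:ℂ) 1) {r : ℝ} (h0 : 0 < r) (h1 : r < 1)
    (c : ℝ) : evH G (r * w) =
      ∫ t in (c - Real.pi)..(c + Real.pi), (PK w t : ℂ) * evH G (r * ei t) := by
  set f : ℂ → ℂ := fun z => evH G (r * z) with hf
  have hmaps : ∀ z ∈ closedBall (0:ℂ) 1, (r : ℂ) * z ∈ ball (0:ℂ) 1 := by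
    intro z hz
    rw [mem_closedBall_zero_iff] at hz
    rw [mem_ball_zero_iff, norm_mul, Complex.norm_real, Real.norm_of_nonneg h0.le]
    nlinarith [norm_nonneg z]
  have hfd : DiffContOnCl ℂ f (ball (0:ℂ) 1) := by
    apply DifferentiableOn.diffContOnCl
    rw [closure_ball (0:ℂ) one_ne_zero]
    exact (evH_diff G).comp (by fun_prop) hmaps
  have key := hfd.circleAverage_poissonKernel_smul' hw
  rw [Real.circleAverage_def] at key
  have hei : ∀ t : ℝ, circleMap 0 1 t = ei t := by
    intro t
    unfold circleMap ei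
    simp
  have hein : ∀ t : ℝ, ‖ei t‖ = 1 := by
    intro t
    unfold ei
    exact Complex.norm_exp_ofReal_mul_I t
  have hper : Function.Periodic (fun t : ℝ => (PK w t : ℂ) * evH G (r * ei t)) (2 * Real.pi) := by
    intro t
    have h2 : ei (t + 2 * Real.pi) = ei t := by
      unfold ei
      push_cast
      rw [add_mul, Complex.exp_add, Complex.exp_two_pi_mul_I, mul_one]
    simp only [PK, h2]
  have e1 : ∫ t in (c - Real.pi)..(c + Real.pi), (PK w t : ℂ) * evH G (r * ei t)
      = ∫ t in (0:ℝ)..(2 * Real.pi), (PK w t : ℂ) * evH G (r * ei t) := by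
    have h2 := hper.intervalIntegral_add_eq (c - Real.pi) 0
    rw [zero_add] at h2
    rw [← h2]
    congr 1
    ring
  rw [e1]
  change f w = _
  rw [← key, ← intervalIntegral.integral_smul]
  refine intervalIntegral.integral_congr fun t _ => ?_
  rw [hei, sub_zero, sub_zero, hein, PK, Complex.real_smul, Complex.real_smul]
  push_cast
  simp only [hf]
  ring

end Pool.Agent.Helper621.DAP
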