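import Pool.Agent.Helper621.HIP.Defs
import Pool.Agent.Helper621.HIP.P_PK_facts
import Pool.Agent.Helper621.HIP.P_poissonH
import Pool.Agent.Helper621.HIP.P_meas_tau

set_option autoImplicit false

open Complex Metric Set Filter Topology Classical ZeroAtInfty

namespace Pool.Agent.Helper621.DAP


theorem poisson_tau {S : DA →L[ℂ] HI} {r : ℕ → ℝ} {τ : ℝ → DA →L[ℂ] ℂ} (h : Bd S r τ)
    (f : DA) {w : ℂ} (hw : w ∈ ball (0:ℂ) 1) (c : ℝ) :
    evH (S f) w = ∫ t in (c - Real.pi)..(c + Real.pi), (PK w t : ℂ) * τ t f := by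
  have hcont : ContinuousOn (evH (S f)) (ball (0:ℂ) 1) := (evH_diff (S f)).continuousOn
  have h1 : Tendsto (fun k => evH (S f) (r k * w)) atTop (𝓝 (evH (S f) w)) := by
    have h2 : ContinuousAt (evH (S f)) w := hcont.continuousAt (isOpen_ball.mem_nhds hw)
    have h3 : Tendsto (fun k => ((r k : ℝ) : ℂ) * w) atTop (𝓝 w) := by
      have h4 : Tendsto (fun k => ((r k : ℝ) : ℂ)) atTop (𝓝 ((1 : ℝ) : ℂ)) :=
        (Complex.continuous_ofReal.tendsto 1).comp h.rl
      have h5 := h4.mul_const w
      rwa [Complex.ofReal_one, one_mul] at h5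
    exact h2.tendsto.comp h3
  obtain ⟨hPK0, hPKc, -⟩ := PK_facts hw
  have hei : Continuous ei := by unfold ei; fun_prop
  have hein : ∀ t, ‖ei t‖ = 1 := fun t => by unfold ei; exact Complex.norm_exp_ofReal_mul_I t
  have hmem : ∀ k t, ((r k : ℝ) : ℂ) * ei t ∈ ball (0:ℂ) 1 := by
    intro k t
    rw [mem_ball_zero_iff, norm_mul, hein, mul_one, Complex.norm_real,
      Real.norm_of_nonneg (h.r0 k).le]
    exact h.r1 k
  have h2 : Tendsto (fun k => ∫ t in (c - Real.pi)..(c + Real.pi),
      (PK w t : ℂ) * evH (S f) (r k * ei t)) atTop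
      (𝓝 (∫ t in (c - Real.pi)..(c + Real.pi), (PK w t : ℂ) * τ t f)) := by
    apply intervalIntegral.tendsto_integral_filter_of_dominated_convergence
      (fun t => PK w t * ‖S f‖)
    · refine Eventually.of_forall (fun k => ?_)
      apply Continuous.aestronglyMeasurable
      refine (Complex.continuous_ofReal.comp hPKc).mul ?_
      exact hcont.comp_continuous (continuous_const.mul hei) (hmem k)
    · refine Eventually.of_forall (fun k => Eventually.of_forall (fun t _ => ?_))
      rw [norm_mul, Complex.norm_real, Real.norm_of_nonneg (hPK0 t)]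
      exact mul_le_mul_of_nonneg_left (norm_evH_le _ _) (hPK0 t)
    · exact (hPKc.mul continuous_const).intervalIntegrable _ _
    · filter_upwards [h.lim] with t ht _
      exact (ht f).const_mul _
  have h3 : (fun k => evH (S f) (r k * w)) = (fun k => ∫ t in (c - Real.pi)..(c + Real.pi),
      (PK w t : ℂ) * evH (S f) (r k * ei t)) := by
    funext k
    exact poissonH (S f) hw (h.r0 k) (h.r1 k) c
  rw [h3] at h1
  exact tendsto_nhds_unique h1 h2

end Pool.Agent.Helper621.DAP
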