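import Pool.Agent.Helper621.HIP.Defs
import Pool.Agent.Helper621.HIP.P_meas_tau
import Pool.Agent.Helper621.HIP.P_PK_facts
import Pool.Agent.Helper621.HIP.P_poisson_tau
import Pool.Agent.Helper621.HIP.P_poissonDA
import Pool.Agent.Helper621.HIP.P_PC
import Pool.Agent.Helper621.HIP.P_pk_facts
import Pool.Agent.Helper621.HIP.P_KK_meas
import Pool.Agent.Helper621.HIP.P_mo_facts

set_option autoImplicit false

open Complex Metric Set Filter Topology Classical ZeroAtInfty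

namespace Pool.Agent.Helper621.DAP


theorem loc1_ii {E : Type*} [NormedAddCommGroup E] {f : ℝ → E}
    (hf : MeasureTheory.AEStronglyMeasurable f MeasureTheory.volume) {M : ℝ}
    (hM : ∀ t, ‖f t‖ ≤ M) (a b : ℝ) : IntervalIntegrable f MeasureTheory.volume a b :=
  (intervalIntegrable_const (c := M)).mono_fun' hf.restrict
    (Filter.Eventually.of_forall (fun t => hM t))

theorem loc1_LPadd {u v : ℝ → ℝ} {t0 : ℝ} (hu : LP u t0) (hv : LP v t0)
    (iu : ∀ a b, IntervalIntegrable u MeasureTheory.volume a b)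
    (iv : ∀ a b, IntervalIntegrable v MeasureTheory.volume a b) :
    LP (fun t => u t + v t) t0 := by
  unfold LP at *
  have h := hu.add hv
  rw [add_zero] at h
  refine h.congr (fun δ => ?_)
  rw [intervalIntegral.integral_add (iu _ _) (iv _ _), add_div]

theorem loc1_LPmul {u : ℝ → ℝ} {t0 : ℝ} (c : ℝ) (hu : LP u t0) :
    LP (fun t => c * u t) t0 := by
  unfold LP at *
  have h := hu.const_mul c
  rw [mul_zero] at h
  refine h.congr (fun δ => ?_)
  rw [intervalIntegral.integral_const_mul, mul_div_assoc]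

theorem loc1_LPcont {u : ℝ → ℝ} (hu : Continuous u) {t0 : ℝ} (h0 : u t0 = 0) : LP u t0 := by
  unfold LP
  rw [Metric.tendsto_nhds]
  intro ε hε
  have hc := hu.continuousAt (x := t0)
  rw [Metric.continuousAt_iff] at hc
  obtain ⟨η, hη, hh⟩ := hc (ε / 4) (by linarith)
  filter_upwards [Ioo_mem_nhdsGT hη] with δ hδ
  have hb : ‖∫ t in (t0 - δ)..(t0 + δ), u t‖ ≤ (ε / 4) * |t0 + δ - (t0 - δ)| := by
    apply intervalIntegral.norm_integral_le_of_norm_le_const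
    intro x hx
    rw [Set.uIoc_of_le (by linarith [hδ.1])] at hx
    have h1 : dist x t0 < η := by
      rw [Real.dist_eq, abs_lt]
      constructor <;> linarith [hx.1, hx.2, hδ.2, hδ.1]
    have h2 := hh h1
    rw [h0, Real.dist_eq, sub_zero] at h2
    rw [Real.norm_eq_abs]
    exact h2.le
  have h3 : |t0 + δ - (t0 - δ)| = 2 * δ := by
    rw [show t0 + δ - (t0 - δ) = 2 * δ by ring]
    exact abs_of_pos (by linarith [hδ.1])
  rw [h3, Real.norm_eq_abs] at hb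
  rw [Real.dist_eq, sub_zero, abs_div, abs_of_pos hδ.1, div_lt_iff₀ hδ.1]
  nlinarith [hδ.1]

theorem loc1_pt {S : DA →L[ℂ] HI} {r : ℕ → ℝ} {τ : ℝ → DA →L[ℂ] ℂ} (h : Bd S r τ) {ε : ℝ}
    (hε : 0 < ε) {N n : ℕ} (hn : N ≤ n) (t0 t : ℝ) (g : DA) (hg : ‖g‖ ≤ 1) :
    ‖τ t (mulL (pk (ei t0) n) g) - τ t0 (pk (ei t0) n) * ev g (ei t)‖ ≤
      ε + (‖S‖ * ‖pk (ei t0) n - pk (ei t) n‖ +
        (2 * ‖S‖ * (if t ∈ KK τ ε N then 0 else 1) +
          ‖τ t (pk (ei t) n) - τ t0 (pk (ei t0) n)‖)) := by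
  obtain ⟨hpc, hp1, hpe⟩ := pk_facts n
  have e1 : mulL (pk (ei t0) n) g = mulL (pk (ei t0) n - pk (ei t) n) g +
      (mulL (pk (ei t) n) (g - (ev g (ei t)) • one) + (ev g (ei t)) • pk (ei t) n) := by
    apply ev_ext
    intro z hz
    simp only [ev_add, ev_mulL _ _ _ hz, ev_sub, ev_smul, ev_one _ hz]
    ring
  rw [e1, map_add, map_add, map_smul, smul_eq_mul]
  have hS : (0:ℝ) ≤ ‖S‖ := norm_nonneg S
  have hc1 : ‖ev g (ei t)‖ ≤ 1 := (norm_ev_le g _).trans hg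
  have hA : ‖τ t (mulL (pk (ei t0) n - pk (ei t) n) g)‖ ≤ ‖S‖ * ‖pk (ei t0) n - pk (ei t) n‖ := by
    refine (h.bd _ _).trans ?_
    apply mul_le_mul_of_nonneg_left _ hS
    refine (norm_mulL_le _ _).trans ?_
    calc ‖pk (ei t0) n - pk (ei t) n‖ * ‖g‖ ≤ ‖pk (ei t0) n - pk (ei t) n‖ * 1 :=
          mul_le_mul_of_nonneg_left hg (norm_nonneg _)
      _ = _ := mul_one _
  have hone : ‖(one : DA)‖ ≤ 1 := by
    apply norm_le_of _ zero_le_one
    intro z hz
    rw [ev_one z hz, norm_one]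
  have hB : ‖τ t (mulL (pk (ei t) n) (g - (ev g (ei t)) • one))‖ ≤
      ε + 2 * ‖S‖ * (if t ∈ KK τ ε N then 0 else 1) := by
    by_cases hK : t ∈ KK τ ε N
    · rw [if_pos hK, mul_zero, add_zero]
      exact hK n hn g hg
    · rw [if_neg hK, mul_one]
      refine (h.bd _ _).trans ?_
      have h1 : ‖mulL (pk (ei t) n) (g - (ev g (ei t)) • one)‖ ≤ 2 := by
        refine (norm_mulL_le _ _).trans ?_
        have h2 : ‖g - (ev g (ei t)) • one‖ ≤ 2 := by
          refine (norm_sub_le _ _).trans ?_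
          rw [norm_smul]
          have h3 : ‖ev g (ei t)‖ * ‖(one : DA)‖ ≤ 1 * 1 :=
            mul_le_mul hc1 hone (norm_nonneg _) zero_le_one
          linarith
        calc ‖pk (ei t) n‖ * ‖g - (ev g (ei t)) • one‖ ≤ 1 * 2 :=
              mul_le_mul (hp1 t) h2 (norm_nonneg _) zero_le_one
          _ = 2 := by norm_num
      nlinarith
  have hC : ‖ev g (ei t) * (τ t (pk (ei t) n) - τ t0 (pk (ei t0) n))‖ ≤
      ‖τ t (pk (ei t) n) - τ t0 (pk (ei t0) n)‖ := by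
    rw [norm_mul]
    calc ‖ev g (ei t)‖ * ‖τ t (pk (ei t) n) - τ t0 (pk (ei t0) n)‖
        ≤ 1 * ‖τ t (pk (ei t) n) - τ t0 (pk (ei t0) n)‖ :=
          mul_le_mul_of_nonneg_right hc1 (norm_nonneg _)
      _ = _ := one_mul _
  have e2 : τ t (mulL (pk (ei t0) n - pk (ei t) n) g) +
      (τ t (mulL (pk (ei t) n) (g - (ev g (ei t)) • one)) + ev g (ei t) * τ t (pk (ei t) n)) -
      τ t0 (pk (ei t0) n) * ev g (ei t) = τ t (mulL (pk (ei t0) n - pk (ei t) n) g) +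
      (τ t (mulL (pk (ei t) n) (g - (ev g (ei t)) • one)) +
        ev g (ei t) * (τ t (pk (ei t) n) - τ t0 (pk (ei t0) n))) := by ring
  rw [e2]
  refine (norm_add_le _ _).trans ?_
  have h4 := norm_add_le (τ t (mulL (pk (ei t) n) (g - (ev g (ei t)) • one)))
    (ev g (ei t) * (τ t (pk (ei t) n) - τ t0 (pk (ei t0) n)))
  linarith

/-- main estimate -/
theorem loc1 {S : DA →L[ℂ] HI} {r : ℕ → ℝ} {τ : ℝ → DA →L[ℂ] ℂ} (h : Bd S r τ) {ε : ℝ}
    (hε : 0 < ε) {N n : ℕ} (hn : N ≤ n) {t0 : ℝ}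
    (hK : LP (fun t => if t ∈ KK τ ε N then 0 else 1) t0)
    (hd : LP (fun t => ‖τ t (pk (ei t) n) - τ t0 (pk (ei t0) n)‖) t0)
    {e : DA} (he : ‖e‖ ≤ 1) {z : ℂ} (hz : z ∈ ball (0:ℂ) 1) :
    ∀ᶠ a : ℝ in 𝓝[<] 1,
      ‖evH (S (mulL (pk (ei t0) n) (cmp (moI (ei t0) a) e))) (mo (ei t0) a z) -
        τ t0 (pk (ei t0) n) * ev e z‖ ≤ 2 * ε := by
  have hs : ‖ei t0‖ = 1 := by unfold ei; exact Complex.norm_exp_ofReal_mul_I t0
  obtain ⟨hpc, hp1, hpe⟩ := pk_facts n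
  have hS : (0:ℝ) ≤ ‖S‖ := norm_nonneg S
  -- the three parts of v
  have c1 : Continuous (fun t : ℝ => ‖S‖ * ‖pk (ei t0) n - pk (ei t) n‖) :=
    continuous_const.mul (continuous_const.sub hpc).norm
  have b1 : ∀ t : ℝ, ‖S‖ * ‖pk (ei t0) n - pk (ei t) n‖ ≤ ‖S‖ * 2 := by
    intro t
    apply mul_le_mul_of_nonneg_left _ hS
    refine (norm_sub_le _ _).trans ?_
    linarith [hp1 t0, hp1 t]
  have m2 : MeasureTheory.AEStronglyMeasurable
      (fun t : ℝ => if t ∈ KK τ ε N then (0:ℝ) else 1) MeasureTheory.volume := by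
    have e1 : (fun t : ℝ => if t ∈ KK τ ε N then (0:ℝ) else 1) =
        (KK τ ε N)ᶜ.indicator (fun _ => (1:ℝ)) := by
      ext t
      by_cases ht : t ∈ KK τ ε N
      · simp [ht]
      · simp [ht]
    rw [e1]
    exact MeasureTheory.AEStronglyMeasurable.indicator₀
      MeasureTheory.aestronglyMeasurable_const (KK_meas h ε N).compl
  have n2 : ∀ t : ℝ, (0:ℝ) ≤ if t ∈ KK τ ε N then (0:ℝ) else 1 := by
    intro t; split <;> norm_num
  have b2 : ∀ t : ℝ, (if t ∈ KK τ ε N then (0:ℝ) else 1) ≤ 1 := by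
    intro t; split <;> norm_num
  have m3 : MeasureTheory.AEStronglyMeasurable
      (fun t : ℝ => ‖τ t (pk (ei t) n) - τ t0 (pk (ei t0) n)‖) MeasureTheory.volume :=
    ((meas_tau h hpc).sub MeasureTheory.aestronglyMeasurable_const).norm
  have b3 : ∀ t : ℝ, ‖τ t (pk (ei t) n) - τ t0 (pk (ei t0) n)‖ ≤ 2 * ‖S‖ := by
    intro t
    refine (norm_sub_le _ _).trans ?_
    have h1 := h.bd t (pk (ei t) n)
    have h2 := h.bd t0 (pk (ei t0) n)
    nlinarith [hp1 t, hp1 t0, mul_le_mul_of_nonneg_left (hp1 t) hS,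
      mul_le_mul_of_nonneg_left (hp1 t0) hS]
  have i1 : ∀ a b : ℝ, IntervalIntegrable (fun t : ℝ => ‖S‖ * ‖pk (ei t0) n - pk (ei t) n‖)
      MeasureTheory.volume a b := fun a b => c1.intervalIntegrable a b
  have i2 : ∀ a b : ℝ, IntervalIntegrable
      (fun t : ℝ => 2 * ‖S‖ * (if t ∈ KK τ ε N then (0:ℝ) else 1)) MeasureTheory.volume a b := by
    intro a b
    refine IntervalIntegrable.const_mul ?_ _
    refine loc1_ii m2 (M := 1) (fun t => ?_) a b
    rw [Real.norm_eq_abs, abs_of_nonneg (n2 t)]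
    exact b2 t
  have i3 : ∀ a b : ℝ, IntervalIntegrable
      (fun t : ℝ => ‖τ t (pk (ei t) n) - τ t0 (pk (ei t0) n)‖) MeasureTheory.volume a b := by
    intro a b
    refine loc1_ii m3 (M := 2 * ‖S‖) (fun t => ?_) a b
    rw [norm_norm]
    exact b3 t
  have hLP : LP (fun t : ℝ => ‖S‖ * ‖pk (ei t0) n - pk (ei t) n‖ +
      (2 * ‖S‖ * (if t ∈ KK τ ε N then (0:ℝ) else 1) +
        ‖τ t (pk (ei t) n) - τ t0 (pk (ei t0) n)‖)) t0 := by
    refine loc1_LPadd (loc1_LPcont c1 ?_) (loc1_LPadd (loc1_LPmul _ hK) hd i2 i3) i1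
      (fun a b => (i2 a b).add (i3 a b))
    rw [sub_self, norm_zero, mul_zero]
  have mv : MeasureTheory.AEStronglyMeasurable (fun t : ℝ => ‖S‖ * ‖pk (ei t0) n - pk (ei t) n‖ +
      (2 * ‖S‖ * (if t ∈ KK τ ε N then (0:ℝ) else 1) +
        ‖τ t (pk (ei t) n) - τ t0 (pk (ei t0) n)‖)) MeasureTheory.volume :=
    c1.aestronglyMeasurable.add ((m2.const_mul _).add m3)
  have v0 : ∀ t : ℝ, 0 ≤ ‖S‖ * ‖pk (ei t0) n - pk (ei t) n‖ +
      (2 * ‖S‖ * (if t ∈ KK τ ε N then (0:ℝ) else 1) +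
        ‖τ t (pk (ei t) n) - τ t0 (pk (ei t0) n)‖) := by
    intro t
    have := mul_nonneg hS (norm_nonneg (pk (ei t0) n - pk (ei t) n))
    have h2 := mul_nonneg (mul_nonneg (by norm_num : (0:ℝ) ≤ 2) hS) (n2 t)
    have h3 := norm_nonneg (τ t (pk (ei t) n) - τ t0 (pk (ei t0) n))
    linarith
  have vM : ∀ t : ℝ, ‖S‖ * ‖pk (ei t0) n - pk (ei t) n‖ +
      (2 * ‖S‖ * (if t ∈ KK τ ε N then (0:ℝ) else 1) +
        ‖τ t (pk (ei t) n) - τ t0 (pk (ei t0) n)‖) ≤ 6 * ‖S‖ := by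
    intro t
    have h1 := b1 t
    have h2 := mul_le_mul_of_nonneg_left (b2 t) (mul_nonneg (by norm_num : (0:ℝ) ≤ 2) hS)
    have h3 := b3 t
    linarith
  have hPC := PC _ mv v0 vM hLP hz
  have hev : ∀ᶠ a : ℝ in 𝓝[<] 1,
      (∫ t in (t0 - Real.pi)..(t0 + Real.pi), PK (mo (ei t0) a z) t *
        (‖S‖ * ‖pk (ei t0) n - pk (ei t) n‖ +
      (2 * ‖S‖ * (if t ∈ KK τ ε N then (0:ℝ) else 1) +
        ‖τ t (pk (ei t) n) - τ t0 (pk (ei t0) n)‖))) < ε :=
    hPC.eventually_lt_const hε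
  filter_upwards [hev, Ioo_mem_nhdsLT (show (0:ℝ) < 1 by norm_num)] with a ha ha1
  obtain ⟨f1, f2, f3, f4⟩ := mo_facts hs ha1.1 ha1.2
  have hzc : z ∈ closedBall (0:ℂ) 1 := ball_subset_closedBall hz
  have hw : mo (ei t0) a z ∈ ball (0:ℂ) 1 := f1.mapsB z hz
  have hwc : mo (ei t0) a z ∈ closedBall (0:ℂ) 1 := ball_subset_closedBall hw
  have hg : ‖cmp (moI (ei t0) a) e‖ ≤ 1 := (norm_cmp_le _ _).trans he
  have hgw : ev (cmp (moI (ei t0) a) e) (mo (ei t0) a z) = ev e z := by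
    rw [ev_cmp f2 e _ hwc, f3 z hzc]
  obtain ⟨k0, kc, k1⟩ := PK_facts hw
  generalize hgg : cmp (moI (ei t0) a) e = g at hg hgw ⊢
  generalize hww : mo (ei t0) a z = w at ha hw hwc hgw k0 kc k1 ⊢
  have P1 := poisson_tau h (mulL (pk (ei t0) n) g) hw t0
  have P2 := poissonDA g hw t0
  rw [← hgw, P1, P2, ← intervalIntegral.integral_const_mul]
  have hkc : Continuous (fun t : ℝ => (PK w t : ℂ)) := Complex.continuous_ofReal.comp kc
  have hei : Continuous ei := by unfold ei; fun_prop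
  have hein : ∀ t : ℝ, ei t ∈ closedBall (0:ℂ) 1 := by
    intro t
    rw [mem_closedBall_zero_iff]
    unfold ei
    rw [Complex.norm_exp_ofReal_mul_I]
  have hgc : Continuous (fun t : ℝ => ev g (ei t)) :=
    (ev_isDA g).1.comp_continuous hei hein
  have j1 : IntervalIntegrable (fun t : ℝ => (PK w t : ℂ) * τ t (mulL (pk (ei t0) n) g))
      MeasureTheory.volume (t0 - Real.pi) (t0 + Real.pi) := by
    have hm : IntervalIntegrable (fun t : ℝ => τ t (mulL (pk (ei t0) n) g))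
        MeasureTheory.volume (t0 - Real.pi) (t0 + Real.pi) :=
      loc1_ii (meas_tau h (F := fun _ => mulL (pk (ei t0) n) g) continuous_const)
        (M := ‖S‖ * ‖mulL (pk (ei t0) n) g‖) (fun t => h.bd _ _) _ _
    exact hm.continuousOn_mul hkc.continuousOn
  have j2 : IntervalIntegrable (fun t : ℝ => τ t0 (pk (ei t0) n) * ((PK w t : ℂ) * ev g (ei t)))
      MeasureTheory.volume (t0 - Real.pi) (t0 + Real.pi) :=
    (continuous_const.mul (hkc.mul hgc)).intervalIntegrable _ _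
  rw [← intervalIntegral.integral_sub j1 j2]
  have hle : t0 - Real.pi ≤ t0 + Real.pi := by linarith [Real.pi_pos]
  have j3 : IntervalIntegrable (fun t : ℝ => PK w t * (‖S‖ * ‖pk (ei t0) n - pk (ei t) n‖ +
      (2 * ‖S‖ * (if t ∈ KK τ ε N then (0:ℝ) else 1) +
        ‖τ t (pk (ei t) n) - τ t0 (pk (ei t0) n)‖)))
      MeasureTheory.volume (t0 - Real.pi) (t0 + Real.pi) :=
    ((i1 _ _).add ((i2 _ _).add (i3 _ _))).continuousOn_mul kc.continuousOn
  have j4 : IntervalIntegrable (fun t : ℝ => PK w t * ε)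
      MeasureTheory.volume (t0 - Real.pi) (t0 + Real.pi) :=
    (kc.mul continuous_const).intervalIntegrable _ _
  have hmain : ‖∫ t in (t0 - Real.pi)..(t0 + Real.pi),
      ((PK w t : ℂ) * τ t (mulL (pk (ei t0) n) g) -
        τ t0 (pk (ei t0) n) * ((PK w t : ℂ) * ev g (ei t)))‖ ≤
      ∫ t in (t0 - Real.pi)..(t0 + Real.pi), (PK w t * ε +
        PK w t * (‖S‖ * ‖pk (ei t0) n - pk (ei t) n‖ +
      (2 * ‖S‖ * (if t ∈ KK τ ε N then (0:ℝ) else 1) +
        ‖τ t (pk (ei t) n) - τ t0 (pk (ei t0) n)‖))) := by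
    refine intervalIntegral.norm_integral_le_of_norm_le hle ?_ (j4.add j3)
    refine Filter.Eventually.of_forall (fun t _ => ?_)
    have e3 : (PK w t : ℂ) * τ t (mulL (pk (ei t0) n) g) -
        τ t0 (pk (ei t0) n) * ((PK w t : ℂ) * ev g (ei t)) =
        (PK w t : ℂ) * (τ t (mulL (pk (ei t0) n) g) - τ t0 (pk (ei t0) n) * ev g (ei t)) := by
      ring
    rw [e3, norm_mul, Complex.norm_real, Real.norm_eq_abs, abs_of_nonneg (k0 t), ← mul_add]
    exact mul_le_mul_of_nonneg_left (loc1_pt h hε hn t0 t g hg) (k0 t)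
  refine hmain.trans ?_
  rw [intervalIntegral.integral_add j4 j3, intervalIntegral.integral_mul_const, k1 t0]
  linarith

end Pool.Agent.Helper621.DAP
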