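import Pool.Agent.Helper621.HIP.Defs
import Pool.Agent.Helper621.HIP.P_meas_tau
import Pool.Agent.Helper621.HIP.P_PK_facts
import Pool.Agent.Helper621.HIP.P_poisson_tau
import Pool.Agent.Helper621.HIP.P_lebesgue_pt
import Pool.Agent.Helper621.HIP.P_PC
import Pool.Agent.Helper621.HIP.P_sepDA
import Pool.Agent.Helper621.HIP.P_mo_facts

set_option autoImplicit false

open Complex Metric Set Filter Topology Classical ZeroAtInfty

namespace Pool.Agent.Helper621.DAP


theorem loc2_int {S : DA →L[ℂ] HI} {r : ℕ → ℝ} {τ : ℝ → DA →L[ℂ] ℂ} (h : Bd S r τ)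
    (f : DA) {w : ℂ} (hw : w ∈ ball (0:ℂ) 1) (a b : ℝ) :
    IntervalIntegrable (fun t => (PK w t : ℂ) * τ t f) MeasureTheory.volume a b := by
  obtain ⟨p0, pc, _⟩ := PK_facts hw
  have hg : IntervalIntegrable (fun t => PK w t * (‖S‖ * ‖f‖)) MeasureTheory.volume a b :=
    (pc.mul continuous_const).intervalIntegrable _ _
  refine hg.mono_fun' ?_ ?_
  · exact ((continuous_ofReal.comp pc).aestronglyMeasurable.mul
      (meas_tau h continuous_const).restrict)
  · refine MeasureTheory.ae_of_all _ ?_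
    intro t
    dsimp only
    rw [norm_mul, Complex.norm_of_nonneg (p0 t)]
    exact mul_le_mul_of_nonneg_left (h.bd t f) (p0 t)

theorem loc2_one {S : DA →L[ℂ] HI} {r : ℕ → ℝ} {τ : ℝ → DA →L[ℂ] ℂ} (h : Bd S r τ)
    (f : DA) (t0 : ℝ) (hLP : LP (fun t => ‖τ t f - τ t0 f‖) t0) {z : ℂ} (hz : z ∈ ball (0:ℂ) 1) :
    Tendsto (fun a : ℝ => evH (S f) (mo (ei t0) a z)) (𝓝[<] 1) (𝓝 (τ t0 f)) := by
  have hs : ‖ei t0‖ = 1 := by unfold ei; exact Complex.norm_exp_ofReal_mul_I t0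
  have hmeas : MeasureTheory.AEStronglyMeasurable (fun t => ‖τ t f - τ t0 f‖)
      MeasureTheory.volume :=
    ((meas_tau h (continuous_const : Continuous fun _ : ℝ => f)).sub
      MeasureTheory.aestronglyMeasurable_const).norm
  have hpc := PC (fun t => ‖τ t f - τ t0 f‖) hmeas (fun t => norm_nonneg _)
    (M := ‖S‖ * ‖f‖ + ‖S‖ * ‖f‖)
    (fun t => (norm_sub_le _ _).trans (add_le_add (h.bd t f) (h.bd t0 f))) hLP hz
  rw [tendsto_iff_norm_sub_tendsto_zero]
  have hev : ∀ᶠ a : ℝ in 𝓝[<] 1, a ∈ Ioo (0:ℝ) 1 := Ioo_mem_nhdsLT (by norm_num)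
  refine squeeze_zero' (Eventually.of_forall fun a => norm_nonneg _) ?_ hpc
  filter_upwards [hev] with a ha
  have hw : mo (ei t0) a z ∈ ball (0:ℂ) 1 := (mo_facts hs ha.1 ha.2).1.mapsB z hz
  set w := mo (ei t0) a z with hwdef
  obtain ⟨p0, pc, p1⟩ := PK_facts hw
  have e1 := poisson_tau h f hw t0
  have i1 := loc2_int h f hw (t0 - Real.pi) (t0 + Real.pi)
  have i2 : IntervalIntegrable (fun t => (PK w t : ℂ) * τ t0 f) MeasureTheory.volume
      (t0 - Real.pi) (t0 + Real.pi) :=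
    ((continuous_ofReal.comp pc).mul continuous_const).intervalIntegrable _ _
  have e2 : ∫ t in (t0 - Real.pi)..(t0 + Real.pi), (PK w t : ℂ) * τ t0 f = τ t0 f := by
    rw [intervalIntegral.integral_mul_const, intervalIntegral.integral_ofReal, p1 t0]
    simp
  have e3 : evH (S f) w - τ t0 f =
      ∫ t in (t0 - Real.pi)..(t0 + Real.pi), (PK w t : ℂ) * (τ t f - τ t0 f) := by
    have e4 : ∫ t in (t0 - Real.pi)..(t0 + Real.pi), (PK w t : ℂ) * (τ t f - τ t0 f) =
        (∫ t in (t0 - Real.pi)..(t0 + Real.pi), (PK w t : ℂ) * τ t f) -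
          ∫ t in (t0 - Real.pi)..(t0 + Real.pi), (PK w t : ℂ) * τ t0 f := by
      rw [← intervalIntegral.integral_sub i1 i2]
      congr 1
      ext t
      ring
    rw [e4, e2, e1]
  rw [e3]
  have hle : t0 - Real.pi ≤ t0 + Real.pi := by linarith [Real.pi_pos]
  refine (intervalIntegral.norm_integral_le_integral_norm hle).trans (le_of_eq ?_)
  congr 1
  ext t
  rw [norm_mul, Complex.norm_of_nonneg (p0 t)]

theorem loc2 {S : DA →L[ℂ] HI} {r : ℕ → ℝ} {τ : ℝ → DA →L[ℂ] ℂ} (h : Bd S r τ) :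
    ∀ᵐ t0 : ℝ, ∀ f : DA, ∀ z ∈ ball (0:ℂ) 1,
      Tendsto (fun a : ℝ => evH (S f) (mo (ei t0) a z) - evH (S f) (mo (ei t0) a 0))
        (𝓝[<] 1) (𝓝 0) := by
  haveI := sepDA
  have h1 : ∀ᵐ t0 : ℝ, ∀ j : ℕ, LP (fun t => ‖τ t (TopologicalSpace.denseSeq DA j)
      - τ t0 (TopologicalSpace.denseSeq DA j)‖) t0 := by
    rw [MeasureTheory.ae_all_iff]
    intro j
    exact lebesgue_pt (fun t => τ t (TopologicalSpace.denseSeq DA j))
      (meas_tau h (continuous_const : Continuous fun _ : ℝ => TopologicalSpace.denseSeq DA j))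
      (fun t => h.bd t _)
  filter_upwards [h1] with t0 ht0
  intro f z hz
  rw [Metric.tendsto_nhds]
  intro ε hε
  have hS : 0 < ‖S‖ + 1 := by positivity
  obtain ⟨j, hj⟩ := (TopologicalSpace.denseRange_denseSeq DA).exists_dist_lt f
    (show 0 < ε / (4 * (‖S‖ + 1)) by positivity)
  set q := TopologicalSpace.denseSeq DA j with hq
  have t1 := loc2_one h q t0 (ht0 j) hz
  have t2 := loc2_one h q t0 (ht0 j) (z := 0) (by simp)
  have t3 := t1.sub t2
  rw [sub_self, Metric.tendsto_nhds] at t3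
  filter_upwards [t3 (ε / 2) (by positivity)] with a ha
  rw [dist_zero_right] at ha ⊢
  have b : ∀ w : ℂ, ‖evH (S f) w - evH (S q) w‖ ≤ ε / 4 := by
    intro w
    rw [← evH_sub, ← map_sub]
    refine (norm_evH_le _ _).trans ((S.le_opNorm _).trans ?_)
    rw [dist_eq_norm] at hj
    have : ‖S‖ * ‖f - q‖ ≤ (‖S‖ + 1) * (ε / (4 * (‖S‖ + 1))) := by
      apply mul_le_mul (by linarith) hj.le (norm_nonneg _) hS.le
    refine this.trans (le_of_eq ?_)
    field_simp
  set w1 := mo (ei t0) a z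
  set w2 := mo (ei t0) a 0
  have e4 : evH (S f) w1 - evH (S f) w2 = (evH (S f) w1 - evH (S q) w1)
      + (evH (S q) w1 - evH (S q) w2) - (evH (S f) w2 - evH (S q) w2) := by ring
  rw [e4]
  calc _ ≤ _ := norm_sub_le _ _
    _ ≤ (‖evH (S f) w1 - evH (S q) w1‖ + ‖evH (S q) w1 - evH (S q) w2‖)
        + ‖evH (S f) w2 - evH (S q) w2‖ := by gcongr; exact norm_add_le _ _
    _ < (ε / 4 + ε / 2) + ε / 4 := by linarith [b w1, b w2]
    _ = ε := by ring

end Pool.Agent.Helper621.DAP
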