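import Pool.Agent.Helper621.HIP.Defs
import Pool.Agent.Helper621.HIP.P_bdry
import Pool.Agent.Helper621.HIP.P_meas_tau
import Pool.Agent.Helper621.HIP.P_lebesgue_pt
import Pool.Agent.Helper621.HIP.P_KK_meas
import Pool.Agent.Helper621.HIP.P_KK_union
import Pool.Agent.Helper621.HIP.P_dlim
import Pool.Agent.Helper621.HIP.P_loc1
import Pool.Agent.Helper621.HIP.P_loc2
import Pool.Agent.Helper621.HIP.P_pk_facts

set_option autoImplicit false

open Complex Metric Set Filter Topology Classical ZeroAtInfty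

namespace Pool.Agent.Helper621.DAP


theorem loc_ae (S : DA →L[ℂ] HI) : ∀ᵐ t : ℝ, ∃ D : ℂ, Loc S (ei t) D := by
  obtain ⟨r, τ, h⟩ := bdry S
  have hA : ∀ n : ℕ, ∀ᵐ t0 : ℝ,
      LP (fun t => ‖τ t (pk (ei t) n) - τ t0 (pk (ei t0) n)‖) t0 := by
    intro n
    refine lebesgue_pt (fun t => τ t (pk (ei t) n)) (meas_tau h (pk_facts n).1) (M := ‖S‖) ?_
    intro t
    refine (h.bd t _).trans ?_
    calc ‖S‖ * ‖pk (ei t) n‖ ≤ ‖S‖ * 1 :=
          mul_le_mul_of_nonneg_left ((pk_facts n).2.1 t) (ContinuousLinearMap.opNorm_nonneg S)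
      _ = ‖S‖ := mul_one _
  have hB : ∀ j N : ℕ, ∀ᵐ t0 : ℝ,
      LP (fun t => ‖(if t ∈ KK τ (1 / ((j:ℝ) + 1)) N then (0:ℂ) else 1) -
        (if t0 ∈ KK τ (1 / ((j:ℝ) + 1)) N then (0:ℂ) else 1)‖) t0 := by
    intro j N
    refine lebesgue_pt (fun t => if t ∈ KK τ (1 / ((j:ℝ) + 1)) N then (0:ℂ) else 1) ?_
      (M := 1) ?_
    · have h1 : MeasureTheory.AEStronglyMeasurable
          ((KK τ (1 / ((j:ℝ) + 1)) N)ᶜ.indicator (fun _ => (1:ℂ))) MeasureTheory.volume :=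
        (MeasureTheory.aestronglyMeasurable_const).indicator₀ (KK_meas h _ N).compl
      have h2 : (fun t => if t ∈ KK τ (1 / ((j:ℝ) + 1)) N then (0:ℂ) else 1) =
          (KK τ (1 / ((j:ℝ) + 1)) N)ᶜ.indicator (fun _ => (1:ℂ)) := by
        funext t
        by_cases ht : t ∈ KK τ (1 / ((j:ℝ) + 1)) N
        · rw [if_pos ht, Set.indicator_of_notMem (by simpa using ht)]
        · rw [if_neg ht, Set.indicator_of_mem (by simpa using ht)]
      rw [h2]; exact h1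
    · intro t; split_ifs <;> simp
  filter_upwards [MeasureTheory.ae_all_iff.2 hA,
    MeasureTheory.ae_all_iff.2 fun j => MeasureTheory.ae_all_iff.2 (hB j), loc2 h]
    with t0 h1 h2 h3
  have hcau : CauchySeq (fun n => τ t0 (pk (ei t0) n)) := by
    rw [Metric.cauchySeq_iff']
    intro ε hε
    obtain ⟨N, hN⟩ := KK_union τ (ε := ε / 4) (by positivity) t0
    refine ⟨N, fun n hn => ?_⟩
    rw [dist_eq_norm]
    have := dlim τ hN hn (le_refl N)
    linarith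
  obtain ⟨D, hD⟩ := cauchySeq_tendsto_of_complete hcau
  have hlim : ∀ {ε : ℝ} {N n : ℕ}, t0 ∈ KK τ ε N → N ≤ n →
      ‖τ t0 (pk (ei t0) n) - D‖ ≤ 2 * ε := by
    intro ε N n hK hn
    have ht : Tendsto (fun m => ‖τ t0 (pk (ei t0) n) - τ t0 (pk (ei t0) m)‖) atTop
        (𝓝 ‖τ t0 (pk (ei t0) n) - D‖) := (tendsto_const_nhds.sub hD).norm
    refine le_of_tendsto ht ?_
    filter_upwards [eventually_ge_atTop N] with m hm
    exact dlim τ hK hn hm
  refine ⟨D, ⟨?_, fun f z hz => h3 f z hz⟩⟩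
  intro ε hε
  obtain ⟨j, hj⟩ := exists_nat_gt (4 / ε)
  have hj1 : 4 * (1 / ((j:ℝ) + 1)) ≤ ε := by
    have hj0 : (0:ℝ) < (j:ℝ) + 1 := by positivity
    rw [mul_one_div, div_le_iff₀ hj0]
    rw [div_lt_iff₀ hε] at hj
    nlinarith
  have hjp : (0:ℝ) < 1 / ((j:ℝ) + 1) := by positivity
  obtain ⟨N, hN⟩ := KK_union τ hjp t0
  refine ⟨N, fun n hn e he z hz => ?_⟩
  have hK : LP (fun t => if t ∈ KK τ (1 / ((j:ℝ) + 1)) N then 0 else 1) t0 := by
    have h4 := h2 j N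
    rw [if_pos hN] at h4
    have h5 : (fun t => ‖(if t ∈ KK τ (1 / ((j:ℝ) + 1)) N then (0:ℂ) else 1) - 0‖) =
        (fun t => if t ∈ KK τ (1 / ((j:ℝ) + 1)) N then (0:ℝ) else 1) := by
      funext t
      by_cases ht : t ∈ KK τ (1 / ((j:ℝ) + 1)) N
      · rw [if_pos ht, if_pos ht]; simp
      · rw [if_neg ht, if_neg ht]; simp
    rw [h5] at h4
    exact h4
  filter_upwards [loc1 h hjp hn hK (h1 n) he hz] with a ha
  have h6 : ‖(τ t0 (pk (ei t0) n) - D) * ev e z‖ ≤ 2 * (1 / ((j:ℝ) + 1)) := by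
    rw [norm_mul]
    calc ‖τ t0 (pk (ei t0) n) - D‖ * ‖ev e z‖ ≤ ‖τ t0 (pk (ei t0) n) - D‖ * 1 :=
          mul_le_mul_of_nonneg_left ((norm_ev_le e z).trans he) (norm_nonneg _)
      _ ≤ 2 * (1 / ((j:ℝ) + 1)) := by rw [mul_one]; exact hlim hN hn
  have h7 : evH (S (mulL (pk (ei t0) n) (cmp (moI (ei t0) a) e))) (mo (ei t0) a z) - D * ev e z
      = (evH (S (mulL (pk (ei t0) n) (cmp (moI (ei t0) a) e))) (mo (ei t0) a z) -
        τ t0 (pk (ei t0) n) * ev e z) + (τ t0 (pk (ei t0) n) - D) * ev e z := by ring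
  rw [h7]
  refine (norm_add_le _ _).trans ?_
  linarith

end Pool.Agent.Helper621.DAP
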