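import Pool.Agent.Helper621.HIP.Defs
import Pool.Agent.Helper621.HIP.P_mo_facts
import Pool.Agent.Helper621.HIP.P_pk_facts

set_option autoImplicit false

open Complex Metric Set Filter Topology Classical ZeroAtInfty

namespace Pool.Agent.Helper621.DAP


theorem loc_compl_tend {s : ℂ} (z : ℂ) (hz : z ∈ ball (0:ℂ) 1) :
    Tendsto (fun a : ℝ => mo s a z) (𝓝[<] 1) (𝓝 s) := by
  have hne : (1 + (1 : ℝ) * z : ℂ) ≠ 0 := by
    intro h0
    have h1 : z = -1 := by
      have : (1 : ℂ) + z = 0 := by simpa using h0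
      linear_combination this
    rw [h1] at hz
    simp at hz
  have hc : ContinuousAt (fun a : ℝ => mo s a z) 1 := by
    unfold mo
    apply ContinuousAt.div
    · fun_prop
    · fun_prop
    · exact hne
  have h2 : mo s 1 z = s := by
    unfold mo
    have h3 : (1 + (1 : ℝ) * z : ℂ) = z + (1 : ℝ) := by push_cast; ring
    rw [h3] at hne ⊢
    field_simp
  have h4 : Tendsto (fun a : ℝ => mo s a z) (𝓝 1) (𝓝 (mo s 1 z)) := hc.tendsto
  rw [h2] at h4
  exact h4.mono_left nhdsWithin_le_nhds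

theorem loc_compl_ev01 : ∀ᶠ a : ℝ in 𝓝[<] 1, 0 < a ∧ a < 1 := by
  have h1 : ∀ᶠ a : ℝ in 𝓝[<] 1, a < 1 := eventually_mem_nhdsWithin
  have h2 : ∀ᶠ a : ℝ in 𝓝[<] 1, 0 < a :=
    nhdsWithin_le_nhds (lt_mem_nhds (by norm_num : (0:ℝ) < 1))
  filter_upwards [h1, h2] with a h1 h2 using ⟨h2, h1⟩

theorem loc_compl_evt {s : ℂ} (hs : ‖s‖ = 1) (f : DA) (z : ℂ) (hz : z ∈ ball (0:ℂ) 1) :
    Tendsto (fun a : ℝ => ev f (mo s a z)) (𝓝[<] 1) (𝓝 (ev f s)) := by
  have hsm : s ∈ closedBall (0:ℂ) 1 := by simp [hs]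
  have h1 : ContinuousWithinAt (ev f) (closedBall (0:ℂ) 1) s := (ev_isDA f).1 s hsm
  have h2 : Tendsto (fun a : ℝ => mo s a z) (𝓝[<] 1) (𝓝[closedBall (0:ℂ) 1] s) := by
    apply tendsto_nhdsWithin_of_tendsto_nhds_of_eventually_within
    · exact loc_compl_tend z hz
    · filter_upwards [loc_compl_ev01] with a ha
      exact (mo_facts hs ha.1 ha.2).1.mapsC z (ball_subset_closedBall hz)
  exact h1.tendsto.comp h2

theorem loc_compl_apply (T : HI →L[ℂ] HI) (f : DA) (w : ℂ) (hw : w ∈ ball (0:ℂ) 1) :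
    evH (((ContinuousLinearMap.id ℂ HI - T).comp rho) f) w = ev f w - evH ((T.comp rho) f) w := by
  have h1 : ((ContinuousLinearMap.id ℂ HI - T).comp rho) f = rho f - (T.comp rho) f := by
    simp
  rw [h1, evH_sub, evH_rho f w hw]

theorem loc_compl (T : HI →L[ℂ] HI) {s D : ℂ} (hs : ‖s‖ = 1) (h : Loc (T.comp rho) s D) :
    Loc ((ContinuousLinearMap.id ℂ HI - T).comp rho) s (1 - D) := by
  constructor
  · intro ε hε
    obtain ⟨N, hN⟩ := h.diag (ε / 2) (by linarith)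
    refine ⟨N, fun n hn e he z hz => ?_⟩
    have hpk : Tendsto (fun a : ℝ => ((1 + (starRingEnd ℂ) s * mo s a z) / 2) ^ n) (𝓝[<] 1)
        (𝓝 1) := by
      have h1 := loc_compl_tend (s := s) z hz
      have h2 : Tendsto (fun a : ℝ => ((1 + (starRingEnd ℂ) s * mo s a z) / 2) ^ n) (𝓝[<] 1)
        (𝓝 (((1 + (starRingEnd ℂ) s * s) / 2) ^ n)) :=
        (((h1.const_mul _).const_add _).div_const _).pow _
      have h3 : (starRingEnd ℂ) s * s = 1 := by
        rw [mul_comm, Complex.mul_conj, Complex.normSq_eq_norm_sq, hs]; norm_num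
      rw [h3] at h2
      norm_num at h2
      exact h2
    have hpe : ∀ᶠ a : ℝ in 𝓝[<] 1,
        ‖((1 + (starRingEnd ℂ) s * mo s a z) / 2) ^ n - 1‖ < ε / 2 := by
      have h1 := Metric.tendsto_nhds.1 hpk (ε / 2) (by linarith)
      filter_upwards [h1] with a ha
      rwa [dist_eq_norm] at ha
    filter_upwards [loc_compl_ev01, hN n hn e he z hz, hpe] with a ha hb hc
    obtain ⟨m1, m2, m3, m4⟩ := mo_facts hs ha.1 ha.2
    have hzc := ball_subset_closedBall hz
    have hmb := m1.mapsB z hz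
    have hmc := m1.mapsC z hzc
    rw [loc_compl_apply T _ _ hmb, ev_mulL _ _ _ hmc, ev_cmp m2 _ _ hmc, m3 z hzc,
      ev_pk _ _ _ hmc]
    have hek : ‖ev e z‖ ≤ 1 := (norm_ev_le e z).trans he
    have key : ((1 + (starRingEnd ℂ) s * mo s a z) / 2) ^ n * ev e z -
        evH ((T.comp rho) ((mulL (pk s n)) ((cmp (moI s a)) e))) (mo s a z) - (1 - D) * ev e z
        = (((1 + (starRingEnd ℂ) s * mo s a z) / 2) ^ n - 1) * ev e z -
          (evH ((T.comp rho) ((mulL (pk s n)) ((cmp (moI s a)) e))) (mo s a z) - D * ev e z) := by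
      ring
    rw [key]
    refine (norm_sub_le _ _).trans ?_
    have h5 : ‖(((1 + (starRingEnd ℂ) s * mo s a z) / 2) ^ n - 1) * ev e z‖ ≤ ε / 2 * 1 := by
      rw [norm_mul]
      exact mul_le_mul hc.le hek (norm_nonneg _) (by linarith)
    linarith
  · intro f z hz
    have h0 : (0:ℂ) ∈ ball (0:ℂ) 1 := by simp
    have h1 := (loc_compl_evt hs f z hz).sub (loc_compl_evt hs f 0 h0)
    have h2 := h1.sub (h.flat f z hz)
    simp only [sub_self] at h2
    refine h2.congr' ?_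
    filter_upwards [loc_compl_ev01] with a ha
    obtain ⟨m1, m2, m3, m4⟩ := mo_facts hs ha.1 ha.2
    rw [loc_compl_apply T f _ (m1.mapsB z hz), loc_compl_apply T f _ (m1.mapsB 0 h0)]
    ring

end Pool.Agent.Helper621.DAP
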