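import Pool.Agent.Helper621.HIP.Defs
import Pool.Agent.Helper621.HIP.P_loc_ae
import Pool.Agent.Helper621.HIP.P_loc_compl
import Pool.Agent.Helper621.HIP.P_fact_of_loc

set_option autoImplicit false

open Complex Metric Set Filter Topology Classical ZeroAtInfty

namespace Pool.Agent.Helper621.DAP


theorem factorH (T : HI →L[ℂ] HI) :
    (∃ (a : BoundedContinuousFunction ℕ HI →L[ℂ] HI)
      (b : HI →L[ℂ] BoundedContinuousFunction ℕ HI), ∀ x, b (T (a x)) = x) ∨
    (∃ (a : BoundedContinuousFunction ℕ HI →L[ℂ] HI)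
      (b : HI →L[ℂ] BoundedContinuousFunction ℕ HI), ∀ x, b (a x - T (a x)) = x) := by
  set G : Set ℝ := {t | t ∈ Ioo (0:ℝ) 1 ∧ ∃ D : ℂ, Loc (T.comp rho) (ei t) D} with hG
  have hGinf : G.Infinite := by
    intro hfin
    have h1 : MeasureTheory.volume G = 0 := hfin.measure_zero _
    have h2 : MeasureTheory.volume {t : ℝ | ¬ ∃ D : ℂ, Loc (T.comp rho) (ei t) D} = 0 :=
      MeasureTheory.ae_iff.mp (loc_ae (T.comp rho))
    have h3 : Ioo (0:ℝ) 1 ⊆ G ∪ {t : ℝ | ¬ ∃ D : ℂ, Loc (T.comp rho) (ei t) D} := by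
      intro t ht
      by_cases h : ∃ D : ℂ, Loc (T.comp rho) (ei t) D
      · exact Or.inl ⟨ht, h⟩
      · exact Or.inr h
    have h4 : MeasureTheory.volume (Ioo (0:ℝ) 1) = 0 :=
      MeasureTheory.measure_mono_null h3 (MeasureTheory.measure_union_null h1 h2)
    rw [Real.volume_Ioo] at h4
    norm_num at h4
  have hinj : Set.InjOn ei G := by
    intro t ht t' ht' h
    have h1 : exp ((t : ℂ) * I) = exp ((t' : ℂ) * I) := h
    rw [Complex.exp_eq_exp_iff_exists_int] at h1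
    obtain ⟨n, hn⟩ := h1
    have h2 : (t : ℂ) = t' + n * (2 * Real.pi) := by
      have h3 : ((t : ℂ) - (t' + n * (2 * Real.pi))) * I = 0 := by linear_combination hn
      rcases mul_eq_zero.mp h3 with h4 | h4
      · exact sub_eq_zero.mp h4
      · exact absurd h4 I_ne_zero
    have h3 : t = t' + n * (2 * Real.pi) := by exact_mod_cast h2
    have hπ := Real.pi_gt_three
    have ht1 := ht.1
    have ht1' := ht'.1
    rw [Set.mem_Ioo] at ht1 ht1'
    have hn0 : n = 0 := by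
      by_contra hne
      rcases lt_or_gt_of_ne hne with hlt | hgt
      · have h5 : (n : ℝ) ≤ -1 := by exact_mod_cast (by omega : n ≤ -1)
        nlinarith
      · have h5 : (1 : ℝ) ≤ n := by exact_mod_cast (by omega : 1 ≤ n)
        nlinarith
    rw [hn0] at h3
    simpa using h3
  set Θ : Set ℂ := ei '' G with hΘ
  have hΘinf : Θ.Infinite := hGinf.image hinj
  have hΘ1 : ∀ s ∈ Θ, ‖s‖ = 1 := by
    rintro _ ⟨t, _, rfl⟩
    exact Complex.norm_exp_ofReal_mul_I t
  have hex : ∀ s ∈ Θ, ∃ D : ℂ, Loc (T.comp rho) s D := by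
    rintro _ ⟨t, ht, rfl⟩
    exact ht.2
  set D : ℂ → ℂ := fun s => if h : ∃ D : ℂ, Loc (T.comp rho) s D then h.choose else 0 with hD
  have hDL : ∀ s ∈ Θ, Loc (T.comp rho) s (D s) := by
    intro s hs
    have h := hex s hs
    simp only [hD, dif_pos h]
    exact h.choose_spec
  have hcover : Θ ⊆ {s | s ∈ Θ ∧ 1 / 2 ≤ ‖D s‖} ∪ {s | s ∈ Θ ∧ 1 / 2 ≤ ‖1 - D s‖} := by
    intro s hs
    by_cases h : 1 / 2 ≤ ‖D s‖
    · exact Or.inl ⟨hs, h⟩
    · right
      refine ⟨hs, ?_⟩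
      have h1 : ‖(1 : ℂ)‖ ≤ ‖1 - D s‖ + ‖D s‖ := by
        have := norm_add_le (1 - D s) (D s)
        rwa [sub_add_cancel] at this
      rw [norm_one] at h1
      linarith
  rcases Set.infinite_union.mp (hΘinf.mono hcover) with h | h
  · left
    exact fact_of_loc T h (fun s hs => hΘ1 s hs.1) D (fun s hs => hs.2) (fun s hs => hDL s hs.1)
  · right
    obtain ⟨a, b, hab⟩ := fact_of_loc (ContinuousLinearMap.id ℂ HI - T) h
      (fun s hs => hΘ1 s hs.1) (fun s => 1 - D s) (fun s hs => hs.2)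
      (fun s hs => loc_compl T (hΘ1 s hs.1) (hDL s hs.1))
    exact ⟨a, b, fun x => hab x⟩

end Pool.Agent.Helper621.DAP
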