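import Mathlib

set_option autoImplicit false

open Complex Metric Set Filter Topology Classical ZeroAtInfty

namespace Pool.Agent.Helper621.DAP


theorem lb_congr {A B : Type} [NormedAddCommGroup A] [NormedSpace ℂ A] [NormedAddCommGroup B]
    [NormedSpace ℂ B] (e : A ≃L[ℂ] B) :
    Nonempty (BoundedContinuousFunction ℕ A ≃L[ℂ] BoundedContinuousFunction ℕ B) := by
  refine ⟨ContinuousLinearEquiv.equivOfInverse
    (ContinuousLinearMap.compLeftContinuousBounded ℕ (e : A →L[ℂ] B))
    (ContinuousLinearMap.compLeftContinuousBounded ℕ (e.symm : B →L[ℂ] A)) ?_ ?_⟩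
  · intro f
    ext n
    exact e.symm_apply_apply (f n)
  · intro f
    ext n
    exact e.apply_symm_apply (f n)

end Pool.Agent.Helper621.DAP
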