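import Mathlib

set_option autoImplicit false

open Complex Metric Set Filter Topology Classical ZeroAtInfty

namespace Pool.Agent.Helper621.DAP


theorem lb_double {A : Type} [NormedAddCommGroup A] [NormedSpace ℂ A] :
    Nonempty (BoundedContinuousFunction ℕ (BoundedContinuousFunction ℕ A) ≃L[ℂ]
      BoundedContinuousFunction ℕ A) := by
  let e : BoundedContinuousFunction ℕ (BoundedContinuousFunction ℕ A) ≃ₗ[ℂ]
      BoundedContinuousFunction ℕ A :=
    { toFun := fun x => BoundedContinuousFunction.ofNormedAddCommGroupDiscrete
        (fun k => x (Nat.unpair k).1 (Nat.unpair k).2) ‖x‖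
        (fun k => ((x (Nat.unpair k).1).norm_coe_le_norm _).trans (x.norm_coe_le_norm _))
      map_add' := fun x y => by
        ext k
        rfl
      map_smul' := fun c x => by
        ext k
        rfl
      invFun := fun y => BoundedContinuousFunction.ofNormedAddCommGroupDiscrete
        (fun m => BoundedContinuousFunction.ofNormedAddCommGroupDiscrete
          (fun n => y (Nat.pair m n)) ‖y‖ (fun n => y.norm_coe_le_norm _)) ‖y‖
        (fun m => (BoundedContinuousFunction.norm_le (norm_nonneg y)).2
          (fun n => y.norm_coe_le_norm _))
      left_inv := fun x => by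
        ext m n
        show x (Nat.unpair (Nat.pair m n)).1 (Nat.unpair (Nat.pair m n)).2 = x m n
        rw [Nat.unpair_pair]
      right_inv := fun y => by
        ext k
        show y (Nat.pair (Nat.unpair k).1 (Nat.unpair k).2) = y k
        rw [Nat.pair_unpair] }
  refine ⟨e.toContinuousLinearEquivOfBounds 1 1 ?_ ?_⟩
  · intro x
    rw [one_mul]
    exact (BoundedContinuousFunction.norm_le (norm_nonneg x)).2
      (fun k => ((x (Nat.unpair k).1).norm_coe_le_norm _).trans (x.norm_coe_le_norm _))
  · intro y
    rw [one_mul]
    exact (BoundedContinuousFunction.norm_le (norm_nonneg y)).2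
      (fun m => (BoundedContinuousFunction.norm_le (norm_nonneg y)).2
        (fun n => y.norm_coe_le_norm _))

end Pool.Agent.Helper621.DAP
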