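import Mathlib

set_option autoImplicit false

open Complex Metric Set Filter Topology Classical ZeroAtInfty

namespace Pool.Agent.Helper621.DAP


theorem lb_prod {A B : Type} [NormedAddCommGroup A] [NormedSpace ℂ A] [NormedAddCommGroup B]
    [NormedSpace ℂ B] :
    Nonempty (BoundedContinuousFunction ℕ (A × B) ≃L[ℂ]
      BoundedContinuousFunction ℕ A × BoundedContinuousFunction ℕ B) := by
  refine ⟨ContinuousLinearEquiv.equivOfInverse
    (((ContinuousLinearMap.fst ℂ A B).compLeftContinuousBounded ℕ).prod
      ((ContinuousLinearMap.snd ℂ A B).compLeftContinuousBounded ℕ))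
    (((ContinuousLinearMap.inl ℂ A B).compLeftContinuousBounded ℕ).coprod
      ((ContinuousLinearMap.inr ℂ A B).compLeftContinuousBounded ℕ)) ?_ ?_⟩
  · intro f
    ext n <;> simp
  · rintro ⟨f, g⟩
    refine Prod.ext ?_ ?_ <;> ext n <;> simp

end Pool.Agent.Helper621.DAP
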