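import Mathlib

set_option autoImplicit false

open Complex Metric Set Filter Topology Classical ZeroAtInfty

namespace Pool.Agent.Helper621.DAP


noncomputable def lb_shift_fwd {A : Type} [NormedAddCommGroup A]
    (f : BoundedContinuousFunction ℕ A) : BoundedContinuousFunction ℕ A :=
  BoundedContinuousFunction.ofNormedAddCommGroupDiscrete (fun n => f (n + 1)) ‖f‖
    (fun n => f.norm_coe_le_norm (n + 1))

noncomputable def lb_shift_fun {A : Type} [NormedAddCommGroup A] (a : A)
    (y : BoundedContinuousFunction ℕ A) : ℕ → A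
  | 0 => a
  | n + 1 => y n

theorem lb_shift_bd {A : Type} [NormedAddCommGroup A] (a : A)
    (y : BoundedContinuousFunction ℕ A) (n : ℕ) : ‖lb_shift_fun a y n‖ ≤ max ‖a‖ ‖y‖ := by
  cases n with
  | zero => exact le_max_left _ _
  | succ n => exact (y.norm_coe_le_norm n).trans (le_max_right _ _)

noncomputable def lb_shift_bwd {A : Type} [NormedAddCommGroup A] (a : A)
    (y : BoundedContinuousFunction ℕ A) : BoundedContinuousFunction ℕ A :=
  BoundedContinuousFunction.ofNormedAddCommGroupDiscrete (lb_shift_fun a y) (max ‖a‖ ‖y‖)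
    (lb_shift_bd a y)

noncomputable def lb_shift_eq {A : Type} [NormedAddCommGroup A] [NormedSpace ℂ A] :
    BoundedContinuousFunction ℕ A ≃ₗ[ℂ] A × BoundedContinuousFunction ℕ A where
  toFun f := (f 0, lb_shift_fwd f)
  map_add' f g := by
    refine Prod.ext rfl ?_
    ext n
    rfl
  map_smul' c f := by
    refine Prod.ext rfl ?_
    ext n
    rfl
  invFun p := lb_shift_bwd p.1 p.2
  left_inv f := by
    ext n
    cases n with
    | zero => rfl
    | succ n => rfl
  right_inv p := by
    refine Prod.ext rfl ?_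
    ext n
    rfl

theorem lb_shift {A : Type} [NormedAddCommGroup A] [NormedSpace ℂ A] :
    Nonempty (BoundedContinuousFunction ℕ A ≃L[ℂ] A × BoundedContinuousFunction ℕ A) := by
  refine ⟨LinearEquiv.toContinuousLinearEquivOfBounds lb_shift_eq 1 1 ?_ ?_⟩
  · intro f
    rw [one_mul]
    refine max_le (f.norm_coe_le_norm 0) ?_
    rw [BoundedContinuousFunction.norm_le (norm_nonneg _)]
    intro n
    exact f.norm_coe_le_norm (n + 1)
  · intro p
    rw [one_mul]
    show ‖lb_shift_bwd p.1 p.2‖ ≤ ‖p‖
    rw [BoundedContinuousFunction.norm_le (norm_nonneg _)]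
    intro n
    exact lb_shift_bd p.1 p.2 n

end Pool.Agent.Helper621.DAP
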