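import Mathlib

set_option autoImplicit false

open Complex Metric Set Filter Topology Classical ZeroAtInfty

namespace Pool.Agent.Helper621.DAP


noncomputable def lb_split_merge {A : Type} [NormedAddCommGroup A] [NormedSpace ℂ A]
    (f g : BoundedContinuousFunction ℕ A) : BoundedContinuousFunction ℕ A :=
  BoundedContinuousFunction.ofNormedAddCommGroupDiscrete
    (fun n => if n % 2 = 0 then f (n / 2) else g (n / 2)) (max ‖f‖ ‖g‖) (by
      intro n
      split_ifs
      · exact (f.norm_coe_le_norm _).trans (le_max_left _ _)
      · exact (g.norm_coe_le_norm _).trans (le_max_right _ _))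

theorem lb_split_merge_apply {A : Type} [NormedAddCommGroup A] [NormedSpace ℂ A]
    (f g : BoundedContinuousFunction ℕ A) (n : ℕ) :
    lb_split_merge f g n = if n % 2 = 0 then f (n / 2) else g (n / 2) := rfl

noncomputable def lb_split_lin (A : Type) [NormedAddCommGroup A] [NormedSpace ℂ A] :
    BoundedContinuousFunction ℕ A ≃ₗ[ℂ]
      BoundedContinuousFunction ℕ A × BoundedContinuousFunction ℕ A where
  toFun f := (f.compContinuous ⟨fun n => 2 * n, continuous_of_discreteTopology⟩,
    f.compContinuous ⟨fun n => 2 * n + 1, continuous_of_discreteTopology⟩)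
  map_add' f g := by
    apply Prod.ext
    · ext n; simp
    · ext n; simp
  map_smul' c f := by
    apply Prod.ext
    · ext n; simp
    · ext n; simp
  invFun p := lb_split_merge p.1 p.2
  left_inv f := by
    ext n
    rw [lb_split_merge_apply]
    split_ifs with h
    · show f (2 * (n / 2)) = f n
      congr 1; omega
    · show f (2 * (n / 2) + 1) = f n
      congr 1; omega
  right_inv p := by
    apply Prod.ext
    · ext n
      show lb_split_merge p.1 p.2 (2 * n) = p.1 n
      rw [lb_split_merge_apply, if_pos (by omega)]
      congr 1; omega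
    · ext n
      show lb_split_merge p.1 p.2 (2 * n + 1) = p.2 n
      rw [lb_split_merge_apply, if_neg (by omega)]
      congr 1; omega

theorem lb_split {A : Type} [NormedAddCommGroup A] [NormedSpace ℂ A] :
    Nonempty (BoundedContinuousFunction ℕ A ≃L[ℂ]
      BoundedContinuousFunction ℕ A × BoundedContinuousFunction ℕ A) := by
  refine ⟨(lb_split_lin A).toContinuousLinearEquivOfBounds 1 1 ?_ ?_⟩
  · intro f
    rw [one_mul]
    show ‖((f.compContinuous ⟨fun n => 2 * n, continuous_of_discreteTopology⟩ :
      BoundedContinuousFunction ℕ A),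
      (f.compContinuous ⟨fun n => 2 * n + 1, continuous_of_discreteTopology⟩ :
      BoundedContinuousFunction ℕ A))‖ ≤ ‖f‖
    rw [Prod.norm_def]
    refine max_le ?_ ?_
    · exact (BoundedContinuousFunction.norm_le (norm_nonneg _)).mpr fun n => f.norm_coe_le_norm _
    · exact (BoundedContinuousFunction.norm_le (norm_nonneg _)).mpr fun n => f.norm_coe_le_norm _
  · intro p
    rw [one_mul]
    show ‖lb_split_merge p.1 p.2‖ ≤ ‖p‖
    refine (BoundedContinuousFunction.norm_le (norm_nonneg _)).mpr fun n => ?_
    rw [lb_split_merge_apply]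
    split_ifs
    · exact (p.1.norm_coe_le_norm _).trans (norm_fst_le p)
    · exact (p.2.norm_coe_le_norm _).trans (norm_snd_le p)

end Pool.Agent.Helper621.DAP
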