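import Mathlib
import Pool.Agent.Helper621.HIP.P_lb_congr
import Pool.Agent.Helper621.HIP.P_lb_prod
import Pool.Agent.Helper621.HIP.P_lb_shift
import Pool.Agent.Helper621.HIP.P_lb_double
import Pool.Agent.Helper621.HIP.P_lb_split

set_option autoImplicit false

open Complex Metric Set Filter Topology Classical ZeroAtInfty

namespace Pool.Agent.Helper621.DAP


theorem pelczynskiB {E Y : Type} [NormedAddCommGroup E] [NormedSpace ℂ E] [NormedAddCommGroup Y]
    [NormedSpace ℂ Y] (i : Y →L[ℂ] BoundedContinuousFunction ℕ E)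
    (p : BoundedContinuousFunction ℕ E →L[ℂ] Y) (hpi : ∀ y, p (i y) = y)
    (j : BoundedContinuousFunction ℕ E →L[ℂ] Y) (q : Y →L[ℂ] BoundedContinuousFunction ℕ E)
    (hqj : ∀ x, q (j x) = x) :
    Nonempty (Y ≃L[ℂ] BoundedContinuousFunction ℕ E) := by
  have e1 : BoundedContinuousFunction ℕ E ≃L[ℂ] Y × p.ker :=
    ContinuousLinearEquiv.equivOfRightInverse p i hpi
  have e2 : Y ≃L[ℂ] BoundedContinuousFunction ℕ E × q.ker :=
    ContinuousLinearEquiv.equivOfRightInverse q j hqj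
  obtain ⟨sp⟩ := lb_split (A := E)
  -- Y ≃ X × Y
  have f1 : Y ≃L[ℂ] BoundedContinuousFunction ℕ E × Y :=
    e2.trans ((sp.prodCongr (ContinuousLinearEquiv.refl ℂ q.ker)).trans
      ((ContinuousLinearEquiv.prodAssoc ℂ (BoundedContinuousFunction ℕ E)
        (BoundedContinuousFunction ℕ E) q.ker).trans
        ((ContinuousLinearEquiv.refl ℂ (BoundedContinuousFunction ℕ E)).prodCongr e2.symm)))
  obtain ⟨db⟩ := lb_double (A := E)
  obtain ⟨c1⟩ := lb_congr e1
  obtain ⟨pr⟩ := lb_prod (A := Y) (B := p.ker)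
  obtain ⟨sh⟩ := lb_shift (A := Y)
  -- l = BCF(N, X)  ≃ BCF Y × BCF V
  have g1 : BoundedContinuousFunction ℕ (BoundedContinuousFunction ℕ E) ≃L[ℂ]
      BoundedContinuousFunction ℕ Y × BoundedContinuousFunction ℕ p.ker := c1.trans pr
  have g2 : BoundedContinuousFunction ℕ (BoundedContinuousFunction ℕ E) ≃L[ℂ]
      Y × BoundedContinuousFunction ℕ (BoundedContinuousFunction ℕ E) :=
    g1.trans ((sh.prodCongr (ContinuousLinearEquiv.refl ℂ (BoundedContinuousFunction ℕ p.ker))).trans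
      ((ContinuousLinearEquiv.prodAssoc ℂ Y (BoundedContinuousFunction ℕ Y)
        (BoundedContinuousFunction ℕ p.ker)).trans
        ((ContinuousLinearEquiv.refl ℂ Y).prodCongr g1.symm)))
  have g3 : BoundedContinuousFunction ℕ E ≃L[ℂ] Y × BoundedContinuousFunction ℕ E :=
    db.symm.trans (g2.trans ((ContinuousLinearEquiv.refl ℂ Y).prodCongr db))
  exact ⟨f1.trans ((ContinuousLinearEquiv.prodComm ℂ (BoundedContinuousFunction ℕ E) Y).trans g3.symm)⟩

end Pool.Agent.Helper621.DAP
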