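import Pool.Agent.Helper621.HIP.Defs
import Pool.Agent.Helper621.HIP.P_factorH
import Pool.Agent.Helper621.HIP.P_pelczynskiB

set_option autoImplicit false

open Complex Metric Set Filter Topology Classical ZeroAtInfty

namespace Pool.Agent.Helper621.DAP


theorem isoH_sg_add (x y : HI) : sg 0 (x + y) = sg 0 x + sg 0 y := by
  ext1 n
  rw [BoundedContinuousFunction.add_apply, sg_apply, sg_apply, sg_apply]
  split_ifs
  · rfl
  · rw [add_zero]

theorem isoH_sg_smul (c : ℂ) (x : HI) : sg 0 (c • x) = c • sg 0 x := by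
  ext1 n
  rw [BoundedContinuousFunction.smul_apply, sg_apply, sg_apply]
  split_ifs
  · rfl
  · rw [smul_zero]

theorem isoH_sg_norm (x : HI) : ‖sg 0 x‖ ≤ 1 * ‖x‖ := by
  rw [one_mul, BoundedContinuousFunction.norm_le (norm_nonneg _)]
  intro n
  rw [sg_apply]
  split_ifs
  · exact le_refl _
  · rw [norm_zero]; exact norm_nonneg _

theorem isoH : Nonempty (HI ≃L[ℂ] BoundedContinuousFunction ℕ HI) := by
  rcases factorH 0 with ⟨a, b, h⟩ | ⟨a, b, h⟩
  · exfalso
    have h1 := h (sg 0 (rho one))
    rw [_root_.zero_apply, map_zero] at h1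
    have h2 : (sg 0 (rho one) : BoundedContinuousFunction ℕ HI) 0 = 0 := by
      rw [← h1]; rfl
    rw [sg_apply, if_pos rfl] at h2
    have h3 : evH (rho one) 0 = 1 := by
      rw [evH_rho one 0 (by simp), ev_one 0 (by simp)]
    rw [h2, evH_zero] at h3
    exact zero_ne_one h3
  · refine pelczynskiB (E := HI) (Y := HI)
      (LinearMap.mkContinuous
        { toFun := fun x => sg 0 x
          map_add' := isoH_sg_add
          map_smul' := isoH_sg_smul } 1 isoH_sg_norm)
      (BoundedContinuousFunction.evalCLM ℂ 0) (fun y => ?_) a b (fun x => ?_)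
    · change (sg 0 y : BoundedContinuousFunction ℕ HI) 0 = y
      rw [sg_apply, if_pos rfl]
    · have h1 := h x
      rwa [_root_.zero_apply, sub_zero] at h1

end Pool.Agent.Helper621.DAP
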