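import Pool.Agent.Helper621.DAP.P_main

set_option autoImplicit false

open Complex Metric Set Filter Topology Classical ZeroAtInfty

namespace Pool.Agent.Helper621.DAP

theorem primA_aux {Y : Type} [NormedAddCommGroup Y] [NormedSpace ℂ Y]
    (inY : Y →L[ℂ] DA) (prY : DA →L[ℂ] Y) (h : ∀ y, prY (inY y) = y)
    (a b : DA →L[ℂ] DA) (hab : ∀ f, b (inY (prY (a f))) = f) : Nonempty (DA ≃L[ℂ] Y) := by
  obtain ⟨u⟩ := primary_e
  obtain ⟨w⟩ := pelczynski (E := DA) (Y := Y) ((u : DA →L[ℂ] C₀(ℕ, DA)).comp inY)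
    (prY.comp (u.symm : C₀(ℕ, DA) →L[ℂ] DA)) (by
      intro y
      show prY (u.symm (u (inY y))) = y
      rw [u.symm_apply_apply]; exact h y)
    (prY.comp (a.comp (u.symm : C₀(ℕ, DA) →L[ℂ] DA)))
    ((u : DA →L[ℂ] C₀(ℕ, DA)).comp (b.comp inY)) (by
      intro x
      show u (b (inY (prY (a (u.symm x))))) = x
      rw [hab, u.apply_symm_apply])
  exact ⟨u.trans w.symm⟩

theorem primA (Y : Type) [NormedAddCommGroup Y] [NormedSpace ℂ Y] (Z : Type)
    [NormedAddCommGroup Z] [NormedSpace ℂ Z] (e : DA ≃L[ℂ] (Y × Z)) :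
    Nonempty (DA ≃L[ℂ] Y) ∨ Nonempty (DA ≃L[ℂ] Z) := by
  let inY : Y →L[ℂ] DA := (e.symm : (Y × Z) →L[ℂ] DA).comp (ContinuousLinearMap.inl ℂ Y Z)
  let prY : DA →L[ℂ] Y := (ContinuousLinearMap.fst ℂ Y Z).comp (e : DA →L[ℂ] (Y × Z))
  let inZ : Z →L[ℂ] DA := (e.symm : (Y × Z) →L[ℂ] DA).comp (ContinuousLinearMap.inr ℂ Y Z)
  let prZ : DA →L[ℂ] Z := (ContinuousLinearMap.snd ℂ Y Z).comp (e : DA →L[ℂ] (Y × Z))
  have hY : ∀ y, prY (inY y) = y := by
    intro y
    show (e (e.symm (y, 0))).1 = y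
    rw [e.apply_symm_apply]
  have hZ : ∀ z, prZ (inZ z) = z := by
    intro z
    show (e (e.symm (0, z))).2 = z
    rw [e.apply_symm_apply]
  have hsum : ∀ f, f - inY (prY f) = inZ (prZ f) := by
    intro f
    apply e.injective
    rw [map_sub]
    show e f - e (e.symm ((e f).1, 0)) = e (e.symm (0, (e f).2))
    rw [e.apply_symm_apply, e.apply_symm_apply]
    ext <;> simp
  rcases factor (inY.comp prY) with ⟨a, b, hab⟩ | ⟨a, b, hab⟩
  · left
    exact primA_aux inY prY hY a b hab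
  · right
    refine primA_aux inZ prZ hZ a b ?_
    intro f
    rw [← hsum]
    exact hab f

end Pool.Agent.Helper621.DAP
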