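import Pool.Agent.Helper621.HIP.Defs
import Pool.Agent.Helper621.HIP.P_factorH
import Pool.Agent.Helper621.HIP.P_isoH
import Pool.Agent.Helper621.HIP.P_pelczynskiB

set_option autoImplicit false

open Complex Metric Set Filter Topology Classical ZeroAtInfty

namespace Pool.Agent.Helper621.DAP


theorem primH (Y : Type) [NormedAddCommGroup Y] [NormedSpace ℂ Y] (Z : Type)
    [NormedAddCommGroup Z] [NormedSpace ℂ Z] (e : HI ≃L[ℂ] (Y × Z)) :
    Nonempty (HI ≃L[ℂ] Y) ∨ Nonempty (HI ≃L[ℂ] Z) := by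
  obtain ⟨u⟩ := isoH
  set S : (Y × Z) →L[ℂ] HI := (e.symm : (Y × Z) →L[ℂ] HI) with hS
  set P : HI →L[ℂ] HI := (S.comp ((ContinuousLinearMap.inl ℂ Y Z).comp
    ((ContinuousLinearMap.fst ℂ Y Z).comp (e : HI →L[ℂ] (Y × Z))))) with hP
  have hPx : ∀ x, P x = e.symm ((e x).1, 0) := fun x => rfl
  have hQx : ∀ x, x - P x = e.symm (0, (e x).2) := by
    intro x
    apply e.injective
    rw [map_sub, hPx, ContinuousLinearEquiv.apply_symm_apply,
      ContinuousLinearEquiv.apply_symm_apply]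
    ext <;> simp
  rcases factorH P with ⟨a, b, hab⟩ | ⟨a, b, hab⟩
  · left
    obtain ⟨w⟩ := pelczynskiB (E := HI) (Y := Y)
      ((u : HI →L[ℂ] BoundedContinuousFunction ℕ HI).comp
        (S.comp (ContinuousLinearMap.inl ℂ Y Z)))
      ((ContinuousLinearMap.fst ℂ Y Z).comp ((e : HI →L[ℂ] (Y × Z)).comp
        (u.symm : BoundedContinuousFunction ℕ HI →L[ℂ] HI)))
      (fun y => by simp [hS])
      ((ContinuousLinearMap.fst ℂ Y Z).comp ((e : HI →L[ℂ] (Y × Z)).comp a))
      (b.comp (S.comp (ContinuousLinearMap.inl ℂ Y Z)))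
      (fun x => by
        have := hab x
        rw [hPx] at this
        exact this)
    exact ⟨u.trans w.symm⟩
  · right
    obtain ⟨w⟩ := pelczynskiB (E := HI) (Y := Z)
      ((u : HI →L[ℂ] BoundedContinuousFunction ℕ HI).comp
        (S.comp (ContinuousLinearMap.inr ℂ Y Z)))
      ((ContinuousLinearMap.snd ℂ Y Z).comp ((e : HI →L[ℂ] (Y × Z)).comp
        (u.symm : BoundedContinuousFunction ℕ HI →L[ℂ] HI)))
      (fun y => by simp [hS])
      ((ContinuousLinearMap.snd ℂ Y Z).comp ((e : HI →L[ℂ] (Y × Z)).comp a))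
      (b.comp (S.comp (ContinuousLinearMap.inr ℂ Y Z)))
      (fun x => by
        have := hab x
        rw [hQx] at this
        exact this)
    exact ⟨u.trans w.symm⟩

end Pool.Agent.Helper621.DAP
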